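import Pool.Agent.H89.Perc.Symm
import Pool.Agent.H89.Perc.Cross

/-!
# Gluing of crossings, lists of crossings, long crossings
-/

open MeasureTheory ProbabilityTheory unitInterval

namespace Pool.Agent.H85.Strict

open Pool.Agent.H89.Perc

variable {ω : Config} {q : I}

/-- A horizontal path and a vertical path which cross the same rectangle meet. -/
theorem hv_meet {a₁ b₁ c₁ d₁ a₂ b₂ c₂ d₂ : ℤ} {u v u' v' : Vert}
    (h : Conn ω (rect a₁ b₁ c₁ d₁) u v) (hu : u.1 ≤ a₂) (hv : b₂ ≤ v.1)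
    (h' : Conn ω (rect a₂ b₂ c₂ d₂) u' v') (hu' : u'.2 ≤ c₁) (hv' : d₁ ≤ v'.2)
    (hab : a₂ ≤ b₂) (hcd : c₁ ≤ d₁) :
    ∃ z, Conn ω (rect a₁ b₁ c₁ d₁) u z ∧ Conn ω (rect a₂ b₂ c₂ d₂) u' z := by
  obtain ⟨x, y, hx, hy, h1, h2, -⟩ := h.cross_x hu hv hab
  obtain ⟨x', y', hx', hy', h1', h2', -⟩ := h'.cross_y hu' hv' hcd
  have hum := h.mem_left
  have hvm := h.mem_right
  have hum' := h'.mem_left
  have hvm' := h'.mem_right
  simp only [rect, Set.mem_ofPred_eq] at hum hvm hum' hvm'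
  have k1 : Conn ω (rect a₂ b₂ c₁ d₁) x y := h1.mono_set (by
    rintro w ⟨hw1, hw2⟩
    simp only [rect, Set.mem_ofPred_eq] at hw1 hw2 ⊢
    omega)
  have k2 : Conn ω (rect a₂ b₂ c₁ d₁) x' y' := h1'.mono_set (by
    rintro w ⟨hw1, hw2⟩
    simp only [rect, Set.mem_ofPred_eq] at hw1 hw2 ⊢
    omega)
  obtain ⟨w, hw1, hw2⟩ := cross k1 hx hy k2 hx' hy'
  refine ⟨w, h2.trans (hw1.mono_set ?_), h2'.trans (hw2.mono_set ?_)⟩
  · intro z hz
    simp only [rect, Set.mem_ofPred_eq] at hz ⊢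
    omega
  · intro z hz
    simp only [rect, Set.mem_ofPred_eq] at hz ⊢
    omega

/-- Two overlapping horizontal crossings and a vertical crossing of the overlap. -/
theorem hcross_glue {a a' b b' c d : ℤ} (haa : a ≤ a') (hab : a' ≤ b) (hbb : b ≤ b') (hcd : c ≤ d)
    (h1 : HCross ω a b c d) (h2 : VCross ω a' b c d) (h3 : HCross ω a' b' c d) :
    HCross ω a b' c d := by
  obtain ⟨u, v, hu, hv, h1⟩ := h1
  obtain ⟨u', v', hu', hv', h2⟩ := h2
  obtain ⟨x, y, hx, hy, h3⟩ := h3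
  obtain ⟨z, k1, k2⟩ := hv_meet h1 (by omega) (by omega) h2 (by omega) (by omega) hab hcd
  obtain ⟨z', k3, k4⟩ := hv_meet h3 (by omega) (by omega) h2 (by omega) (by omega) hab hcd
  have m1 : rect a b c d ⊆ rect a b' c d := by
    intro w hw
    simp only [rect, Set.mem_ofPred_eq] at hw ⊢
    omega
  have m2 : rect a' b c d ⊆ rect a b' c d := by
    intro w hw
    simp only [rect, Set.mem_ofPred_eq] at hw ⊢
    omega
  have m3 : rect a' b' c d ⊆ rect a b' c d := by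
    intro w hw
    simp only [rect, Set.mem_ofPred_eq] at hw ⊢
    omega
  exact ⟨u, y, hu, hy, (((k1.mono_set m1).trans ((k2.mono_set m2).symm)).trans
    (k4.mono_set m2)).trans (((k3.mono_set m3).symm).trans (h3.mono_set m3))⟩

/-- Long crossings. -/
theorem long_rsw {n : ℕ} {c₀ : ℝ} (hc : 0 ≤ c₀)
    (h : c₀ ≤ Pr q {ω | HCross ω 0 (4 * n) 0 n}) (j : ℕ) :
    c₀ ^ (2 * j + 1) ≤ Pr q {ω | HCross ω 0 ((4 + 3 * j) * n) 0 n} := by
  induction j with
  | zero => simpa using h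
  | succ j ih =>
    have hn : (0 : ℤ) ≤ n := by positivity
    have hjn : (0 : ℤ) ≤ (j : ℤ) * n := by positivity
    have hV : c₀ ≤ Pr q {ω | VCross ω ((3 + 3 * j) * n) ((4 + 3 * j) * n) 0 n} := by
      rw [Pr_vcross_eq_hcross]
      have h1 := Pr_hcross_translate (p := q) (a := 0) (b := (n : ℤ)) (c := 0) (d := (n : ℤ)) 0
        ((3 + 3 * j) * n)
      have e1 : (0 : ℤ) + (3 + 3 * j) * n = (3 + 3 * j) * n := by ring
      have e2 : (n : ℤ) + (3 + 3 * j) * n = (4 + 3 * j) * n := by ring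
      rw [e1, e2, add_zero, add_zero] at h1
      rw [h1]
      refine h.trans (Pr_mono fun ω hω => ?_)
      exact HCross.mono hω le_rfl hn (by omega) le_rfl le_rfl
    have hH : c₀ ≤ Pr q {ω | HCross ω ((3 + 3 * j) * n) ((7 + 3 * j) * n) 0 n} := by
      have h1 := Pr_hcross_translate (p := q) (a := 0) (b := 4 * (n : ℤ)) (c := 0) (d := (n : ℤ))
        ((3 + 3 * j) * n) 0
      have e1 : (0 : ℤ) + (3 + 3 * j) * n = (3 + 3 * j) * n := by ring
      have e2 : 4 * (n : ℤ) + (3 + 3 * j) * n = (7 + 3 * j) * n := by ring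
      rw [e1, e2, add_zero, add_zero] at h1
      rw [h1]
      exact h
    have f1 := fkg (p := q) (localOn_hcross 0 ((4 + 3 * (j : ℤ)) * n) 0 n)
      (localOn_vcross ((3 + 3 * (j : ℤ)) * n) ((4 + 3 * (j : ℤ)) * n) 0 n)
      (incr_hcross _ _ _ _) (incr_vcross _ _ _ _)
    have f2 := fkg (p := q) ((localOn_hcross 0 ((4 + 3 * (j : ℤ)) * n) 0 n).inter'
      (localOn_vcross ((3 + 3 * (j : ℤ)) * n) ((4 + 3 * (j : ℤ)) * n) 0 n))
      (localOn_hcross ((3 + 3 * (j : ℤ)) * n) ((7 + 3 * (j : ℤ)) * n) 0 n)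
      ((incr_hcross _ _ _ _).inter (incr_vcross _ _ _ _)) (incr_hcross _ _ _ _)
    have e : c₀ ^ (2 * (j + 1) + 1) = c₀ ^ (2 * j + 1) * c₀ * c₀ := by ring
    rw [e]
    have g1 := (mul_le_mul ih hV hc Pr_nonneg).trans f1
    have g2 := (mul_le_mul g1 hH hc Pr_nonneg).trans f2
    refine g2.trans (Pr_mono ?_)
    rintro ω ⟨⟨w1, w2⟩, w3⟩
    have := hcross_glue (by nlinarith) (by nlinarith) (by nlinarith) hn w1 w2 w3
    show HCross ω 0 ((4 + 3 * ((j + 1 : ℕ) : ℤ)) * n) 0 n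
    have e : (4 + 3 * ((j + 1 : ℕ) : ℤ)) * n = (7 + 3 * (j : ℤ)) * n := by push_cast; ring
    rw [e]
    exact this

/-- Specification of a crossing: direction (`true` is horizontal) and rectangle. -/
structure Spec where
  hor : Bool
  a : ℤ
  b : ℤ
  c : ℤ
  d : ℤ

/-- The crossing event. -/
def Spec.ev (r : Spec) : Set Config :=
  if r.hor = true then {ω | HCross ω r.a r.b r.c r.d} else {ω | VCross ω r.a r.b r.c r.d}

theorem localOn_ev (r : Spec) : LocalOn (eRect r.a r.b r.c r.d) r.ev := by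
  unfold Spec.ev
  split_ifs
  · exact localOn_hcross _ _ _ _
  · exact localOn_vcross _ _ _ _

theorem incr_ev (r : Spec) : Incr r.ev := by
  unfold Spec.ev
  split_ifs
  · exact incr_hcross _ _ _ _
  · exact incr_vcross _ _ _ _

/-- All the crossings of a list occur. -/
def AllCr (L : List Spec) : Set Config := {ω | ∀ r ∈ L, ω ∈ r.ev}

theorem incr_allCr (L : List Spec) : Incr (AllCr L) :=
  fun ω ω' h hA r hr => incr_ev r ω ω' h (hA r hr)

theorem localOn_allCr {L : List Spec} {s : Finset Edge}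
    (h : ∀ r ∈ L, eRect r.a r.b r.c r.d ⊆ s) : LocalOn s (AllCr L) :=
  fun ω ω' hω hA r hr => ((localOn_ev r).mono (h r hr)) ω ω' hω (hA r hr)

theorem exists_local_allCr (L : List Spec) : ∃ s, LocalOn s (AllCr L) := by
  classical
  induction L with
  | nil => exact ⟨∅, fun ω ω' _ _ r hr => by simp at hr⟩
  | cons r L ih =>
    obtain ⟨s, hs⟩ := ih
    refine ⟨eRect r.a r.b r.c r.d ∪ s, ?_⟩
    have : AllCr (r :: L) = r.ev ∩ AllCr L := by
      ext ω
      simp [AllCr]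
    rw [this]
    exact (localOn_ev r).inter' hs

theorem allCr_lower {x : ℝ} (hx : 0 ≤ x) : ∀ {L : List Spec}, (∀ r ∈ L, x ≤ Pr q r.ev) →
    x ^ L.length ≤ Pr q (AllCr L)
  | [], _ => by
    have : AllCr [] = Set.univ := Set.eq_univ_of_forall fun ω r hr => by simp at hr
    rw [this, Pr_univ]
    simp
  | r :: L, h => by
    have ih := allCr_lower hx (L := L) fun r' hr' => h r' (List.mem_cons_of_mem _ hr')
    obtain ⟨s, hs⟩ := exists_local_allCr L
    have f := fkg (p := q) (localOn_ev r) hs (incr_ev r) (incr_allCr L)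
    have : AllCr (r :: L) = r.ev ∩ AllCr L := by
      ext ω
      simp [AllCr]
    rw [this, List.length_cons, pow_succ, mul_comm]
    exact (mul_le_mul (h r (by simp)) ih (by positivity) Pr_nonneg).trans f

/-- A crossing of a rectangle of bounded aspect ratio. -/
def Spec.Good (r : Spec) (n K : ℕ) : Prop :=
  (r.hor = true ∧ r.a ≤ r.b ∧ r.b - r.a ≤ K * n ∧ n ≤ r.d - r.c) ∨
    (r.hor = false ∧ r.c ≤ r.d ∧ r.d - r.c ≤ K * n ∧ n ≤ r.b - r.a)

theorem hcross_lower {n K : ℕ} {x : ℝ} (h : x ≤ Pr q {ω | HCross ω 0 (K * n) 0 n}) {a b c d : ℤ}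
    (hab : a ≤ b) (h1 : b - a ≤ K * n) (h2 : n ≤ d - c) : x ≤ Pr q {ω | HCross ω a b c d} := by
  have h3 := Pr_hcross_translate (p := q) (a := 0) (b := b - a) (c := 0) (d := d - c) a c
  have e1 : (0 : ℤ) + a = a := by ring
  have e2 : b - a + a = b := by ring
  have e3 : (0 : ℤ) + c = c := by ring
  have e4 : d - c + c = d := by ring
  rw [e1, e2, e3, e4] at h3
  rw [h3]
  exact h.trans (Pr_mono fun ω hω => HCross.mono hω le_rfl (by omega) h1 le_rfl h2)

theorem good_lower {n K : ℕ} {x : ℝ} (h : x ≤ Pr q {ω | HCross ω 0 (K * n) 0 n}) {r : Spec}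
    (hr : r.Good n K) : x ≤ Pr q r.ev := by
  unfold Spec.ev
  rcases hr with ⟨h0, h1, h2, h3⟩ | ⟨h0, h1, h2, h3⟩
  · rw [if_pos h0]
    exact hcross_lower h h1 h2 h3
  · rw [if_neg (by rw [h0]; decide), Pr_vcross_eq_hcross]
    exact hcross_lower h h1 h2 h3

end Pool.Agent.H85.Strict
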