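import Pool.Agent.H85.Strict.BetaMain

/-!
# `θ(p) ≥ c (p - 1/2)^{1/2 - ε}`
-/

open MeasureTheory ProbabilityTheory unitInterval Filter Topology

namespace Pool.Agent.H85.Strict

open Pool.Agent.H89.Perc Pool.Agent.H57.LF

/-- Crossings of long rectangles are not very likely near the critical density. -/
theorem not_long_near : ∃ c₀ > (0 : ℝ), ∃ a > (0 : ℝ), a ≤ 1 ∧ ∀ (p : I) (k : ℕ), 1 ≤ k →
    half ≤ p → 4 * (((p : ℝ) - 1 / 2) * (k : ℝ) ^ 2) ≤ a ^ 2 →
    Pr p {ω | HCross ω k (16 * k) (-k) (4 * k)} ≤ 1 - c₀ := by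
  obtain ⟨c₀, hc₀, a, ha, ha1, H⟩ := rsw_near
  refine ⟨c₀, hc₀, a, ha, ha1, fun p k hk hp hpk => ?_⟩
  have hp2 : (1 / 2 : ℝ) ≤ p := hp
  have h1 := H (σ p) (2 * k) (by omega) (by
    have : ((σ p : I) : ℝ) - 1 / 2 = -((p : ℝ) - 1 / 2) := by rw [coe_σ]; ring
    rw [this, abs_neg, abs_of_nonneg (by linarith)]
    push_cast
    linarith)
  have h2 : c₀ ≤ Pr p {ω | dual ω ∈ {ω | VCross ω k (16 * (k : ℤ) - 1) (-(k : ℤ) - 1) (4 * k)}} := by
    rw [Pr_dual (localOn_vcross _ _ _ _), Pr_vcross_eq_hcross,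
      hcross_shape (w := 5 * (k : ℤ) + 1) (h := 15 * (k : ℤ) - 1) (by ring) (by ring)]
    refine h1.trans (Pr_mono fun ω hω => ?_)
    exact HCross.mono hω le_rfl (by omega) (by push_cast; omega) le_rfl (by push_cast; omega)
  have h3 : Pr p {ω | dual ω ∈ {ω | VCross ω k (16 * (k : ℤ) - 1) (-(k : ℤ) - 1) (4 * k)}} ≤
      1 - Pr p {ω | HCross ω k (16 * k) (-k) (4 * k)} := by
    rw [← Pr_compl (localOn_hcross' (k : ℤ) (16 * k) (-k) (4 * k))]
    refine Pr_mono fun ω hω hh => ?_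
    exact not_hcross_and_dual_vcross (by omega) hh hω
  linarith

/-- **Main theorem.** -/
theorem theta_strict : ∃ c > (0 : ℝ), ∃ ε > (0 : ℝ), ε ≤ 1 / 4 ∧ ∀ p : I, half ≤ p →
    c * ((p : ℝ) - 1 / 2) ^ (1 / 2 - ε) ≤ theta p := by
  obtain ⟨ε₁, hε₁, c1, hc1, H1⟩ := fs
  obtain ⟨b, hb, ε₂, hε₂, hε₂1, H2⟩ := main_ineq2
  obtain ⟨C, hC, H3⟩ := avg_le
  obtain ⟨c4, hc4, H4⟩ := arm_ext
  obtain ⟨c5, hc5, H5⟩ := arm_pos_lower
  obtain ⟨c₀, hc₀, a, ha, ha1, H6⟩ := not_long_near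
  set ε' : ℝ := min ε₁ (c₀ / 2) with hε'
  have hε'0 : 0 < ε' := lt_min hε₁ (by positivity)
  set δ : ℝ := Real.sqrt (b * ε') / C with hδ
  have hδ0 : 0 < δ := by positivity
  -- a constant for the conclusion
  set A : ℝ := (a / 4) ^ (ε₂ / 2) with hA
  have hA0 : 0 < A := by positivity
  refine ⟨min (c1 * c5) (min (c1 * (c4 * Real.sqrt (1 / 2) * (δ * A))) (δ * A)), by positivity,
    ε₂ / 4, by positivity, by linarith, fun p hp => ?_⟩
  have hp2 : (1 / 2 : ℝ) ≤ p := hp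
  set x : ℝ := (p : ℝ) - 1 / 2 with hx
  have hx0 : 0 ≤ x := by rw [hx]; linarith
  have hx1 : x ≤ 1 := by rw [hx]; linarith [p.2.2]
  rcases eq_or_lt_of_le hx0 with h0 | hxp
  · rw [← h0, Real.zero_rpow (by linarith), mul_zero]
    exact Pr_nonneg
  have hy1 : x ^ (1 / 2 - ε₂ / 4) ≤ 1 := Real.rpow_le_one hx0 hx1 (by linarith)
  have hy0 : 0 < x ^ (1 / 2 - ε₂ / 4) := by positivity
  set z : ℝ := x ^ (-(1 / 2) : ℝ) with hz
  have hz1 : 1 ≤ z := by
    rw [hz]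
    exact Real.one_le_rpow_of_pos_of_le_one_of_nonpos hxp hx1 (by norm_num)
  have hz2 : x * z ^ 2 = 1 := by
    rw [hz, ← Real.rpow_natCast, ← Real.rpow_mul hx0]
    have : x * x ^ (-(1 / 2 : ℝ) * ((2 : ℕ) : ℝ)) = x ^ (1 : ℝ) * x ^ (-(1 : ℝ)) := by
      rw [Real.rpow_one]; norm_num
    rw [this, ← Real.rpow_add hxp]
    norm_num
  set N : ℕ := ⌊z⌋₊ with hN
  have hN1 : 1 ≤ N := by
    rw [hN]; exact Nat.le_floor (by exact_mod_cast hz1)
  have hNz : (N : ℝ) ≤ z := Nat.floor_le (by linarith)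
  have hNz2 : z / 2 ≤ N := by
    have h1 : z < N + 1 := Nat.lt_floor_add_one z
    have h2 : (1 : ℝ) ≤ N := by exact_mod_cast hN1
    linarith
  have hxN : x * (N : ℝ) ^ 2 ≤ 1 := by
    rw [← hz2]; gcongr
  -- the factor gained
  have hgain : ∀ r : ℝ, a / 4 * z ≤ r → A * x ^ (1 / 2 - ε₂ / 4) ≤ Real.sqrt x * r ^ (ε₂ / 2) := by
    intro r hr
    have h1 : (a / 4 * z) ^ (ε₂ / 2) ≤ r ^ (ε₂ / 2) :=
      Real.rpow_le_rpow (by positivity) hr (by positivity)
    have h2 : (a / 4 * z) ^ (ε₂ / 2) = A * x ^ (-(ε₂ / 4)) := by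
      rw [Real.mul_rpow (by positivity) (by linarith), hA, hz, ← Real.rpow_mul hx0]
      congr 2
      ring
    have h3 : Real.sqrt x * (A * x ^ (-(ε₂ / 4))) = A * x ^ (1 / 2 - ε₂ / 4) := by
      rw [Real.sqrt_eq_rpow, mul_left_comm, ← Real.rpow_add hxp]
      rfl
    calc A * x ^ (1 / 2 - ε₂ / 4) = Real.sqrt x * (a / 4 * z) ^ (ε₂ / 2) := by rw [h2, h3]
      _ ≤ _ := mul_le_mul_of_nonneg_left h1 (Real.sqrt_nonneg _)
  -- if the crossing probability is not close to one, the one-arm probability is large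
  have key : ∀ m : ℕ, 1 ≤ m →
      ¬ (1 - ε' ≤ Pr p {ω | HCross ω m (16 * m) (-m) (4 * m)}) →
      δ * (Real.sqrt x * ((min m N : ℕ) : ℝ) ^ (ε₂ / 2)) ≤ arm p m := by
    intro m hm hn
    push Not at hn
    have h1 := H2 p hp m N hm hN1 hxN
    rw [← hx] at h1
    set R : ℝ := ((min m N : ℕ) : ℝ) with hR
    have hR1 : 1 ≤ R := by
      rw [hR]; exact_mod_cast le_min hm hN1
    have hRp : 0 < R := by linarith
    have h2 : b * ε' * x ≤ R ^ (-ε₂) * avgArm p m ^ 2 := by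
      refine le_trans ?_ h1
      have h4 : ε' ≤ 1 - Pr p {ω | HCross ω m (16 * m) (-m) (4 * m)} := by linarith
      have h3 : b * x * ε' ≤ b * x * (1 - Pr p {ω | HCross ω m (16 * m) (-m) (4 * m)}) :=
        mul_le_mul_of_nonneg_left h4 (by positivity)
      linarith
    have h3 : b * ε' * x * R ^ ε₂ ≤ avgArm p m ^ 2 := by
      have h4 := mul_le_mul_of_nonneg_right h2 (by positivity : 0 ≤ R ^ ε₂)
      have h5 : R ^ (-ε₂) * avgArm p m ^ 2 * R ^ ε₂ = avgArm p m ^ 2 := by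
        rw [Real.rpow_neg hRp.le]
        field_simp
      rwa [h5] at h4
    have h4 : Real.sqrt (b * ε') * (Real.sqrt x * R ^ (ε₂ / 2)) ≤ avgArm p m := by
      have h5 : (Real.sqrt (b * ε') * (Real.sqrt x * R ^ (ε₂ / 2))) ^ 2 = b * ε' * x * R ^ ε₂ := by
        rw [mul_pow, mul_pow, Real.sq_sqrt (by positivity), Real.sq_sqrt hx0,
          ← Real.rpow_natCast (R ^ (ε₂ / 2)) 2, ← Real.rpow_mul hRp.le]
        norm_num
        ring_nf
      rw [← h5] at h3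
      exact (abs_le_of_sq_le_sq' h3 (avgArm_nonneg p m)).2
    have h5 := H3 p hp m hm
    rw [hδ, div_mul_eq_mul_div, div_le_iff₀ hC]
    linarith
  by_cases hex : ∃ m : ℕ, 1 ≤ m ∧ 1 - ε' ≤ Pr p {ω | HCross ω m (16 * m) (-m) (4 * m)}
  · classical
    set m := Nat.find hex with hm
    obtain ⟨hm1, hmF⟩ := Nat.find_spec hex
    rw [← hm] at hm1 hmF
    have hm0 : (0 : ℝ) < m := by exact_mod_cast hm1
    have h1 := H1 p hp m hm1 (by
      have : ε' ≤ ε₁ := min_le_left _ _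
      linarith)
    -- `m` is not small
    have hbig : a / 2 * z ≤ m := by
      by_contra hlt
      push Not at hlt
      have h2 : 4 * (x * (m : ℝ) ^ 2) ≤ a ^ 2 := by
        have h3 : (m : ℝ) ^ 2 ≤ (a / 2 * z) ^ 2 := by gcongr
        calc 4 * (x * (m : ℝ) ^ 2) ≤ 4 * (x * (a / 2 * z) ^ 2) := by gcongr
          _ = a ^ 2 * (x * z ^ 2) := by ring
          _ = a ^ 2 := by rw [hz2, mul_one]
      have h3 := H6 p m hm1 hp h2
      have h4 : ε' ≤ c₀ / 2 := min_le_right _ _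
      linarith
    rcases Nat.lt_or_ge m 2 with hm2 | hm2
    · have hm' : m = 1 := by omega
      rw [hm'] at h1
      have h2 := H5 p hp 1 le_rfl
      rw [Nat.cast_one, Real.sqrt_one, mul_one, one_mul] at h2
      calc min (c1 * c5) (min (c1 * (c4 * Real.sqrt (1 / 2) * (δ * A))) (δ * A)) *
            x ^ (1 / 2 - ε₂ / 4) ≤ (c1 * c5) * 1 :=
            mul_le_mul (min_le_left _ _) hy1 hy0.le (by positivity)
        _ ≤ c1 * arm p 1 := by rw [mul_one]; exact mul_le_mul_of_nonneg_left h2 hc1.le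
        _ ≤ _ := h1
    · have hn : ¬ (1 - ε' ≤ Pr p {ω | HCross ω ((m - 1 : ℕ) : ℤ) (16 * ((m - 1 : ℕ) : ℤ))
          (-((m - 1 : ℕ) : ℤ)) (4 * ((m - 1 : ℕ) : ℤ))}) := by
        intro h
        exact Nat.find_min hex (m := m - 1) (by omega) ⟨by omega, h⟩
      have h2 := key (m - 1) (by omega) hn
      have h3 := H4 p hp (m - 1) m (by omega) (by omega)
      have hmc : ((m - 1 : ℕ) : ℝ) = m - 1 := by
        rw [Nat.cast_sub (by omega)]; simp
      have hm2' : (2 : ℝ) ≤ m := by exact_mod_cast hm2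
      have h4 : Real.sqrt (1 / 2) ≤ Real.sqrt (((m - 1 : ℕ) : ℝ) / m) := by
        apply Real.sqrt_le_sqrt
        rw [div_le_div_iff₀ (by norm_num) hm0, hmc]
        linarith
      have hmin : a / 4 * z ≤ ((min (m - 1) N : ℕ) : ℝ) := by
        rw [Nat.cast_min]
        refine le_min ?_ ?_
        · rw [hmc]; nlinarith
        · nlinarith
      have h6 : δ * (A * x ^ (1 / 2 - ε₂ / 4)) ≤ arm p (m - 1) :=
        (mul_le_mul_of_nonneg_left (hgain _ hmin) hδ0.le).trans h2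
      have h5 : c4 * Real.sqrt (1 / 2) * (δ * (A * x ^ (1 / 2 - ε₂ / 4))) ≤ arm p m := by
        refine le_trans ?_ h3
        refine mul_le_mul (mul_le_mul_of_nonneg_left h4 hc4.le) h6 (by positivity) (by positivity)
      calc min (c1 * c5) (min (c1 * (c4 * Real.sqrt (1 / 2) * (δ * A))) (δ * A)) *
            x ^ (1 / 2 - ε₂ / 4) ≤ (c1 * (c4 * Real.sqrt (1 / 2) * (δ * A))) *
              x ^ (1 / 2 - ε₂ / 4) :=
            mul_le_mul_of_nonneg_right ((min_le_right _ _).trans (min_le_left _ _)) hy0.le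
        _ = c1 * (c4 * Real.sqrt (1 / 2) * (δ * (A * x ^ (1 / 2 - ε₂ / 4)))) := by ring
        _ ≤ c1 * arm p m := mul_le_mul_of_nonneg_left h5 hc1.le
        _ ≤ _ := h1
  · push Not at hex
    have h2 : δ * A * x ^ (1 / 2 - ε₂ / 4) ≤ theta p := by
      refine ge_of_tendsto (tendsto_arm p) ?_
      filter_upwards [eventually_ge_atTop N] with M hM
      have h1 := key M (by omega) (not_le.2 (hex M (by omega)))
      rw [min_eq_right hM] at h1
      have h3 := hgain (N : ℝ) (by nlinarith)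
      calc δ * A * x ^ (1 / 2 - ε₂ / 4) = δ * (A * x ^ (1 / 2 - ε₂ / 4)) := by ring
        _ ≤ δ * (Real.sqrt x * (N : ℝ) ^ (ε₂ / 2)) := mul_le_mul_of_nonneg_left h3 hδ0.le
        _ ≤ _ := h1
    refine le_trans (mul_le_mul_of_nonneg_right ?_ hy0.le) h2
    exact (min_le_right _ _).trans (min_le_right _ _)

end Pool.Agent.H85.Strict
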