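import Pool.Agent.H85.Strict.TwoArm
import Pool.Agent.H89.Perc.Russo
import Pool.Agent.H89.Perc.RSW

/-!
# The strict two-arm inequality near the critical density
-/

open MeasureTheory ProbabilityTheory unitInterval

namespace Pool.Agent.H85.Strict

open Pool.Agent.H89.Perc

/-- Lipschitz bound for the probability of a local event. -/
theorem lip {s : Finset Edge} {A : Set Config} (hA : LocalOn s A) (q : I) :
    |Pr q A - Pr half A| ≤ s.card * |(q : ℝ) - 1 / 2| := by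
  have hpiv : ∀ (q : I) (e : Edge), |pivot q A e| ≤ 1 := by
    intro q e
    unfold pivot
    rw [abs_le]
    constructor
    · linarith [Pr_nonneg (p := q) (A := {ω : Config | Function.update ω e true ∈ A}),
        Pr_le_one (p := q) (A := {ω : Config | Function.update ω e false ∈ A})]
    · linarith [Pr_nonneg (p := q) (A := {ω : Config | Function.update ω e false ∈ A}),
        Pr_le_one (p := q) (A := {ω : Config | Function.update ω e true ∈ A})]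
  have hder : ∀ x ∈ Set.Icc (0 : ℝ) 1, HasDerivWithinAt (PrR s A) (deriv (PrR s A) x)
      (Set.Icc 0 1) x ∧ ‖deriv (PrR s A) x‖ ≤ s.card := by
    intro x hx
    have h := hasDerivAt_PrR hA (⟨x, hx⟩ : I)
    have h' : HasDerivAt (PrR s A) (∑ e ∈ s, pivot (⟨x, hx⟩ : I) A e) x := h
    rw [h'.deriv]
    refine ⟨h'.hasDerivWithinAt, ?_⟩
    rw [Real.norm_eq_abs]
    refine (Finset.abs_sum_le_sum_abs _ _).trans ?_
    refine (Finset.sum_le_sum fun e _ => hpiv _ e).trans ?_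
    simp
  have h1 : ((half : I) : ℝ) = 1 / 2 := rfl
  have key := Convex.norm_image_sub_le_of_norm_hasDerivWithin_le
    (fun x hx => (hder x hx).1) (fun x hx => (hder x hx).2) (convex_Icc (0 : ℝ) 1)
    (x := 1 / 2) (y := (q : ℝ)) (by norm_num) q.2
  rw [Real.norm_eq_abs, Real.norm_eq_abs] at key
  rw [Pr_eq_PrR hA q, Pr_eq_PrR hA half, h1]
  exact key

theorem coe_σ (p : I) : ((σ p : I) : ℝ) = 1 - p := rfl

/-- Crossings near the critical density. -/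
theorem rsw_near : ∃ c₀ > (0 : ℝ), ∃ a > (0 : ℝ), a ≤ 1 ∧ ∀ (q : I) (k : ℕ), 1 ≤ k →
    |(q : ℝ) - 1 / 2| * (k : ℝ) ^ 2 ≤ a ^ 2 → c₀ ≤ Pr q {ω | HCross ω 0 (4 * k) 0 k} := by
  obtain ⟨c, hc, H⟩ := rsw
  refine ⟨c / 2, by positivity, min 1 (Real.sqrt (c / 40)), by positivity, min_le_left _ _, ?_⟩
  intro q k hk hq
  have h1 := lip (localOn_hcross 0 (4 * (k : ℤ)) 0 k) q
  have h2 := H k hk
  have hcard : ((eRect 0 (4 * (k : ℤ)) 0 k).card : ℝ) ≤ 20 * (k : ℝ) ^ 2 := by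
    have e1 : (eRect 0 (4 * (k : ℤ)) 0 k).card = (4 * k + 1) * ((k + 1) * 2) := by
      unfold eRect
      rw [Finset.card_product, Finset.card_product, Int.card_Icc, Int.card_Icc]
      have e2 : (4 * (k : ℤ) + 1 - 0).toNat = 4 * k + 1 := by omega
      have e3 : ((k : ℤ) + 1 - 0).toNat = k + 1 := by omega
      rw [e2, e3]
      simp
    rw [e1]
    have hk' : (1 : ℝ) ≤ k := by exact_mod_cast hk
    push_cast
    nlinarith
  have h3 : (min 1 (Real.sqrt (c / 40))) ^ 2 ≤ c / 40 := by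
    have h4 : min 1 (Real.sqrt (c / 40)) ≤ Real.sqrt (c / 40) := min_le_right _ _
    have h5 : 0 ≤ min 1 (Real.sqrt (c / 40)) := by positivity
    calc (min 1 (Real.sqrt (c / 40))) ^ 2 ≤ Real.sqrt (c / 40) ^ 2 := by gcongr
      _ = c / 40 := Real.sq_sqrt (by positivity)
  have h4 : ((eRect 0 (4 * (k : ℤ)) 0 k).card : ℝ) * |(q : ℝ) - 1 / 2| ≤ c / 2 := by
    calc ((eRect 0 (4 * (k : ℤ)) 0 k).card : ℝ) * |(q : ℝ) - 1 / 2|
        ≤ 20 * (k : ℝ) ^ 2 * |(q : ℝ) - 1 / 2| :=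
          mul_le_mul_of_nonneg_right hcard (abs_nonneg _)
      _ = 20 * (|(q : ℝ) - 1 / 2| * (k : ℝ) ^ 2) := by ring
      _ ≤ 20 * (c / 40) := by linarith
      _ = c / 2 := by ring
  have h5 := (abs_le.1 (h1.trans h4)).1
  linarith

theorem arm_shift' (v u : Vert) (r : ℕ) {ω : Config} :
    (fun e => ω (shiftE v e)) ∈ Arm u r ↔ ω ∈ Arm (u.1 + v.1, u.2 + v.2) r := by
  rw [← arm_shift u r, ← arm_shift (u.1 + v.1, u.2 + v.2) r, Set.mem_ofPred_eq, Set.mem_ofPred_eq]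
  have : (fun e => (fun e => ω (shiftE v e)) (shiftE u e)) =
      fun e => ω (shiftE (u.1 + v.1, u.2 + v.2) e) := by
    funext e
    obtain ⟨x, y, b⟩ := e
    simp [shiftE, add_assoc]
  rw [this]

theorem dual_shift (v : Vert) (ω : Config) :
    dual (fun e => ω (shiftE v e)) = fun e => dual ω (shiftE v e) := by
  funext e
  obtain ⟨x, y, b⟩ := e
  cases b <;> simp [dual, crossed, shiftE, add_right_comm]

/-- **The strict two-arm inequality.** -/
theorem two_arm : ∃ C > (0 : ℝ), ∃ c > (0 : ℝ), c ≤ 1 / 8 ∧ ∀ (p : I) (N : ℕ),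
    |(p : ℝ) - 1 / 2| * (N : ℝ) ^ 2 ≤ 1 → ∀ v φ : Vert, |φ.1 - v.1| ≤ 1 → |φ.2 - v.2| ≤ 1 →
    ∀ r₁ r₂ : ℕ, Pr p (Arm v r₁ ∩ {ω | dual ω ∈ Arm φ r₂}) ≤
      C * (((min (min r₁ r₂) N : ℕ) : ℝ) + 1) ^ (-c) * (arm p r₁ * arm (σ p) r₂) := by
  obtain ⟨c₀, hc₀, a, ha, ha1, hR⟩ := rsw_near
  obtain ⟨C, hC, c, hc, H⟩ := two_arm_aux hc₀
  set c' := min c (1 / 8) with hc'
  have hc'0 : 0 < c' := lt_min hc (by norm_num)
  refine ⟨C * (a / 2) ^ (-c'), by positivity, c', hc'0, min_le_right _ _, ?_⟩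
  intro p N hN v φ h1 h2 r₁ r₂
  set L := ⌊a * N⌋₊ with hL
  have hrsw : ∀ k : ℕ, 1 ≤ k → k ≤ L → c₀ ≤ Pr p {ω | HCross ω 0 (4 * k) 0 k} ∧
      c₀ ≤ Pr (σ p) {ω | HCross ω 0 (4 * k) 0 k} := by
    intro k hk hkL
    have h3 : (k : ℝ) ≤ a * N := by
      have : (L : ℝ) ≤ a * N := Nat.floor_le (by positivity)
      have h4 : (k : ℝ) ≤ L := by exact_mod_cast hkL
      linarith
    have h4 : |(p : ℝ) - 1 / 2| * (k : ℝ) ^ 2 ≤ a ^ 2 := by
      calc |(p : ℝ) - 1 / 2| * (k : ℝ) ^ 2 ≤ |(p : ℝ) - 1 / 2| * (a * N) ^ 2 := by gcongr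
        _ = a ^ 2 * (|(p : ℝ) - 1 / 2| * (N : ℝ) ^ 2) := by ring
        _ ≤ a ^ 2 * 1 := by gcongr
        _ = a ^ 2 := mul_one _
    refine ⟨hR p k hk h4, hR (σ p) k hk ?_⟩
    have : ((σ p : I) : ℝ) - 1 / 2 = -((p : ℝ) - 1 / 2) := by rw [coe_σ]; ring
    rw [this, abs_neg]
    exact h4
  have key := H p L hrsw (φ.1 - v.1, φ.2 - v.2) h1 h2 r₁ r₂
  -- translation
  have htr : Pr p (Arm v r₁ ∩ {ω | dual ω ∈ Arm φ r₂}) =
      Pr p (Arm 0 r₁ ∩ {ω | dual ω ∈ Arm (φ.1 - v.1, φ.2 - v.2) r₂}) := by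
    classical
    have hl := (localOn_arm 0 r₁).inter' (localOn_arm (φ.1 - v.1, φ.2 - v.2) r₂).dual'
    rw [← Pr_comp (p := p) hl (shiftE_injective v).injOn]
    congr 1
    ext ω
    simp only [Set.mem_inter_iff, Set.mem_ofPred_eq]
    rw [arm_shift', dual_shift, arm_shift']
    simp
  rw [htr]
  refine key.trans (mul_le_mul_of_nonneg_right ?_ (mul_nonneg arm_nonneg arm_nonneg))
  rw [mul_assoc]
  refine mul_le_mul_of_nonneg_left ?_ hC.le
  rw [← Real.mul_rpow (by positivity) (by positivity)]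
  have hb : a / 2 * (((min (min r₁ r₂) N : ℕ) : ℝ) + 1) ≤ ((min (min r₁ r₂) L : ℕ) : ℝ) + 1 := by
    have h3 : a * N < (L : ℝ) + 1 := Nat.lt_floor_add_one _
    have h4 : ((min (min r₁ r₂) N : ℕ) : ℝ) ≤ (min r₁ r₂ : ℕ) := by
      exact_mod_cast min_le_left _ _
    have h5 : ((min (min r₁ r₂) N : ℕ) : ℝ) ≤ N := by exact_mod_cast min_le_right _ _
    have h6 : (0 : ℝ) ≤ ((min (min r₁ r₂) N : ℕ) : ℝ) := Nat.cast_nonneg _
    rcases le_total (min r₁ r₂) L with h | h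
    · rw [min_eq_left h]
      nlinarith
    · rw [min_eq_right h]
      have h7 : (0 : ℝ) ≤ L := Nat.cast_nonneg _
      nlinarith
  have hpos : 0 < a / 2 * (((min (min r₁ r₂) N : ℕ) : ℝ) + 1) := by positivity
  calc (((min (min r₁ r₂) L : ℕ) : ℝ) + 1) ^ (-c)
      ≤ (((min (min r₁ r₂) L : ℕ) : ℝ) + 1) ^ (-c') := by
        apply Real.rpow_le_rpow_of_exponent_le
        · have : (0 : ℝ) ≤ ((min (min r₁ r₂) L : ℕ) : ℝ) := Nat.cast_nonneg _
          linarith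
        · have : c' ≤ c := min_le_left _ _
          linarith
    _ ≤ (a / 2 * (((min (min r₁ r₂) N : ℕ) : ℝ) + 1)) ^ (-c') :=
        Real.rpow_le_rpow_of_nonpos hpos hb (by linarith)

end Pool.Agent.H85.Strict
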