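import Pool.Agent.H85.Strict.Reveal
import Pool.Agent.H85.Strict.Win
import Pool.Agent.H57.LF.Final

/-!
# The improved averaged OSSS inequality
-/

open MeasureTheory ProbabilityTheory unitInterval

namespace Pool.Agent.H85.Strict

open Pool.Agent.H89.Perc Pool.Agent.H57.LF

private lemma pivot_zero {q : I} {s : Finset Edge} {A : Set Config} (hA : LocalOn s A) {e : Edge}
    (he : e ∉ s) : pivot q A e = 0 := by
  have : {ω : Config | Function.update ω e true ∈ A} = {ω | Function.update ω e false ∈ A} := by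
    ext ω
    constructor
    · intro h
      refine hA _ _ (fun e' he' => ?_) h
      have : e' ≠ e := fun h => he (h ▸ he')
      rw [Function.update_of_ne this, Function.update_of_ne this]
    · intro h
      refine hA _ _ (fun e' he' => ?_) h
      have : e' ≠ e := fun h => he (h ▸ he')
      rw [Function.update_of_ne this, Function.update_of_ne this]
  unfold pivot
  rw [this]
  ring

private lemma pivot_nonneg {q : I} {A : Set Config} (iA : Incr A) (e : Edge) :
    0 ≤ pivot q A e := by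
  unfold pivot
  rw [sub_nonneg]
  refine Pr_mono fun ω h => iA _ _ (fun e' he' => ?_) h
  by_cases h1 : e' = e
  · subst h1; simp
  · rw [Function.update_of_ne h1] at he' ⊢
    exact he'

private lemma sum_first (f : ℕ → ℝ) (hf : Antitone f) (h0 : ∀ k, 0 ≤ f k) (m x : ℕ) :
    ∑ i ∈ Finset.range m, (if i ≤ x then f (x - i) else 0) ≤ ∑ k ∈ Finset.range m, f k := by
  rcases Nat.eq_zero_or_pos m with rfl | hm
  · simp
  set y := min x (m - 1) with hy
  calc ∑ i ∈ Finset.range m, (if i ≤ x then f (x - i) else 0)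
      = ∑ i ∈ (Finset.range m).filter (fun i => i ≤ x), f (x - i) := by
        rw [Finset.sum_filter]
    _ = ∑ i ∈ Finset.range (y + 1), f (x - i) := by
        congr 1
        ext i
        simp only [Finset.mem_filter, Finset.mem_range]
        omega
    _ ≤ ∑ i ∈ Finset.range (y + 1), f (y - i) := by
        refine Finset.sum_le_sum fun i _ => hf ?_
        omega
    _ = ∑ i ∈ Finset.range (y + 1), f i := by
        have := Finset.sum_range_reflect f (y + 1)
        rw [← this]
        refine Finset.sum_congr rfl fun i hi => ?_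
        congr 1
    _ ≤ ∑ k ∈ Finset.range m, f k := by
        refine Finset.sum_le_sum_of_subset_of_nonneg ?_ (fun i _ _ => h0 i)
        intro i hi
        simp only [Finset.mem_range] at hi ⊢
        omega

/-- The averaged inequality at a fixed density, for a general bound of the two-arm events. -/
theorem main_aux2 {q : I} {m : ℕ} (hm : 1 ≤ m) (G : ℕ → ℕ → ℝ) (hG0 : ∀ k l, 0 ≤ G k l)
    (hG1 : ∀ k k' l, k ≤ k' → G k' l ≤ G k l) (hG2 : ∀ k l l', l ≤ l' → G k l' ≤ G k l)
    (hG : ∀ (u φ : Vert) (k l : ℕ), |φ.1 - u.1| ≤ 1 → |φ.2 - u.2| ≤ 1 →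
      Pr q (Arm u k ∩ {ω | dual ω ∈ Arm φ l}) ≤ G k l) :
    (m : ℝ) ^ 2 * (Pr q {ω | HCross ω 0 (16 * m) 0 (4 * m)} *
      (1 - Pr q {ω | HCross ω m (16 * m) (-m) (4 * m)})) ≤
      4 * (∑ k ∈ Finset.range m, ∑ l ∈ Finset.range m, G k l) *
        ∑ e ∈ eRect 0 (16 * m) 0 (4 * m), pivot q {ω | HCross ω 0 (16 * m) 0 (4 * m)} e := by
  set g : Set Config := {ω | HCross ω 0 (16 * m) 0 (4 * m)} with hg
  set F : Set Config := {ω | HCross ω m (16 * m) (-m) (4 * m)} with hF
  set s : Finset Edge := eRect 0 (16 * m) (-m) (4 * m) with hs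
  set sg : Finset Edge := eRect 0 (16 * m) 0 (4 * m) with hsg
  have hsub : sg ⊆ s := by
    intro e he
    rw [hsg, mem_eRect] at he
    rw [hs, mem_eRect]
    obtain ⟨h1, h2, h3, h4⟩ := he
    exact ⟨h1, h2, by omega, h4⟩
  have hgl : LocalOn sg g := localOn_hcross' _ _ _ _
  have hgl' : LocalOn s g := hgl.mono hsub
  have hgi : Incr g := incr_hcross' _ _ _ _
  have hP0 : 0 ≤ Pr q g := Pr_nonneg
  -- the inequality for one corner
  have hone : ∀ i ∈ Finset.range m, ∀ j ∈ Finset.range m,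
      Pr q g * (1 - Pr q F) ≤ ∑ e ∈ sg,
        (4 * (if i ≤ e.1.toNat then G (e.1.toNat - i) j else 0)) * pivot q g e := by
    intro i hi j hj
    rw [Finset.mem_range] at hi hj
    set A : Set Config := {ω | HCross ω i (16 * m) (-j) (4 * m)} with hA
    have hAs : eRect (i : ℤ) (16 * m) (-j) (4 * m) ⊆ s := by
      intro e he
      rw [mem_eRect] at he
      rw [hs, mem_eRect]
      obtain ⟨h1, h2, h3, h4⟩ := he
      exact ⟨by omega, h2, by omega, h4⟩
    have hAl : LocalOn s A := (localOn_hcross' _ _ _ _).mono hAs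
    have hBA : g ⊆ A := fun ω h => hcross_sub (by omega) (by omega) le_rfl (by omega) le_rfl h
    have hAF : A ⊆ F := fun ω h => hcross_sub (by omega) (by omega) le_rfl (by omega) le_rfl h
    have h1 := osss_two (p := q) hAl hgl' hgi hBA (rectRule (i : ℤ) (16 * m) (-j) (4 * m))
      (fun O C e he => ⟨hAs (rectRule_mem O C e he).1, (rectRule_mem O C e he).2⟩)
      (fun ω ω' h hω => rectRule_det (by omega) (by omega) hAs ω ω' h hω)
    have h2 : Pr q g * (1 - Pr q F) ≤ Pr q g * (1 - Pr q A) :=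
      mul_le_mul_of_nonneg_left (by linarith [Pr_mono (p := q) hAF]) hP0
    refine h2.trans (h1.trans ?_)
    rw [← Finset.sum_subset hsub (fun e _ he => by rw [pivot_zero hgl he, mul_zero])]
    refine Finset.sum_le_sum fun e he => mul_le_mul_of_nonneg_right ?_ (pivot_nonneg hgi e)
    have he' : 0 ≤ e.1 ∧ e.1 ≤ 16 * m ∧ 0 ≤ e.2.1 ∧ e.2.1 ≤ 4 * m := mem_eRect.1 he
    by_cases hie : i ≤ e.1.toNat
    · rw [if_pos hie]
      have hmem : e ∈ eRect (i : ℤ) (16 * m) (-j) (4 * m) :=
        mem_eRect.2 ⟨by simp only [src]; omega, by simp only [src]; omega,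
          by simp only [src]; omega, by simp only [src]; omega⟩
      have e1 : (e.1 - (i : ℤ)).toNat = e.1.toNat - i := by omega
      have e2 : (e.2.1 - (-(j : ℤ))).toNat = e.2.1.toNat + j := by omega
      refine reveal q s.card hmem (B := G (e.1.toNat - i) j) ?_
      intro u φ h1 h2
      rw [e1, e2]
      exact (hG u φ _ _ h1 h2).trans (hG2 _ _ _ (by omega))
    · rw [if_neg hie]
      have hne : e ∉ eRect (i : ℤ) (16 * m) (-j) (4 * m) := by
        intro h
        have : (i : ℤ) ≤ e.1 := (mem_eRect.1 h).1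
        omega
      have : {ω : Config | e ∈ queried (rectRule (i : ℤ) (16 * m) (-j) (4 * m)) ω s.card} = ∅ := by
        ext ω
        simp only [Set.mem_ofPred_eq, Set.mem_empty_iff_false, iff_false]
        exact rectRule_not_queried ω _ hne
      rw [this]
      simp [Pr]
  -- sum over the corners
  calc (m : ℝ) ^ 2 * (Pr q g * (1 - Pr q F))
      = ∑ j ∈ Finset.range m, ∑ i ∈ Finset.range m, Pr q g * (1 - Pr q F) := by
        simp only [Finset.sum_const, Finset.card_range, nsmul_eq_mul]; ring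
    _ ≤ ∑ j ∈ Finset.range m, ∑ i ∈ Finset.range m, ∑ e ∈ sg,
        (4 * (if i ≤ e.1.toNat then G (e.1.toNat - i) j else 0)) * pivot q g e :=
        Finset.sum_le_sum fun j hj => Finset.sum_le_sum fun i hi => hone i hi j hj
    _ = ∑ j ∈ Finset.range m, ∑ e ∈ sg,
        (4 * ∑ i ∈ Finset.range m, (if i ≤ e.1.toNat then G (e.1.toNat - i) j else 0)) *
          pivot q g e := by
        refine Finset.sum_congr rfl fun j _ => ?_
        rw [Finset.sum_comm]
        refine Finset.sum_congr rfl fun e _ => ?_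
        rw [Finset.mul_sum, Finset.sum_mul]
    _ ≤ ∑ j ∈ Finset.range m, ∑ e ∈ sg, (4 * ∑ k ∈ Finset.range m, G k j) * pivot q g e := by
        refine Finset.sum_le_sum fun j _ => Finset.sum_le_sum fun e _ =>
          mul_le_mul_of_nonneg_right ?_ (pivot_nonneg hgi e)
        refine mul_le_mul_of_nonneg_left ?_ (by norm_num)
        exact sum_first (fun k => G k j) (fun a b h => hG1 a b j h) (fun k => hG0 k j) m e.1.toNat
    _ = 4 * (∑ k ∈ Finset.range m, ∑ l ∈ Finset.range m, G k l) * ∑ e ∈ sg, pivot q g e := by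
        rw [Finset.sum_comm (s := Finset.range m) (t := Finset.range m)]
        simp only [← Finset.mul_sum, ← Finset.sum_mul]

/-- The weight of the two-arm event. -/
noncomputable def wgt (c : ℝ) (N k : ℕ) : ℝ := (((min k N : ℕ) : ℝ) + 1) ^ (-c)

theorem wgt_nonneg {c : ℝ} {N k : ℕ} : 0 ≤ wgt c N k := by unfold wgt; positivity

theorem wgt_le_one {c : ℝ} (hc : 0 ≤ c) {N k : ℕ} : wgt c N k ≤ 1 := by
  unfold wgt
  apply Real.rpow_le_one_of_one_le_of_nonpos _ (by linarith)
  have : (0 : ℝ) ≤ ((min k N : ℕ) : ℝ) := Nat.cast_nonneg _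
  linarith

theorem wgt_anti {c : ℝ} (hc : 0 ≤ c) {N k k' : ℕ} (h : k ≤ k') : wgt c N k' ≤ wgt c N k := by
  unfold wgt
  apply Real.rpow_le_rpow_of_nonpos (by positivity) _ (by linarith)
  have : ((min k N : ℕ) : ℝ) ≤ ((min k' N : ℕ) : ℝ) := by
    exact_mod_cast min_le_min_right N h
  linarith

theorem wgt_min {c : ℝ} {N k l : ℕ} :
    (((min (min k l) N : ℕ) : ℝ) + 1) ^ (-c) ≤ wgt c N k + wgt c N l := by
  have h1 := wgt_nonneg (c := c) (N := N) (k := k)
  have h2 := wgt_nonneg (c := c) (N := N) (k := l)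
  rcases le_total k l with h | h
  · rw [min_eq_left h]
    change wgt c N k ≤ _
    linarith
  · rw [min_eq_right h]
    change wgt c N l ≤ _
    linarith

theorem arm_pos_lower : ∃ c > (0 : ℝ), ∀ q : I, half ≤ q → ∀ m : ℕ, 1 ≤ m →
    c * Real.sqrt m ≤ m * arm q m := by
  obtain ⟨c, hc, H⟩ := arm_ext
  obtain ⟨c2, hc2, H2⟩ := armBox_lower
  have h0 : c2 ≤ arm half 1 := by
    have h1 := H2 0 1 le_rfl (by norm_num)
    have h2 : ArmBox 0 0 1 ⊆ Arm 0 1 := by
      rintro ω ⟨w, hw, u, hu, hc⟩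
      have hw0 : w = 0 := by
        have h0 : ((0 : Vert).1) = 0 := rfl
        have h1 : ((0 : Vert).2) = 0 := rfl
        simp only [mem_ball, h0, h1] at hw
        ext
        · rw [h0]; omega
        · rw [h1]; omega
      subst hw0
      exact ⟨u, hu, hc⟩
    have h3 : Pr half (ArmBox 0 0 1) ≤ arm half 1 := Pr_mono h2
    have h5 : Real.sqrt (((0 : ℕ) + 1 : ℝ) / ((1 : ℕ) : ℝ)) = 1 := by norm_num
    rw [h5] at h1
    linarith
  refine ⟨c * c2, by positivity, fun q hq m hm => ?_⟩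
  have hm0 : (0 : ℝ) < m := by exact_mod_cast hm
  have h1 := H q hq 1 m le_rfl hm
  have h2 : c2 ≤ arm q 1 := h0.trans (arm_mono_param 1 hq)
  have h3 : c * Real.sqrt (1 / m) * c2 ≤ arm q m := by
    refine le_trans ?_ h1
    have e : (((1 : ℕ) : ℝ)) / m = 1 / m := by norm_num
    rw [e]
    exact mul_le_mul_of_nonneg_left h2 (by positivity)
  have h4 : (m : ℝ) * Real.sqrt (1 / m) = Real.sqrt m := by
    rw [Real.sqrt_div (by norm_num), Real.sqrt_one]
    have h5 : Real.sqrt (m : ℝ) * Real.sqrt m = m := Real.mul_self_sqrt hm0.le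
    have h6 : 0 < Real.sqrt (m : ℝ) := Real.sqrt_pos.2 hm0
    field_simp
    linarith
  calc c * c2 * Real.sqrt m = m * (c * Real.sqrt (1 / m) * c2) := by rw [← h4]; ring
    _ ≤ m * arm q m := by gcongr

/-- The weighted sum of the one-arm probabilities. -/
theorem wsum : ∃ K > (0 : ℝ), ∀ (c : ℝ), 0 < c → c ≤ 1 → ∀ q : I, half ≤ q → ∀ m N : ℕ, 1 ≤ m →
    1 ≤ N → ∑ k ∈ Finset.range m, wgt c N k * arm q k ≤
      K * ((min m N : ℕ) : ℝ) ^ (-(c / 4)) * ∑ k ∈ Finset.range m, arm q k := by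
  obtain ⟨c1, hc1, H⟩ := arm_pos_lower
  refine ⟨2 / c1 + 1, by positivity, fun c hc hc' q hq m N hm hN => ?_⟩
  set R : ℝ := ((min m N : ℕ) : ℝ) with hR
  have hR1 : 1 ≤ R := by
    rw [hR]; exact_mod_cast le_min hm hN
  set t : ℝ := R ^ (1 / 4 : ℝ) with ht
  have ht1 : 1 ≤ t := Real.one_le_rpow hR1 (by norm_num)
  have ht4 : t ^ 4 = R := by
    rw [ht, ← Real.rpow_natCast, ← Real.rpow_mul (by linarith)]
    norm_num
  set S : ℝ := ∑ k ∈ Finset.range m, arm q k with hS
  have hS0 : 0 ≤ S := Finset.sum_nonneg fun _ _ => arm_nonneg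
  have htc : t ^ (-c) = R ^ (-(c / 4)) := by
    rw [ht, ← Real.rpow_mul (by linarith)]
    congr 1
    ring
  -- lower bound for `S`
  have hSlow : c1 * t ^ 2 ≤ S := by
    have h1 : (m : ℝ) * arm q m ≤ S := by
      rw [hS]
      have : (m : ℝ) * arm q m = ∑ _k ∈ Finset.range m, arm q m := by simp
      rw [this]
      exact Finset.sum_le_sum fun k hk => arm_antitone (Finset.mem_range.1 hk).le
    have h2 : t ^ 2 ≤ Real.sqrt m := by
      apply Real.le_sqrt_of_sq_le
      have : R ≤ m := by rw [hR]; exact_mod_cast min_le_left _ _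
      calc (t ^ 2) ^ 2 = t ^ 4 := by ring
        _ = R := ht4
        _ ≤ m := this
    calc c1 * t ^ 2 ≤ c1 * Real.sqrt m := by gcongr
      _ ≤ m * arm q m := H q hq m hm
      _ ≤ S := h1
  -- termwise bound
  have hterm : ∀ k ∈ Finset.range m, wgt c N k * arm q k ≤
      (if (k : ℝ) < t then 1 else 0) + t ^ (-c) * arm q k := by
    intro k _
    have ha := arm_nonneg (p := q) (r := k)
    have ha1 := arm_le_one (p := q) (r := k)
    have hw := wgt_nonneg (c := c) (N := N) (k := k)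
    have hw1 := wgt_le_one hc.le (N := N) (k := k)
    by_cases hk : (k : ℝ) < t
    · rw [if_pos hk]
      have : 0 ≤ t ^ (-c) * arm q k := by positivity
      nlinarith
    · rw [if_neg hk, zero_add]
      push Not at hk
      refine mul_le_mul_of_nonneg_right ?_ ha
      unfold wgt
      apply Real.rpow_le_rpow_of_nonpos (by linarith) _ (by linarith)
      have h1 : t ≤ N := by
        have h2 : t ≤ R := by
          calc t = t * 1 := (mul_one t).symm
            _ ≤ t * t ^ 3 := by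
                apply mul_le_mul_of_nonneg_left _ (by linarith)
                exact one_le_pow₀ ht1
            _ = R := by rw [← ht4]; ring
        have h3 : R ≤ N := by rw [hR]; exact_mod_cast min_le_right _ _
        linarith
      have h2 : t ≤ ((min k N : ℕ) : ℝ) := by
        push_cast
        exact le_min hk h1
      linarith
  have hcount : ∑ k ∈ Finset.range m, (if (k : ℝ) < t then (1 : ℝ) else 0) ≤ t + 1 := by
    rw [← Finset.sum_filter, Finset.sum_const, nsmul_eq_mul, mul_one]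
    have h1 : (Finset.range m).filter (fun k : ℕ => (k : ℝ) < t) ⊆ Finset.range ⌈t⌉₊ := by
      intro k hk
      rw [Finset.mem_filter] at hk
      rw [Finset.mem_range]
      exact Nat.lt_ceil.2 hk.2
    have h2 := Finset.card_le_card h1
    rw [Finset.card_range] at h2
    have h3 : ((⌈t⌉₊ : ℕ) : ℝ) < t + 1 := Nat.ceil_lt_add_one (by linarith)
    have h4 : (((Finset.range m).filter (fun k : ℕ => (k : ℝ) < t)).card : ℝ) ≤ (⌈t⌉₊ : ℕ) := by
      exact_mod_cast h2
    linarith
  have h1 : ∑ k ∈ Finset.range m, wgt c N k * arm q k ≤ (t + 1) + t ^ (-c) * S := by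
    refine (Finset.sum_le_sum hterm).trans ?_
    rw [Finset.sum_add_distrib, ← Finset.mul_sum]
    linarith
  have h2 : t + 1 ≤ 2 / c1 * (t ^ (-c) * S) := by
    have h3 : t ^ (-(1 : ℝ)) ≤ t ^ (-c) := Real.rpow_le_rpow_of_exponent_le ht1 (by linarith)
    rw [Real.rpow_neg_one] at h3
    have h4 : t⁻¹ * (c1 * t ^ 2) ≤ t ^ (-c) * S :=
      mul_le_mul h3 hSlow (by positivity) (by positivity)
    have h5 : t⁻¹ * (c1 * t ^ 2) = c1 * t := by
      field_simp
    rw [h5] at h4
    calc t + 1 ≤ 2 * t := by linarith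
      _ = 2 / c1 * (c1 * t) := by field_simp
      _ ≤ _ := mul_le_mul_of_nonneg_left h4 (by positivity)
  rw [← htc]
  calc ∑ k ∈ Finset.range m, wgt c N k * arm q k ≤ (t + 1) + t ^ (-c) * S := h1
    _ ≤ 2 / c1 * (t ^ (-c) * S) + t ^ (-c) * S := by linarith
    _ = _ := by ring

/-- The improved main inequality. -/
theorem main_ineq2 : ∃ b > (0 : ℝ), ∃ ε > (0 : ℝ), ε ≤ 1 ∧ ∀ p : I, half ≤ p → ∀ m N : ℕ, 1 ≤ m →
    1 ≤ N → ((p : ℝ) - 1 / 2) * (N : ℝ) ^ 2 ≤ 1 →
    b * ((p : ℝ) - 1 / 2) * (1 - Pr p {ω | HCross ω m (16 * m) (-m) (4 * m)}) ≤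
      ((min m N : ℕ) : ℝ) ^ (-ε) * avgArm p m ^ 2 := by
  obtain ⟨c₀, hc₀, hrsw⟩ := rsw
  obtain ⟨C, hC, c, hc, hc8, H2⟩ := two_arm
  obtain ⟨K, hK, HK⟩ := wsum
  refine ⟨c₀ / (8 * C * K), by positivity, c / 4, by positivity, by linarith,
    fun p hp m N hm hN hpN => ?_⟩
  have hm0 : (0 : ℝ) < m := by exact_mod_cast hm
  set R : ℝ := ((min m N : ℕ) : ℝ) with hR
  have hR1 : 1 ≤ R := by
    rw [hR]; exact_mod_cast le_min hm hN
  set ρ : ℝ := R ^ (-(c / 4)) with hρ
  have hρ0 : 0 < ρ := by positivity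
  set g : Set Config := {ω | HCross ω 0 (16 * m) 0 (4 * m)} with hg
  set F : Set Config := {ω | HCross ω m (16 * m) (-m) (4 * m)} with hF
  set sg : Finset Edge := eRect 0 (16 * m) 0 (4 * m) with hsg
  have hgl : LocalOn sg g := localOn_hcross' _ _ _ _
  have hgi : Incr g := incr_hcross' _ _ _ _
  have hFl : LocalOn (eRect m (16 * m) (-m) (4 * m)) F := localOn_hcross' _ _ _ _
  have hFi : Incr F := incr_hcross' _ _ _ _
  have hg0 : c₀ ≤ Pr half g := by
    have := hrsw (4 * m) (by omega)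
    have e : (4 * ((4 * m : ℕ) : ℤ)) = 16 * m := by push_cast; ring
    rw [e] at this
    simpa [hg] using this
  have hhp : (1 / 2 : ℝ) ≤ p := hp
  rcases eq_or_lt_of_le hhp with heq | hlt
  · rw [← heq]
    simp only [sub_self, mul_zero, zero_mul]
    positivity
  -- lower bound for the derivative
  set D : ℝ := c₀ * (1 - Pr p F) with hD
  have hD0 : 0 ≤ D := mul_nonneg hc₀.le (by linarith [Pr_le_one (p := p) (A := F)])
  have hder : ∀ q : I, half ≤ q → q ≤ p →
      D ≤ 8 * C * K * ρ * avgArm p m ^ 2 * ∑ e ∈ sg, pivot q g e := by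
    intro q hq hqp
    have hq2 : (1 / 2 : ℝ) ≤ q := hq
    have hqp' : (q : ℝ) ≤ p := hqp
    have hqN : |(q : ℝ) - 1 / 2| * (N : ℝ) ^ 2 ≤ 1 := by
      rw [abs_of_nonneg (by linarith)]
      refine le_trans ?_ hpN
      gcongr
    set G : ℕ → ℕ → ℝ := fun k l => C * (((min (min k l) N : ℕ) : ℝ) + 1) ^ (-c) *
      (arm q k * arm (σ q) l) with hGdef
    have hG0 : ∀ k l, 0 ≤ G k l := fun k l => by
      have := arm_nonneg (p := q) (r := k)
      have := arm_nonneg (p := σ q) (r := l)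
      simp only [hGdef]
      positivity
    have hGw : ∀ k k' l l' : ℕ, k ≤ k' → l ≤ l' → G k' l' ≤ G k l := by
      intro k k' l l' hk hl
      simp only [hGdef]
      have h1 : (((min (min k' l') N : ℕ) : ℝ) + 1) ^ (-c) ≤
          (((min (min k l) N : ℕ) : ℝ) + 1) ^ (-c) := by
        apply Real.rpow_le_rpow_of_nonpos (by positivity) _ (by linarith)
        have : ((min (min k l) N : ℕ) : ℝ) ≤ ((min (min k' l') N : ℕ) : ℝ) := by
          exact_mod_cast min_le_min_right N (min_le_min hk hl)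
        linarith
      have h2 : arm q k' ≤ arm q k := arm_antitone hk
      have h3 : arm (σ q) l' ≤ arm (σ q) l := arm_antitone hl
      have h4 : arm q k' * arm (σ q) l' ≤ arm q k * arm (σ q) l :=
        mul_le_mul h2 h3 arm_nonneg arm_nonneg
      exact mul_le_mul (mul_le_mul_of_nonneg_left h1 hC.le) h4
        (mul_nonneg arm_nonneg arm_nonneg) (by positivity)
    have h1 := main_aux2 (q := q) hm G hG0 (fun k k' l h => hGw k k' l l h le_rfl)
      (fun k l l' h => hGw k k l l' le_rfl h)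
      (fun u φ k l h1 h2 => H2 q N hqN u φ h1 h2 k l)
    -- the double sum
    set S : ℝ := ∑ k ∈ Finset.range m, arm q k with hS
    have hS0 : 0 ≤ S := Finset.sum_nonneg fun _ _ => arm_nonneg
    have hT := HK c hc (by linarith) q hq m N hm hN
    have hsum : ∑ k ∈ Finset.range m, ∑ l ∈ Finset.range m, G k l ≤ 2 * C * K * ρ * S ^ 2 := by
      have hkl : ∀ k l : ℕ, G k l ≤ C * ((wgt c N k * arm q k) * arm q l) +
          C * (arm q k * (wgt c N l * arm q l)) := by
        intro k l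
        have h3 : arm (σ q) l ≤ arm q l := arm_mono_param l (sigma_le hq)
        have h4 := wgt_min (c := c) (N := N) (k := k) (l := l)
        have h5 := arm_nonneg (p := q) (r := k)
        have h6 := arm_nonneg (p := σ q) (r := l)
        have h7 : arm q k * arm (σ q) l ≤ arm q k * arm q l := mul_le_mul_of_nonneg_left h3 h5
        have h8 := wgt_nonneg (c := c) (N := N) (k := k)
        have h9 := wgt_nonneg (c := c) (N := N) (k := l)
        simp only [hGdef]
        calc C * (((min (min k l) N : ℕ) : ℝ) + 1) ^ (-c) * (arm q k * arm (σ q) l)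
            ≤ C * (wgt c N k + wgt c N l) * (arm q k * arm q l) :=
              mul_le_mul (mul_le_mul_of_nonneg_left h4 hC.le) h7 (mul_nonneg h5 h6)
                (by positivity)
          _ = _ := by ring
      calc ∑ k ∈ Finset.range m, ∑ l ∈ Finset.range m, G k l
          ≤ ∑ k ∈ Finset.range m, ∑ l ∈ Finset.range m,
            (C * ((wgt c N k * arm q k) * arm q l) + C * (arm q k * (wgt c N l * arm q l))) :=
            Finset.sum_le_sum fun k _ => Finset.sum_le_sum fun l _ => hkl k l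
        _ = C * ((∑ k ∈ Finset.range m, wgt c N k * arm q k) * S) +
            C * (S * (∑ l ∈ Finset.range m, wgt c N l * arm q l)) := by
            simp only [Finset.sum_add_distrib, ← Finset.mul_sum, ← Finset.sum_mul]
            rfl
        _ ≤ C * ((K * ρ * S) * S) + C * (S * (K * ρ * S)) := by
            gcongr
        _ = _ := by ring
    have hpiv : 0 ≤ ∑ e ∈ sg, pivot q g e := Finset.sum_nonneg fun e _ => pivot_nonneg hgi e
    have h2 : D ≤ Pr q g * (1 - Pr q F) := by
      refine mul_le_mul (hg0.trans (Pr_mono_param hgl hgi hq)) ?_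
        (by linarith [Pr_le_one (p := p) (A := F)]) Pr_nonneg
      linarith [Pr_mono_param hFl hFi hqp]
    have hSm : S = m * avgArm q m := by
      rw [hS, avgArm]; field_simp
    have hav : avgArm q m ≤ avgArm p m := avgArm_mono hqp m
    have hav0 : 0 ≤ avgArm q m := avgArm_nonneg q m
    have h3 : (m : ℝ) ^ 2 * D ≤ (m : ℝ) ^ 2 *
        (8 * C * K * ρ * avgArm p m ^ 2 * ∑ e ∈ sg, pivot q g e) := by
      calc (m : ℝ) ^ 2 * D ≤ (m : ℝ) ^ 2 * (Pr q g * (1 - Pr q F)) := by gcongr
        _ ≤ 4 * (∑ k ∈ Finset.range m, ∑ l ∈ Finset.range m, G k l) *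
            ∑ e ∈ sg, pivot q g e := h1
        _ ≤ 4 * (2 * C * K * ρ * S ^ 2) * ∑ e ∈ sg, pivot q g e := by gcongr
        _ = (m : ℝ) ^ 2 * (8 * C * K * ρ * avgArm q m ^ 2 * ∑ e ∈ sg, pivot q g e) := by
            rw [hSm]; ring
        _ ≤ _ := by gcongr
    exact le_of_mul_le_mul_left h3 (by positivity)
  by_contra hcon
  push Not at hcon
  -- mean value theorem
  obtain ⟨x, hx, hxd⟩ := exists_hasDerivAt_eq_slope (f := PrR sg g)
    (f' := fun x => if h : x ∈ Set.Icc (0 : ℝ) 1 then ∑ e ∈ sg, pivot (⟨x, h⟩ : I) g e else 0)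
    (a := 1 / 2) (b := (p : ℝ)) hlt
    (fun x hx => by
      have hx' : x ∈ Set.Icc (0 : ℝ) 1 := ⟨by linarith [hx.1], hx.2.trans p.2.2⟩
      exact (hasDerivAt_PrR hgl (⟨x, hx'⟩ : I)).continuousAt.continuousWithinAt)
    (fun x hx => by
      have hx' : x ∈ Set.Icc (0 : ℝ) 1 := ⟨by linarith [hx.1], hx.2.le.trans p.2.2⟩
      simp only [dif_pos hx']
      exact hasDerivAt_PrR hgl (⟨x, hx'⟩ : I))
  have hx' : x ∈ Set.Icc (0 : ℝ) 1 := ⟨by linarith [hx.1], hx.2.le.trans p.2.2⟩
  simp only [dif_pos hx'] at hxd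
  have h1 := hder ⟨x, hx'⟩ (by change (1 / 2 : ℝ) ≤ x; exact hx.1.le)
    (by change x ≤ (p : ℝ); exact hx.2.le)
  rw [hxd] at h1
  have e1 : PrR sg g (p : ℝ) = Pr p g := (Pr_eq_PrR hgl p).symm
  have e2 : PrR sg g (1 / 2) = Pr half g := (Pr_eq_PrR hgl half).symm
  rw [e1, e2] at h1
  have hpos : 0 < (p : ℝ) - 1 / 2 := by linarith
  rw [← mul_div_assoc, le_div_iff₀ hpos] at h1
  have h2 : Pr p g - Pr half g ≤ 1 := by
    linarith [Pr_le_one (p := p) (A := g), Pr_nonneg (p := half) (A := g)]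
  have h3 : 8 * C * K * ρ * avgArm p m ^ 2 * (Pr p g - Pr half g) ≤
      8 * C * K * ρ * avgArm p m ^ 2 * 1 :=
    mul_le_mul_of_nonneg_left h2 (by positivity)
  have h4 : c₀ / (8 * C * K) * ((p : ℝ) - 1 / 2) * (1 - Pr p F) =
      D * ((p : ℝ) - 1 / 2) / (8 * C * K) := by
    rw [hD]; ring
  rw [h4, lt_div_iff₀ (by positivity)] at hcon
  nlinarith

end Pool.Agent.H85.Strict
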