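import Pool.Agent.H85.Strict.GammaWin
import Pool.Agent.H85.Gamma.Main

/-!
# `σ(p) ≥ c (1/2 - p)^{-2 - ε}`
-/

open MeasureTheory ProbabilityTheory unitInterval Filter Topology
open scoped ENNReal

namespace Pool.Agent.H85.Strict

open Pool.Agent.H89.Perc Pool.Agent.H85.Gamma

/-- Choice of the scale. -/
theorem exists_scale2 {ε : ℝ} (hε : 0 < ε) {N : ℕ} (hN : 1 ≤ N) {x c1 : ℝ} (hx : 0 < x)
    (hc1 : 0 < c1)
    (h1 : x * (((5 * 1 + 4 : ℕ) : ℝ) * arm half (5 * 1 + 4) *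
      ((min (5 * 1 + 4) N : ℕ) : ℝ) ^ (-ε)) ≤ c1) :
    ∃ n : ℕ, 1 ≤ n ∧ x * (((5 * n + 4 : ℕ) : ℝ) * arm half (5 * n + 4) *
      ((min (5 * n + 4) N : ℕ) : ℝ) ^ (-ε)) ≤ c1 ∧
      c1 < x * (((5 * (n + 1) + 4 : ℕ) : ℝ) * arm half (5 * (n + 1) + 4) *
        ((min (5 * (n + 1) + 4) N : ℕ) : ℝ) ^ (-ε)) := by
  classical
  obtain ⟨C, hC, hreg⟩ := arm_reg
  have hN0 : (0 : ℝ) < N := by exact_mod_cast hN
  -- the quantity is unbounded
  have hex : ∃ n : ℕ, c1 < x * (((5 * (n + 1) + 4 : ℕ) : ℝ) * arm half (5 * (n + 1) + 4) *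
      ((min (5 * (n + 1) + 4) N : ℕ) : ℝ) ^ (-ε)) := by
    have ha := arm_half_pos 1
    set x' : ℝ := x * (N : ℝ) ^ (-ε) with hx'
    have hx'p : 0 < x' := by positivity
    obtain ⟨M, hM⟩ := exists_nat_gt ((c1 * C / (arm half 1 * x')) ^ 2)
    refine ⟨M, ?_⟩
    set R := 5 * (M + 1) + 4 with hR
    have hR1 : 1 ≤ R := by omega
    have hRp : (0 : ℝ) < R := by exact_mod_cast hR1
    have h2 := hreg 1 R hR1 hR1
    have haR := arm_half_pos R
    have h3 : (R : ℝ) * arm half R ≥ arm half 1 * Real.sqrt R / C := by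
      have h4 : Real.sqrt ((R : ℝ) / ((1 : ℕ) + 1)) ≤ Real.sqrt R := by
        apply Real.sqrt_le_sqrt
        rw [div_le_iff₀ (by norm_num)]
        push_cast
        linarith
      have h5 : arm half 1 ≤ C * Real.sqrt R * arm half R := by
        refine h2.trans ?_
        gcongr
      have h6 : Real.sqrt R * Real.sqrt R = R := Real.mul_self_sqrt hRp.le
      rw [ge_iff_le, div_le_iff₀ (by linarith)]
      calc arm half 1 * Real.sqrt R ≤ (C * Real.sqrt R * arm half R) * Real.sqrt R := by gcongr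
        _ = (Real.sqrt R * Real.sqrt R) * arm half R * C := by ring
        _ = (R : ℝ) * arm half R * C := by rw [h6]
    have h7 : c1 * C / (arm half 1 * x') < Real.sqrt R := by
      apply Real.lt_sqrt_of_sq_lt
      have : (M : ℝ) ≤ R := by exact_mod_cast (by omega : M ≤ R)
      linarith
    rw [div_lt_iff₀ (by positivity)] at h7
    have h8 : (N : ℝ) ^ (-ε) ≤ ((min R N : ℕ) : ℝ) ^ (-ε) := by
      have h9 : (0 : ℝ) < ((min R N : ℕ) : ℝ) := by
        have : 1 ≤ min R N := le_min hR1 hN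
        exact_mod_cast this
      apply Real.rpow_le_rpow_of_nonpos h9 _ (by linarith)
      exact_mod_cast min_le_right _ _
    calc c1 = (c1 * C) / C := by field_simp
      _ < (Real.sqrt R * (arm half 1 * x')) / C := by
          apply div_lt_div_of_pos_right h7; linarith
      _ = (arm half 1 * Real.sqrt R / C) * x' := by ring
      _ ≤ ((R : ℝ) * arm half R) * x' := by gcongr
      _ = x * ((R : ℝ) * arm half R * (N : ℝ) ^ (-ε)) := by rw [hx']; ring
      _ ≤ x * ((R : ℝ) * arm half R * ((min R N : ℕ) : ℝ) ^ (-ε)) := by gcongr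
  set n := Nat.find hex with hn
  have hn1 := Nat.find_spec hex
  have hmin : ∀ m < n, ¬ c1 < x * (((5 * (m + 1) + 4 : ℕ) : ℝ) * arm half (5 * (m + 1) + 4) *
      ((min (5 * (m + 1) + 4) N : ℕ) : ℝ) ^ (-ε)) :=
    fun m hm => Nat.find_min hex hm
  have hnpos : 1 ≤ n := by
    by_contra hc
    have h0 : n = 0 := by omega
    rw [← hn, h0] at hn1
    exact absurd hn1 (not_lt.2 h1)
  refine ⟨n, hnpos, ?_, hn1⟩
  have := hmin (n - 1) (by omega)
  rw [show n - 1 + 1 = n by omega] at this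
  exact not_lt.1 this

/-- The main estimate. -/
theorem sigma_strict : ∃ c : ℝ, 0 < c ∧ ∃ ε > (0 : ℝ), ∀ p : I, (p : ℝ) < 1 / 2 →
    ENNReal.ofReal (c * (1 / 2 - (p : ℝ)) ^ (-(2 + ε))) ≤ sigma p := by
  obtain ⟨c1, hc1, ε, hε, hε8, hwin⟩ := window2
  obtain ⟨c2, hc2, htr⟩ := trunc_lower
  -- lower bound for the truncation
  set κ : ℝ := min c1 (1 / 2) with hκ
  have hκ0 : 0 < κ := lt_min hc1 (by norm_num)
  have hκ1 : κ ≤ 1 / 2 := min_le_right _ _
  set A : ℝ := (c1 / 14 * κ ^ ε) with hA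
  have hA0 : 0 < A := by positivity
  set c : ℝ := min (c2 / 4 * A ^ 2) ((c1 / 9) ^ 3) with hc
  have hcp : 0 < c := lt_min (by positivity) (by positivity)
  refine ⟨c, hcp, ε, hε, ?_⟩
  intro p hp
  set x : ℝ := 1 / 2 - (p : ℝ) with hx
  have hxp : 0 < x := by rw [hx]; linarith
  have hx1 : x ≤ 1 / 2 := by rw [hx]; linarith [p.2.1]
  set z : ℝ := x ^ (-(1 / 2) : ℝ) with hz
  have hz1 : 1 ≤ z := by
    rw [hz]
    exact Real.one_le_rpow_of_pos_of_le_one_of_nonpos hxp (by linarith) (by norm_num)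
  have hz2 : x * z ^ 2 = 1 := by
    rw [hz, ← Real.rpow_natCast, ← Real.rpow_mul hxp.le]
    have : x * x ^ (-(1 / 2 : ℝ) * ((2 : ℕ) : ℝ)) = x ^ (1 : ℝ) * x ^ (-(1 : ℝ)) := by
      rw [Real.rpow_one]; norm_num
    rw [this, ← Real.rpow_add hxp]
    norm_num
  set N : ℕ := ⌊z⌋₊ with hN
  have hN1 : 1 ≤ N := by
    rw [hN]; exact Nat.le_floor (by exact_mod_cast hz1)
  have hNz : (N : ℝ) ≤ z := Nat.floor_le (by linarith)
  have hNz2 : z / 2 ≤ N := by
    have h1 : z < N + 1 := Nat.lt_floor_add_one z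
    have h2 : (1 : ℝ) ≤ N := by exact_mod_cast hN1
    linarith
  have hxN : x * (N : ℝ) ^ 2 ≤ 1 := by
    rw [← hz2]; gcongr
  have hmin1 : ∀ k : ℕ, 1 ≤ k → (1 : ℝ) ≤ ((min k N : ℕ) : ℝ) := fun k hk => by
    exact_mod_cast le_min hk hN1
  have hminle : ∀ k : ℕ, 1 ≤ k → ((min k N : ℕ) : ℝ) ^ (-ε) ≤ 1 := fun k hk =>
    Real.rpow_le_one_of_one_le_of_nonpos (hmin1 k hk) (by linarith)
  by_cases h1 : x * (((5 * 1 + 4 : ℕ) : ℝ) * arm half (5 * 1 + 4) *
      ((min (5 * 1 + 4) N : ℕ) : ℝ) ^ (-ε)) ≤ c1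
  · obtain ⟨n, hn, h2, h3⟩ := exists_scale2 hε hN1 hxp hc1 h1
    set R := 5 * n + 4 with hR
    set R2 := 5 * (n + 1) + 4 with hR2
    have hnp : (1 : ℝ) ≤ n := by exact_mod_cast hn
    have hRp : (0 : ℝ) < R := by positivity
    have haR := arm_half_pos R
    have haR2 := arm_half_pos R2
    have h4 : arm half R / 2 ≤ arm p R :=
      hwin R N (by omega) hN1 x hxp hxN h2 p hp.le le_rfl
    -- the truncated radius is large
    have hmR2 := hmin1 R2 (by omega)
    have hlow : κ * z ≤ ((min R2 N : ℕ) : ℝ) := by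
      rw [Nat.cast_min]
      refine le_min ?_ ?_
      · have h5 : c1 < x * (R2 : ℝ) := by
          refine h3.trans_le ?_
          refine mul_le_mul_of_nonneg_left ?_ hxp.le
          calc (R2 : ℝ) * arm half R2 * ((min R2 N : ℕ) : ℝ) ^ (-ε) ≤ R2 * 1 * 1 := by
                gcongr
                · exact arm_le_one
                · exact hminle R2 (by omega)
            _ = R2 := by ring
        have h6 : x * z ≤ 1 := by
          rw [← hz2]
          have : z ≤ z ^ 2 := by nlinarith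
          gcongr
        -- `κ z x ≤ κ ≤ c1 < x R2`
        have h7 : x * (κ * z) ≤ x * R2 := by
          calc x * (κ * z) = κ * (x * z) := by ring
            _ ≤ κ * 1 := by gcongr
            _ ≤ c1 := by rw [mul_one]; exact min_le_left _ _
            _ ≤ x * R2 := h5.le
        exact le_of_mul_le_mul_left h7 hxp
      · calc κ * z ≤ 1 / 2 * z := by gcongr
          _ = z / 2 := by ring
          _ ≤ N := hNz2
    -- lower bound for `n π(R)`
    have h5 : A * x ^ (-(1 + ε / 2)) ≤ n * arm half R := by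
      have h6 : arm half R2 ≤ arm half R := arm_antitone (by omega)
      have h7 : ((R2 : ℕ) : ℝ) ≤ 14 * n := by rw [hR2]; push_cast; linarith
      have h8 : c1 * ((min R2 N : ℕ) : ℝ) ^ ε ≤ x * (14 * (n * arm half R)) := by
        have h9 : c1 ≤ x * ((R2 : ℝ) * arm half R2) * ((min R2 N : ℕ) : ℝ) ^ (-ε) := by
          calc c1 ≤ x * ((R2 : ℝ) * arm half R2 * ((min R2 N : ℕ) : ℝ) ^ (-ε)) := h3.le
            _ = _ := by ring
        have h10 : ((min R2 N : ℕ) : ℝ) ^ (-ε) * ((min R2 N : ℕ) : ℝ) ^ ε = 1 := by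
          rw [← Real.rpow_add (by linarith)]
          simp
        calc c1 * ((min R2 N : ℕ) : ℝ) ^ ε
            ≤ x * ((R2 : ℝ) * arm half R2) * ((min R2 N : ℕ) : ℝ) ^ (-ε) *
              ((min R2 N : ℕ) : ℝ) ^ ε := by gcongr
          _ = x * ((R2 : ℝ) * arm half R2) := by rw [mul_assoc, h10, mul_one]
          _ ≤ x * ((14 * n) * arm half R) := by gcongr
          _ = _ := by ring
      have h11 : (κ * z) ^ ε ≤ ((min R2 N : ℕ) : ℝ) ^ ε :=
        Real.rpow_le_rpow (by positivity) hlow hε.le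
      have h12 : (κ * z) ^ ε = κ ^ ε * x ^ (-(ε / 2)) := by
        rw [Real.mul_rpow hκ0.le (by linarith), hz, ← Real.rpow_mul hxp.le]
        congr 2
        ring
      have h13 : c1 * (κ ^ ε * x ^ (-(ε / 2))) ≤ x * (14 * (n * arm half R)) := by
        rw [← h12]
        refine le_trans ?_ h8
        gcongr
      have h14 : x ^ (-(1 + ε / 2)) = x ^ (-(ε / 2)) / x := by
        rw [show -(1 + ε / 2) = -(ε / 2) - 1 by ring, Real.rpow_sub hxp, Real.rpow_one]
      rw [h14, hA, ← mul_div_assoc, div_le_iff₀ hxp]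
      linarith
    have h9 := htr n hn p hp.le
    refine le_trans (ENNReal.ofReal_le_ofReal ?_) (trunc_le_sigma p (bx (2 * n)) R)
    refine le_trans ?_ h9
    have h10 : (A * x ^ (-(1 + ε / 2))) ^ 2 ≤ (n * arm half R) ^ 2 := by gcongr
    have h11 : x ^ (-(2 + ε)) = (x ^ (-(1 + ε / 2))) ^ 2 := by
      rw [← Real.rpow_natCast, ← Real.rpow_mul hxp.le]
      congr 1
      push_cast
      ring
    calc c * x ^ (-(2 + ε)) ≤ (c2 / 4 * A ^ 2) * x ^ (-(2 + ε)) := by
          gcongr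
          exact min_le_left _ _
      _ = c2 / 4 * (A * x ^ (-(1 + ε / 2))) ^ 2 := by
          rw [h11]; ring
      _ ≤ c2 / 4 * (n * arm half R) ^ 2 := by gcongr
      _ = c2 * (n : ℝ) ^ 2 * (arm half R / 2) ^ 2 := by ring
      _ ≤ c2 * (n : ℝ) ^ 2 * arm p R ^ 2 := by gcongr
  · push Not at h1
    refine le_trans ?_ (one_le_sigma p)
    rw [← ENNReal.ofReal_one]
    apply ENNReal.ofReal_le_ofReal
    have h2 : c1 / 9 < x := by
      have h3 := arm_le_one (p := half) (r := 5 * 1 + 4)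
      have h4 := arm_nonneg (p := half) (r := 5 * 1 + 4)
      have h5 := hminle (5 * 1 + 4) (by omega)
      have h6 : (0 : ℝ) ≤ ((min (5 * 1 + 4) N : ℕ) : ℝ) ^ (-ε) := by positivity
      have h7 : c1 < x * 9 := by
        calc c1 < x * (((5 * 1 + 4 : ℕ) : ℝ) * arm half (5 * 1 + 4) *
              ((min (5 * 1 + 4) N : ℕ) : ℝ) ^ (-ε)) := h1
          _ ≤ x * (((5 * 1 + 4 : ℕ) : ℝ) * 1 * 1) := by gcongr
          _ = x * 9 := by push_cast; ring
      linarith
    have h3 : x ^ (-(2 + ε)) ≤ x ^ (-(3 : ℝ)) :=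
      Real.rpow_le_rpow_of_exponent_ge hxp (by linarith) (by linarith)
    have h4 : x ^ (-(3 : ℝ)) = (x ^ 3)⁻¹ := by
      rw [Real.rpow_neg hxp.le]
      norm_cast
    calc c * x ^ (-(2 + ε)) ≤ (c1 / 9) ^ 3 * (x ^ 3)⁻¹ := by
          rw [← h4]
          exact mul_le_mul (min_le_right _ _) h3 (by positivity) (by positivity)
      _ ≤ x ^ 3 * (x ^ 3)⁻¹ := by gcongr
      _ = 1 := by field_simp

end Pool.Agent.H85.Strict
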