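import Pool.Agent.H85.Strict.Win
import Pool.Agent.H85.Gamma.Window

/-!
# The derivative of the one-arm probability: improved key inequality
-/

open MeasureTheory ProbabilityTheory unitInterval

namespace Pool.Agent.H85.Strict

open Pool.Agent.H89.Perc Pool.Agent.H85.Gamma
open Pool.Agent.Perc (Ex ind ind_of ind_of_not ind_congr)

/-- The key inequality for the one-arm event, before the use of the Harris inequality. -/
theorem arm_key2 (p : I) (m : ℕ) :
    (p : ℝ) * (1 - p) * (∑ e ∈ eB m, pivot p (Arm 0 m) e) ^ 2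
      ≤ arm p m * ∑ e ∈ eB m, Pr p (PArm m e ∩ QArm m e) := by
  have hupd : ∀ (S : Finset Edge) (e : Edge), ofS (insert e S) = Function.update (ofS S) e true :=
    fun S e => (update_ofS_true S e).symm
  have hoff : ∀ (S : Finset Edge) (e : Edge), e ∉ S → ofS S e = false := by
    intro S e h; simp [ofS, h]
  have key := Pool.Agent.Perc.key_inequality (p := (p : ℝ)) (F := eB m) (F' := eB m) p.2.1 p.2.2
    (Finset.Subset.refl _) (fun e S => ofS S ∈ PArm m e) (fun e S => ofS S ∈ QArm m e)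
    (fun e _ S T hST _ h => incr_PArm m e _ _ (ofS_mono hST) h)
    (fun e _ S T hST _ h => by
      by_contra hc
      exact incr_QArm_compl m e _ _ (ofS_mono hST) hc h)
    (fun e _ S _ _ h => by
      rw [hupd] at h
      obtain ⟨u, hu, hc⟩ := h
      refine ⟨u, hu, ?_⟩
      rwa [Function.update_idem] at hc)
    (fun e _ S _ _ h => by
      rw [hupd]
      obtain ⟨F, hF, G, hG, hc⟩ := h
      refine ⟨F, hF, G, hG, ?_⟩
      rwa [Function.update_idem])
    (fun e _ e' _ hne S _ h1 h2 h3 _ => by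
      rw [hupd] at h3
      exact PArm_split h3 (hoff S e h1) (hoff S e' h2) hne)
    (fun e _ e' _ hne S _ _ h2 h3 _ => by
      rw [hupd, hupd]
      exact QArm_split h3 (hoff S e' h2) hne)
    (ind (fun S => ofS S ∈ Arm 0 m))
    (fun e _ S _ h1 h2 => by
      refine ind_congr ⟨fun h => ?_, fun h => incr_arm 0 m _ _ (ofS_mono (Finset.subset_insert e S)) h⟩
      by_contra hc
      rw [hupd] at h
      exact h2 (arm_pivotal hc h (hoff S e h1)))
  have e1 : ∑ e ∈ eB m, Ex (p : ℝ) (eB m)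
      (Pool.Agent.Perc.DD e (ind (fun S => ofS S ∈ Arm 0 m)))
      = ∑ e ∈ eB m, pivot p (Arm 0 m) e :=
    Finset.sum_congr rfl fun e he => (pivot_eq_Ex (Gamma.localOn_arm0 m) he).symm
  have e2 : Ex (p : ℝ) (eB m) (fun S => ind (fun S => ofS S ∈ Arm 0 m) S ^ 2) = arm p m := by
    rw [arm, Pr_eq_Ex (Gamma.localOn_arm0 m)]
    exact Pool.Agent.Perc.Ex_congr fun S _ => Pool.Agent.Perc.ind_sq _ _
  rw [e1, e2] at key
  refine key.trans (mul_le_mul_of_nonneg_left (Finset.sum_le_sum fun e _ => ?_) arm_nonneg)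
  rw [Pr_eq_Ex ((localOn_PArm m e).inter (localOn_QArm m e))]
  exact le_of_eq rfl

/-- Radius of the open arms. -/
def sR (e : Edge) : ℕ := nrm (src e) / 2 - 2

/-- Radius of the dual arm. -/
def rR (e : Edge) : ℕ := min ((src e).2.natAbs - 1) (sR e)

theorem arm_subset_arm' (v : Vert) {r r' : ℕ} (h : r ≤ r') : Arm v r' ⊆ Arm v r := by
  rintro ω ⟨u, hu, hc⟩
  refine hc.mem_arm ?_
  obtain ⟨hb, hs⟩ := hu
  simp only [mem_ball] at hb hs
  rcases abs_cases (u.1 - v.1) with h3 | h3 <;> rcases abs_cases (u.2 - v.2) with h4 | h4 <;> omega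

theorem PQ_le : ∃ C > (0 : ℝ), ∃ c > (0 : ℝ), c ≤ 1 / 8 ∧ ∀ (p : I) (N m : ℕ),
    |(p : ℝ) - 1 / 2| * (N : ℝ) ^ 2 ≤ 1 → ∀ e : Edge, Pr p (PArm m e ∩ QArm m e) ≤
      C * (((min (rR e) N : ℕ) : ℝ) + 1) ^ (-c) * (arm p (sR e) ^ 2 * arm (σ p) (rR e)) := by
  classical
  obtain ⟨C, hC, c, hc, hc8, H⟩ := two_arm
  set C' := max C 1 with hC'
  have hC'1 : 1 ≤ C' := le_max_right _ _
  refine ⟨4 * C', by positivity, c, hc, hc8, fun p N m hpN e => ?_⟩
  set s := sR e with hs
  set r := rR e with hr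
  have hrs : r ≤ s := min_le_right _ _
  have hry : r ≤ (src e).2.natAbs - 1 := min_le_left _ _
  have hw0 : 0 ≤ (((min r N : ℕ) : ℝ) + 1) ^ (-c) := by positivity
  -- one pair of endpoints
  have hpair : ∀ u F : Vert, |F.1 - u.1| ≤ 1 → |F.2 - u.2| ≤ 1 → nrm (src e) ≤ nrm u + 1 →
      Pr p ({ω | Conn ω (ball 0 m) 0 u} ∩ {ω | dual ω ∈ Arm F r}) ≤
        C' * (((min r N : ℕ) : ℝ) + 1) ^ (-c) * (arm p s ^ 2 * arm (σ p) r) := by
    intro u F h1 h2 h3
    rcases Nat.eq_zero_or_pos s with h0 | hspos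
    · have hr0 : r = 0 := by omega
      rw [h0, hr0, arm_zero, arm_zero]
      have : (((min 0 N : ℕ) : ℝ) + 1) ^ (-c) = 1 := by simp
      rw [this]
      have := Pr_le_one (p := p) (A := {ω | Conn ω (ball 0 m) 0 u} ∩ {ω | dual ω ∈ Arm F 0})
      linarith
    · have hnu : 2 * s + 2 < nrm u := by
        have : s = nrm (src e) / 2 - 2 := hs
        omega
      have hsub : {ω : Config | Conn ω (ball 0 m) 0 u} ∩ {ω | dual ω ∈ Arm F r} ⊆
          Arm 0 s ∩ (Arm u s ∩ {ω | dual ω ∈ Arm F r}) := by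
        rintro ω ⟨hc1, hc2⟩
        have hc' : Conn ω (ball 0 m) 0 u := hc1
        unfold nrm at hnu
        refine ⟨hc'.mem_arm ?_, hc'.symm.mem_arm ?_, hc2⟩
        · simp only [Prod.fst_zero, Prod.snd_zero, sub_zero, ← Int.natCast_natAbs]
          omega
        · simp only [Prod.fst_zero, Prod.snd_zero, zero_sub, abs_neg, ← Int.natCast_natAbs]
          omega
      have l1 := localOn_arm 0 s
      have l2 := localOn_arm u s
      have l3 := (localOn_arm F r).dual'
      have hdis : Disjoint (eRect ((0 : Vert).1 - s) ((0 : Vert).1 + s) ((0 : Vert).2 - s)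
          ((0 : Vert).2 + s)) (eRect (u.1 - s) (u.1 + s) (u.2 - s) (u.2 + s) ∪
            (eRect (F.1 - r) (F.1 + r) (F.2 - r) (F.2 + r)).image crossed) := by
        rw [Finset.disjoint_left]
        intro e' h4 h5
        rw [mem_eRect'] at h4
        simp only [Prod.fst_zero, Prod.snd_zero] at h4
        rw [abs_le] at h1 h2
        unfold nrm at hnu
        rcases Finset.mem_union.1 h5 with h5 | h5
        · rw [mem_eRect'] at h5
          omega
        · have h6 := crossed_image h5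
          rw [mem_eRect'] at h6
          omega
      calc Pr p ({ω | Conn ω (ball 0 m) 0 u} ∩ {ω | dual ω ∈ Arm F r})
          ≤ Pr p (Arm 0 s ∩ (Arm u s ∩ {ω | dual ω ∈ Arm F r})) := Pr_mono hsub
        _ = arm p s * Pr p (Arm u s ∩ {ω | dual ω ∈ Arm F r}) :=
            Pr_inter_of_disjoint l1 (l2.inter' l3) hdis
        _ ≤ arm p s * (C * (((min (min s r) N : ℕ) : ℝ) + 1) ^ (-c) * (arm p s * arm (σ p) r)) :=
            mul_le_mul_of_nonneg_left (H p N hpN u F h1 h2 s r) arm_nonneg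
        _ = C * ((((min r N : ℕ) : ℝ) + 1) ^ (-c) * (arm p s ^ 2 * arm (σ p) r)) := by
            rw [min_eq_right hrs]; ring
        _ ≤ C' * ((((min r N : ℕ) : ℝ) + 1) ^ (-c) * (arm p s ^ 2 * arm (σ p) r)) :=
            mul_le_mul_of_nonneg_right (le_max_left _ _)
              (mul_nonneg hw0 (mul_nonneg (sq_nonneg _) arm_nonneg))
        _ = _ := by ring
  have hsub : PArm m e ∩ QArm m e ⊆
      (({ω | Conn ω (ball 0 m) 0 (src e)} ∩ {ω | dual ω ∈ Arm (src e) r}) ∪
        ({ω | Conn ω (ball 0 m) 0 (src e)} ∩ {ω | dual ω ∈ Arm (lowFace e) r})) ∪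
      (({ω | Conn ω (ball 0 m) 0 (tgt e)} ∩ {ω | dual ω ∈ Arm (src e) r}) ∪
        ({ω | Conn ω (ball 0 m) 0 (tgt e)} ∩ {ω | dual ω ∈ Arm (lowFace e) r})) := by
    rintro ω ⟨⟨u, hu, hc⟩, F, hF, G, hG, hd⟩
    have hc' : Conn ω (ball 0 m) 0 u := hc.mono le_rfl fun f hf => by
      by_cases hfe : f = e
      · subst hfe; simp at hf
      · rwa [Function.update_of_ne hfe] at hf
    have hd' : Conn (dual ω) (rect (-m) (m - 1) (-m) (m - 1)) F G := hd.mono le_rfl fun f hf => by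
      simp only [dual, Bool.not_eq_true'] at hf ⊢
      by_cases hfe : crossed f = e
      · rw [hfe] at hf; simp at hf
      · rwa [Function.update_of_ne hfe] at hf
    have hF2 : F.2 = (src e).2 ∨ F.2 = (src e).2 - 1 := by
      rcases hF with hF | hF
      · subst hF; exact Or.inl rfl
      · subst hF
        obtain ⟨x, y, b⟩ := e
        cases b <;> simp [lowFace, src]
    have harm : dual ω ∈ Arm F r := by
      refine hd'.mem_arm (Or.inr ?_)
      rw [← Int.natCast_natAbs]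
      omega
    rcases hu with hu | hu <;> rcases hF with hF | hF <;> subst hu hF
    · exact Or.inl (Or.inl ⟨hc', harm⟩)
    · exact Or.inl (Or.inr ⟨hc', harm⟩)
    · exact Or.inr (Or.inl ⟨hc', harm⟩)
    · exact Or.inr (Or.inr ⟨hc', harm⟩)
  have hlow1 : |(lowFace e).1 - (src e).1| ≤ 1 ∧ |(lowFace e).2 - (src e).2| ≤ 1 := by
    obtain ⟨x, y, b⟩ := e
    cases b <;> simp [lowFace, src]
  have hlow2 : |(lowFace e).1 - (tgt e).1| ≤ 1 ∧ |(lowFace e).2 - (tgt e).2| ≤ 1 := by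
    obtain ⟨x, y, b⟩ := e
    cases b <;> simp [lowFace, tgt]
  have hst : |(src e).1 - (tgt e).1| ≤ 1 ∧ |(src e).2 - (tgt e).2| ≤ 1 := by
    obtain ⟨x, y, b⟩ := e
    cases b <;> simp [src, tgt]
  have g1 := hpair (src e) (src e) (by simp) (by simp) (by omega)
  have g2 := hpair (src e) (lowFace e) hlow1.1 hlow1.2 (by omega)
  have g3 := hpair (tgt e) (src e) hst.1 hst.2 (nrm_tgt e)
  have g4 := hpair (tgt e) (lowFace e) hlow2.1 hlow2.2 (nrm_tgt e)
  have u0 := (Pr_mono (p := p) hsub).trans Pr_union_le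
  have u1 := Pr_union_le (p := p)
    (A := {ω | Conn ω (ball 0 m) 0 (src e)} ∩ {ω | dual ω ∈ Arm (src e) r})
    (B := {ω | Conn ω (ball 0 m) 0 (src e)} ∩ {ω | dual ω ∈ Arm (lowFace e) r})
  have u2 := Pr_union_le (p := p)
    (A := {ω | Conn ω (ball 0 m) 0 (tgt e)} ∩ {ω | dual ω ∈ Arm (src e) r})
    (B := {ω | Conn ω (ball 0 m) 0 (tgt e)} ∩ {ω | dual ω ∈ Arm (lowFace e) r})
  linarith

end Pool.Agent.H85.Strict
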