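import Pool.Agent.H85.Strict.GammaKI
import Pool.Agent.H85.Strict.BetaMain

/-!
# Improved bound for the derivative of the one-arm probability
-/

open MeasureTheory ProbabilityTheory unitInterval

namespace Pool.Agent.H85.Strict

open Pool.Agent.H89.Perc Pool.Agent.H85.Gamma

theorem sum_wt_wgt {c : ℝ} (hc : 0 < c) (hc8 : c ≤ 1 / 8) {m N : ℕ} (hm : 1 ≤ m) (hN : 1 ≤ N) :
    ∑ k ∈ Finset.range (m + 1), wt k * wgt c N k ≤
      8 * ((m : ℝ) + 1) ^ (1 / 4 : ℝ) * ((min m N : ℕ) : ℝ) ^ (-(c / 2)) := by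
  set R : ℝ := ((min m N : ℕ) : ℝ) with hR
  have hR1 : 1 ≤ R := by
    rw [hR]; exact_mod_cast le_min hm hN
  set t : ℕ := ⌊R ^ (1 / 2 : ℝ)⌋₊ with ht
  have hs1 : 1 ≤ R ^ (1 / 2 : ℝ) := Real.one_le_rpow hR1 (by norm_num)
  have htR : (t : ℝ) ≤ R ^ (1 / 2 : ℝ) := Nat.floor_le (by linarith)
  have htR' : R ^ (1 / 2 : ℝ) < t + 1 := Nat.lt_floor_add_one _
  have hsR : R ^ (1 / 2 : ℝ) ≤ R := by
    calc R ^ (1 / 2 : ℝ) ≤ R ^ (1 : ℝ) := Real.rpow_le_rpow_of_exponent_le hR1 (by norm_num)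
      _ = R := Real.rpow_one R
  -- split the sum at `t`
  have hterm : ∀ k ∈ Finset.range (m + 1), wt k * wgt c N k ≤
      (if k < t then wt k else 0) + R ^ (-(c / 2)) * wt k := by
    intro k _
    have hw := (wt_pos k).le
    have hg := wgt_nonneg (c := c) (N := N) (k := k)
    by_cases hk : k < t
    · rw [if_pos hk]
      have h1 := wgt_le_one hc.le (N := N) (k := k)
      have h2 : 0 ≤ R ^ (-(c / 2)) * wt k := by positivity
      nlinarith
    · rw [if_neg hk, zero_add, mul_comm]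
      refine mul_le_mul_of_nonneg_right ?_ hw
      push Not at hk
      have h1 : R ^ (1 / 2 : ℝ) ≤ ((min k N : ℕ) : ℝ) + 1 := by
        have h2 : (t : ℝ) ≤ k := by exact_mod_cast hk
        have h3 : R ≤ N := by rw [hR]; exact_mod_cast min_le_right _ _
        rw [Nat.cast_min, ← sub_le_iff_le_add]
        exact le_min (by linarith) (by linarith)
      unfold wgt
      calc (((min k N : ℕ) : ℝ) + 1) ^ (-c) ≤ (R ^ (1 / 2 : ℝ)) ^ (-c) :=
            Real.rpow_le_rpow_of_nonpos (by linarith) h1 (by linarith)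
        _ = R ^ (-(c / 2)) := by
            rw [← Real.rpow_mul (by linarith)]
            congr 1
            ring
  have h1 : ∑ k ∈ Finset.range (m + 1), (if k < t then wt k else 0) ≤
      4 * (R ^ (1 / 2 : ℝ)) ^ (1 / 4 : ℝ) := by
    rw [← Finset.sum_filter]
    rcases Nat.eq_zero_or_pos t with h0 | htp
    · rw [h0]
      simp only [Nat.not_lt_zero, Finset.filter_false, Finset.sum_empty]
      positivity
    · have hsub : (Finset.range (m + 1)).filter (fun k => k < t) ⊆ Finset.range (t - 1 + 1) := by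
        intro k hk
        rw [Finset.mem_filter] at hk
        rw [Finset.mem_range]
        omega
      refine (Finset.sum_le_sum_of_subset_of_nonneg hsub fun k _ _ => (wt_pos k).le).trans ?_
      refine (sum_wt (t - 1)).trans ?_
      have : ((t - 1 : ℕ) : ℝ) + 1 = t := by
        rw [Nat.cast_sub (by omega)]; simp
      rw [this]
      gcongr
  have h2 : (R ^ (1 / 2 : ℝ)) ^ (1 / 4 : ℝ) ≤ ((m : ℝ) + 1) ^ (1 / 4 : ℝ) * R ^ (-(c / 2)) := by
    have h3 : R ≤ (m : ℝ) + 1 := by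
      have : R ≤ m := by rw [hR]; exact_mod_cast min_le_left _ _
      linarith
    calc (R ^ (1 / 2 : ℝ)) ^ (1 / 4 : ℝ) = R ^ (1 / 4 : ℝ) * R ^ (-(1 / 8) : ℝ) := by
          rw [← Real.rpow_mul (by linarith), ← Real.rpow_add (by linarith)]
          norm_num
      _ ≤ ((m : ℝ) + 1) ^ (1 / 4 : ℝ) * R ^ (-(c / 2)) := by
          refine mul_le_mul ?_ ?_ (by positivity) (by positivity)
          · exact Real.rpow_le_rpow (by linarith) h3 (by norm_num)
          · exact Real.rpow_le_rpow_of_exponent_le hR1 (by linarith)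
  have h3 := sum_wt m
  calc ∑ k ∈ Finset.range (m + 1), wt k * wgt c N k
      ≤ ∑ k ∈ Finset.range (m + 1), ((if k < t then wt k else 0) + R ^ (-(c / 2)) * wt k) :=
        Finset.sum_le_sum hterm
    _ = ∑ k ∈ Finset.range (m + 1), (if k < t then wt k else 0) +
        R ^ (-(c / 2)) * ∑ k ∈ Finset.range (m + 1), wt k := by
        rw [Finset.sum_add_distrib, Finset.mul_sum]
    _ ≤ 4 * (R ^ (1 / 2 : ℝ)) ^ (1 / 4 : ℝ) +
        R ^ (-(c / 2)) * (4 * ((m : ℝ) + 1) ^ (1 / 4 : ℝ)) := by gcongr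
    _ ≤ 4 * (((m : ℝ) + 1) ^ (1 / 4 : ℝ) * R ^ (-(c / 2))) +
        R ^ (-(c / 2)) * (4 * ((m : ℝ) + 1) ^ (1 / 4 : ℝ)) := by gcongr
    _ = _ := by ring

theorem sum_int_le (m : ℕ) (f : ℕ → ℝ) (hf : ∀ k, 0 ≤ f k) :
    ∑ x ∈ Finset.Icc (-(m : ℤ)) m, f x.natAbs ≤ 2 * ∑ k ∈ Finset.range (m + 1), f k := by
  have hsub : Finset.Icc (-(m : ℤ)) m ⊆ (Finset.range (m + 1)).image (fun k : ℕ => (k : ℤ)) ∪
      (Finset.range (m + 1)).image (fun k : ℕ => -(k : ℤ)) := by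
    intro x hx
    rw [Finset.mem_Icc] at hx
    rw [Finset.mem_union, Finset.mem_image, Finset.mem_image]
    by_cases h : 0 ≤ x
    · left; exact ⟨x.natAbs, by rw [Finset.mem_range]; omega, by omega⟩
    · right; exact ⟨x.natAbs, by rw [Finset.mem_range]; omega, by omega⟩
  calc ∑ x ∈ Finset.Icc (-(m : ℤ)) m, f x.natAbs
      ≤ ∑ x ∈ (Finset.range (m + 1)).image (fun k : ℕ => (k : ℤ)) ∪
        (Finset.range (m + 1)).image (fun k : ℕ => -(k : ℤ)), f x.natAbs :=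
        Finset.sum_le_sum_of_subset_of_nonneg hsub fun _ _ _ => hf _
    _ ≤ ∑ x ∈ (Finset.range (m + 1)).image (fun k : ℕ => (k : ℤ)), f x.natAbs +
        ∑ x ∈ (Finset.range (m + 1)).image (fun k : ℕ => -(k : ℤ)), f x.natAbs := by
        have := Finset.sum_union_inter (s₁ := (Finset.range (m + 1)).image (fun k : ℕ => (k : ℤ)))
          (s₂ := (Finset.range (m + 1)).image (fun k : ℕ => -(k : ℤ)))
          (f := fun x : ℤ => f x.natAbs)
        have h2 : 0 ≤ ∑ x ∈ (Finset.range (m + 1)).image (fun k : ℕ => (k : ℤ)) ∩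
          (Finset.range (m + 1)).image (fun k : ℕ => -(k : ℤ)), f x.natAbs :=
          Finset.sum_nonneg fun _ _ => hf _
        linarith
    _ = 2 * ∑ k ∈ Finset.range (m + 1), f k := by
        rw [Finset.sum_image (by intro a _ b _ h; simpa using h),
          Finset.sum_image (by intro a _ b _ h; simpa using h)]
        simp only [Int.natAbs_natCast, Int.natAbs_neg]
        ring

/-- Pointwise bound. -/
theorem term_bound2 {C : ℝ} (hC : 1 ≤ C) (hreg : ∀ k R : ℕ, 1 ≤ R → k ≤ R →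
    arm half k ≤ C * Real.sqrt (R / (k + 1)) * arm half R) {m : ℕ} (hm : 1 ≤ m) {X Y s r : ℕ}
    (hX : X ≤ m) (hY : Y ≤ m) (hs : s = max X Y / 2 - 2) (hr : r = min (Y - 1) s) :
    arm half s ^ 2 * arm half r
      ≤ 24 * C ^ 3 * (m * Real.sqrt m) * arm half m ^ 3 * (wt X * wt Y) := by
  set d := max X Y with hd
  have hmp : (0 : ℝ) < m := by exact_mod_cast hm
  have ha := arm_nonneg (p := half) (r := m)
  have h1 := hreg s m hm (by omega)
  have h2 := hreg r m hm (by omega)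
  have hd1 : ((d : ℝ) + 1) / 8 ≤ (s : ℝ) + 1 := by
    have : d + 1 ≤ 8 * (s + 1) := by omega
    have h' : ((d : ℝ) + 1) ≤ 8 * ((s : ℝ) + 1) := by exact_mod_cast this
    linarith
  have hY1 : ((Y : ℝ) + 1) / 8 ≤ (r : ℝ) + 1 := by
    have : Y + 1 ≤ 8 * (r + 1) := by omega
    have h' : ((Y : ℝ) + 1) ≤ 8 * ((r : ℝ) + 1) := by exact_mod_cast this
    linarith
  have e1 : arm half s ^ 2 ≤ C ^ 2 * (8 * m / (d + 1)) * arm half m ^ 2 := by
    have h3 : arm half s ≤ C * Real.sqrt (8 * m / (d + 1)) * arm half m := by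
      have h0 : (m : ℝ) / ((s : ℝ) + 1) ≤ 8 * m / (d + 1) := by
        rw [div_le_div_iff₀ (by positivity) (by positivity)]
        nlinarith
      exact h1.trans (mul_le_mul_of_nonneg_right (mul_le_mul_of_nonneg_left
        (Real.sqrt_le_sqrt h0) (by linarith)) ha)
    calc arm half s ^ 2 ≤ (C * Real.sqrt (8 * m / (d + 1)) * arm half m) ^ 2 := by
          gcongr
          exact arm_nonneg
      _ = C ^ 2 * Real.sqrt (8 * m / (d + 1)) ^ 2 * arm half m ^ 2 := by ring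
      _ = _ := by rw [Real.sq_sqrt (by positivity)]
  have e2 : arm half r ≤ C * (3 * Real.sqrt m * ((Y : ℝ) + 1) ^ (-(1 / 2) : ℝ))
      * arm half m := by
    refine h2.trans ?_
    gcongr
    have : Real.sqrt ((m : ℝ) / ((r : ℝ) + 1)) ≤ Real.sqrt (9 * (m / (Y + 1))) := by
      apply Real.sqrt_le_sqrt
      rw [← mul_div_assoc, div_le_div_iff₀ (by positivity) (by positivity)]
      nlinarith
    refine this.trans (le_of_eq ?_)
    rw [Real.sqrt_mul (by norm_num), show (9 : ℝ) = 3 ^ 2 by norm_num,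
      Real.sqrt_sq (by norm_num), Real.sqrt_div (by positivity), Real.rpow_neg (by positivity),
      ← Real.sqrt_eq_rpow]
    ring
  have e3 : ((d : ℝ) + 1)⁻¹ ≤ wt X * ((Y : ℝ) + 1) ^ (-(1 / 4) : ℝ) := by
    have hXd : ((X : ℝ) + 1) ≤ d + 1 := by
      have : X ≤ d := le_max_left _ _
      exact_mod_cast Nat.succ_le_succ this
    have hYd : ((Y : ℝ) + 1) ≤ d + 1 := by
      have : Y ≤ d := le_max_right _ _
      exact_mod_cast Nat.succ_le_succ this
    unfold wt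
    have hsplit : ((d : ℝ) + 1)⁻¹
        = ((d : ℝ) + 1) ^ (-(3 / 4) : ℝ) * ((d : ℝ) + 1) ^ (-(1 / 4) : ℝ) := by
      rw [← Real.rpow_add (by positivity), ← Real.rpow_neg_one]
      norm_num
    rw [hsplit]
    have g1 : ((d : ℝ) + 1) ^ (-(3 / 4) : ℝ) ≤ ((X : ℝ) + 1) ^ (-(3 / 4) : ℝ) :=
      Real.rpow_le_rpow_of_nonpos (by positivity) hXd (by norm_num)
    have g2 : ((d : ℝ) + 1) ^ (-(1 / 4) : ℝ) ≤ ((Y : ℝ) + 1) ^ (-(1 / 4) : ℝ) :=
      Real.rpow_le_rpow_of_nonpos (by positivity) hYd (by norm_num)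
    exact mul_le_mul g1 g2 (by positivity) (by positivity)
  have e4 : ((Y : ℝ) + 1) ^ (-(1 / 4) : ℝ) * ((Y : ℝ) + 1) ^ (-(1 / 2) : ℝ) = wt Y := by
    unfold wt
    rw [← Real.rpow_add (by positivity)]
    norm_num
  calc arm half s ^ 2 * arm half r
      ≤ (C ^ 2 * (8 * m / (d + 1)) * arm half m ^ 2)
        * (C * (3 * Real.sqrt m * ((Y : ℝ) + 1) ^ (-(1 / 2) : ℝ)) * arm half m) :=
        mul_le_mul e1 e2 arm_nonneg (by positivity)
    _ = (24 * C ^ 3 * (m * Real.sqrt m) * arm half m ^ 3)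
        * (((d : ℝ) + 1)⁻¹ * ((Y : ℝ) + 1) ^ (-(1 / 2) : ℝ)) := by
        field_simp
        ring
    _ ≤ (24 * C ^ 3 * (m * Real.sqrt m) * arm half m ^ 3)
        * ((wt X * ((Y : ℝ) + 1) ^ (-(1 / 4) : ℝ)) * ((Y : ℝ) + 1) ^ (-(1 / 2) : ℝ)) := by
        gcongr
    _ = _ := by rw [mul_assoc (wt X), e4]

theorem wgt_compare {c : ℝ} (hc : 0 < c) (hc8 : c ≤ 1 / 8) {N Y r : ℕ} (h : Y + 1 ≤ 8 * (r + 1)) :
    (((min r N : ℕ) : ℝ) + 1) ^ (-c) ≤ 8 * wgt c N Y := by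
  have h1 : (((min Y N : ℕ) : ℝ) + 1) / 8 ≤ ((min r N : ℕ) : ℝ) + 1 := by
    have : min Y N + 1 ≤ 8 * (min r N + 1) := by omega
    have h' : (((min Y N : ℕ) : ℝ) + 1) ≤ 8 * (((min r N : ℕ) : ℝ) + 1) := by exact_mod_cast this
    linarith
  calc (((min r N : ℕ) : ℝ) + 1) ^ (-c) ≤ ((((min Y N : ℕ) : ℝ) + 1) / 8) ^ (-c) :=
        Real.rpow_le_rpow_of_nonpos (by positivity) h1 (by linarith)
    _ = 8 ^ c * wgt c N Y := by
        rw [Real.div_rpow (by positivity) (by norm_num), Real.rpow_neg (by norm_num : (0:ℝ) ≤ 8),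
          div_inv_eq_mul, mul_comm]
        rfl
    _ ≤ 8 * wgt c N Y := by
        refine mul_le_mul_of_nonneg_right ?_ wgt_nonneg
        calc (8 : ℝ) ^ c ≤ 8 ^ (1 : ℝ) :=
              Real.rpow_le_rpow_of_exponent_le (by norm_num) (by linarith)
          _ = 8 := Real.rpow_one 8

/-- The sum over the edges of a box. -/
theorem arm_sum2 : ∃ C : ℝ, 0 < C ∧ ∀ c : ℝ, 0 < c → c ≤ 1 / 8 → ∀ m N : ℕ, 1 ≤ m → 1 ≤ N →
    ∑ e ∈ eB m, ((((min (rR e) N : ℕ) : ℝ) + 1) ^ (-c) *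
      (arm half (sR e) ^ 2 * arm half (rR e))) ≤
      C * (m : ℝ) ^ 2 * arm half m ^ 3 * ((min m N : ℕ) : ℝ) ^ (-(c / 2)) := by
  obtain ⟨C, hC, hreg⟩ := arm_reg
  refine ⟨2 ^ 17 * C ^ 3, by positivity, ?_⟩
  intro c hc hc8 m N hm hN
  have hmp : (1 : ℝ) ≤ m := by exact_mod_cast hm
  have ha := arm_nonneg (p := half) (r := m)
  set K := 24 * C ^ 3 * (m * Real.sqrt m) * arm half m ^ 3 with hK
  have hK0 : 0 ≤ K := by positivity
  set R : ℝ := ((min m N : ℕ) : ℝ) with hR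
  have hR1 : 1 ≤ R := by
    rw [hR]; exact_mod_cast le_min hm hN
  set W := ∑ x ∈ Finset.Icc (-(m : ℤ)) m, wt x.natAbs with hW
  set V := ∑ y ∈ Finset.Icc (-(m : ℤ)) m, wt y.natAbs * wgt c N y.natAbs with hV
  have hWle : W ≤ 8 * ((m : ℝ) + 1) ^ (1 / 4 : ℝ) := by
    have h1 := sum_wt_int m
    have h2 := sum_wt m
    linarith
  have hVle : V ≤ 16 * ((m : ℝ) + 1) ^ (1 / 4 : ℝ) * R ^ (-(c / 2)) := by
    have h1 := sum_int_le m (fun k => wt k * wgt c N k)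
      (fun k => mul_nonneg (wt_pos k).le wgt_nonneg)
    have h2 := sum_wt_wgt hc hc8 hm hN
    calc V ≤ 2 * ∑ k ∈ Finset.range (m + 1), wt k * wgt c N k := h1
      _ ≤ 2 * (8 * ((m : ℝ) + 1) ^ (1 / 4 : ℝ) * R ^ (-(c / 2))) := by gcongr
      _ = _ := by ring
  have hW0 : 0 ≤ W := Finset.sum_nonneg fun _ _ => (wt_pos _).le
  have hV0 : 0 ≤ V := Finset.sum_nonneg fun _ _ => mul_nonneg (wt_pos _).le wgt_nonneg
  have hterm : ∀ x ∈ Finset.Icc (-(m : ℤ)) m, ∀ y ∈ Finset.Icc (-(m : ℤ)) m, ∀ b : Bool,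
      (((min (rR (x, y, b)) N : ℕ) : ℝ) + 1) ^ (-c) *
        (arm half (sR (x, y, b)) ^ 2 * arm half (rR (x, y, b)))
        ≤ 8 * K * (wt x.natAbs * (wt y.natAbs * wgt c N y.natAbs)) := by
    intro x hx y hy b
    rw [Finset.mem_Icc] at hx hy
    have hs : sR (x, y, b) = max x.natAbs y.natAbs / 2 - 2 := rfl
    have hr : rR (x, y, b) = min (y.natAbs - 1) (sR (x, y, b)) := rfl
    have h1 := term_bound2 hC hreg hm (X := x.natAbs) (Y := y.natAbs) (by omega) (by omega) hs hr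
    have h2 := wgt_compare hc hc8 (N := N) (Y := y.natAbs) (r := rR (x, y, b)) (by omega)
    have h3 := (wt_pos x.natAbs).le
    have h4 := (wt_pos y.natAbs).le
    calc _ ≤ (8 * wgt c N y.natAbs) * (K * (wt x.natAbs * wt y.natAbs)) :=
          mul_le_mul h2 h1 (mul_nonneg (sq_nonneg _) arm_nonneg)
            (mul_nonneg (by norm_num) wgt_nonneg)
      _ = _ := by ring
  have hsum : ∑ e ∈ eB m, ((((min (rR e) N : ℕ) : ℝ) + 1) ^ (-c) *
      (arm half (sR e) ^ 2 * arm half (rR e))) ≤ 2 * (8 * K * (W * V)) := by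
    unfold eB eRect
    rw [Finset.sum_product]
    have hin : ∀ x ∈ Finset.Icc (-(m : ℤ)) m,
        ∑ z ∈ Finset.Icc (-(m : ℤ)) m ×ˢ (Finset.univ : Finset Bool),
          ((((min (rR (x, z)) N : ℕ) : ℝ) + 1) ^ (-c) *
            (arm half (sR (x, z)) ^ 2 * arm half (rR (x, z))))
        ≤ 2 * (8 * K * (wt x.natAbs * V)) := by
      intro x hx
      rw [Finset.sum_product]
      have : ∀ y ∈ Finset.Icc (-(m : ℤ)) m, ∑ b : Bool,
          ((((min (rR (x, y, b)) N : ℕ) : ℝ) + 1) ^ (-c) *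
            (arm half (sR (x, y, b)) ^ 2 * arm half (rR (x, y, b))))
          ≤ 2 * (8 * K * (wt x.natAbs * (wt y.natAbs * wgt c N y.natAbs))) := by
        intro y hy
        rw [Fintype.sum_bool]
        have h1 := hterm x hx y hy true
        have h2 := hterm x hx y hy false
        linarith
      refine (Finset.sum_le_sum this).trans (le_of_eq ?_)
      rw [hV, Finset.mul_sum, Finset.mul_sum, Finset.mul_sum]
    refine (Finset.sum_le_sum hin).trans (le_of_eq ?_)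
    rw [← Finset.mul_sum, ← Finset.mul_sum, ← Finset.sum_mul]
  refine hsum.trans ?_
  have hWV : W * V ≤ 256 * Real.sqrt m * R ^ (-(c / 2)) := by
    have h1 : W * V ≤ (8 * ((m : ℝ) + 1) ^ (1 / 4 : ℝ)) *
        (16 * ((m : ℝ) + 1) ^ (1 / 4 : ℝ) * R ^ (-(c / 2))) :=
      mul_le_mul hWle hVle hV0 (by positivity)
    have h2 : ((m : ℝ) + 1) ^ (1 / 4 : ℝ) * ((m : ℝ) + 1) ^ (1 / 4 : ℝ) = Real.sqrt (m + 1) := by
      rw [← Real.rpow_add (by positivity), Real.sqrt_eq_rpow]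
      norm_num
    have h3 : Real.sqrt ((m : ℝ) + 1) ≤ 2 * Real.sqrt m := by
      rw [show (2 : ℝ) = Real.sqrt 4 by
        rw [show (4 : ℝ) = 2 ^ 2 by norm_num, Real.sqrt_sq (by norm_num)],
        ← Real.sqrt_mul (by norm_num)]
      apply Real.sqrt_le_sqrt
      linarith
    calc W * V ≤ _ := h1
      _ = 128 * (((m : ℝ) + 1) ^ (1 / 4 : ℝ) * ((m : ℝ) + 1) ^ (1 / 4 : ℝ)) * R ^ (-(c / 2)) := by
          ring
      _ ≤ 128 * (2 * Real.sqrt m) * R ^ (-(c / 2)) := by rw [h2]; gcongr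
      _ = _ := by ring
  have hs : Real.sqrt m * Real.sqrt m = m := Real.mul_self_sqrt (by positivity)
  have hfin : 0 ≤ C ^ 3 * (m : ℝ) ^ 2 * arm half m ^ 3 * R ^ (-(c / 2)) := by positivity
  calc 2 * (8 * K * (W * V)) ≤ 2 * (8 * K * (256 * Real.sqrt m * R ^ (-(c / 2)))) := by gcongr
    _ = 98304 * (C ^ 3 * (m * (Real.sqrt m * Real.sqrt m)) * arm half m ^ 3 *
        R ^ (-(c / 2))) := by rw [hK]; ring
    _ = 98304 * (C ^ 3 * (m : ℝ) ^ 2 * arm half m ^ 3 * R ^ (-(c / 2))) := by rw [hs]; ring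
    _ ≤ 2 ^ 17 * (C ^ 3 * (m : ℝ) ^ 2 * arm half m ^ 3 * R ^ (-(c / 2))) := by
        refine mul_le_mul_of_nonneg_right (by norm_num) hfin
    _ = _ := by ring

/-- Bound for the derivative of the one-arm probability while it is comparable to its critical
value. -/
theorem deriv_bound2 : ∃ C : ℝ, 0 < C ∧ ∃ ε > (0 : ℝ), ε ≤ 1 / 8 ∧ ∀ m N : ℕ, 1 ≤ m → 1 ≤ N →
    ∀ p : I, (1 / 4 : ℝ) ≤ p → (p : ℝ) ≤ 3 / 4 → |(p : ℝ) - 1 / 2| * (N : ℝ) ^ 2 ≤ 1 →
    (∀ k ≤ m, arm p k ≤ 2 * arm half k) → (∀ k ≤ m, arm (σ p) k ≤ 2 * arm half k) →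
    ∑ e ∈ eB m, pivot p (Arm 0 m) e ≤ C * m * arm half m ^ 2 * ((min m N : ℕ) : ℝ) ^ (-ε) := by
  obtain ⟨C1, hC1, hsum⟩ := arm_sum2
  obtain ⟨C2, hC2, c, hc, hc8, hPQ⟩ := PQ_le
  set C := C1 * C2 with hC
  have hC0 : 0 < C := by positivity
  refine ⟨20 * Real.sqrt C, by positivity, c / 4, by positivity, by linarith, ?_⟩
  intro m N hm hN p hp1 hp2 hpN h1 h2
  have ha := arm_nonneg (p := half) (r := m)
  have key := arm_key2 p m
  set R : ℝ := ((min m N : ℕ) : ℝ) with hR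
  have hR1 : 1 ≤ R := by
    rw [hR]; exact_mod_cast le_min hm hN
  set D := ∑ e ∈ eB m, pivot p (Arm 0 m) e with hD
  have hterm : ∀ e ∈ eB m, Pr p (PArm m e ∩ QArm m e)
      ≤ 8 * C2 * ((((min (rR e) N : ℕ) : ℝ) + 1) ^ (-c) *
        (arm half (sR e) ^ 2 * arm half (rR e))) := by
    intro e he
    have hb := Gamma.mem_eB.1 he
    have hb' : nrm (src e) ≤ m := by
      simp only [mem_ball, Prod.fst_zero, Prod.snd_zero] at hb
      unfold nrm
      omega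
    have hsm : sR e ≤ m := by unfold sR; omega
    have hrm : rR e ≤ m := (min_le_right _ _).trans hsm
    have e3 := h1 (sR e) hsm
    have e4 := h2 (rR e) hrm
    have e5 : arm p (sR e) ^ 2 ≤ 4 * arm half (sR e) ^ 2 := by
      have : arm p (sR e) ^ 2 ≤ (2 * arm half (sR e)) ^ 2 := pow_le_pow_left₀ arm_nonneg e3 2
      linarith
    have e6 : arm p (sR e) ^ 2 * arm (σ p) (rR e) ≤
        (4 * arm half (sR e) ^ 2) * (2 * arm half (rR e)) :=
      mul_le_mul e5 e4 arm_nonneg (by positivity)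
    calc Pr p (PArm m e ∩ QArm m e) ≤ C2 * (((min (rR e) N : ℕ) : ℝ) + 1) ^ (-c) *
          (arm p (sR e) ^ 2 * arm (σ p) (rR e)) := hPQ p N m hpN e
      _ ≤ C2 * (((min (rR e) N : ℕ) : ℝ) + 1) ^ (-c) *
          ((4 * arm half (sR e) ^ 2) * (2 * arm half (rR e))) := by gcongr
      _ = _ := by ring
  have hS : ∑ e ∈ eB m, Pr p (PArm m e ∩ QArm m e) ≤
      8 * C2 * (C1 * (m : ℝ) ^ 2 * arm half m ^ 3 * R ^ (-(c / 2))) := by
    refine (Finset.sum_le_sum hterm).trans ?_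
    rw [← Finset.mul_sum]
    exact mul_le_mul_of_nonneg_left (hsum c hc hc8 m N hm hN) (by positivity)
  have hpq : (3 / 16 : ℝ) ≤ (p : ℝ) * (1 - p) := by nlinarith
  have hD2 : (3 / 16 : ℝ) * D ^ 2 ≤ 16 * (C * (m : ℝ) ^ 2 * arm half m ^ 4 * R ^ (-(c / 2))) := by
    calc (3 / 16 : ℝ) * D ^ 2 ≤ (p : ℝ) * (1 - p) * D ^ 2 :=
          mul_le_mul_of_nonneg_right hpq (sq_nonneg D)
      _ ≤ arm p m * ∑ e ∈ eB m, Pr p (PArm m e ∩ QArm m e) := key
      _ ≤ (2 * arm half m) * (8 * C2 * (C1 * (m : ℝ) ^ 2 * arm half m ^ 3 * R ^ (-(c / 2)))) :=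
          mul_le_mul (h1 m le_rfl) hS (Finset.sum_nonneg fun e _ => Pr_nonneg)
            (by positivity)
      _ = _ := by rw [hC]; ring
  have hsq : D ^ 2 ≤ (20 * Real.sqrt C * m * arm half m ^ 2 * R ^ (-(c / 4))) ^ 2 := by
    have h5 : (R ^ (-(c / 4))) ^ 2 = R ^ (-(c / 2)) := by
      rw [← Real.rpow_natCast, ← Real.rpow_mul (by linarith)]
      congr 1
      push_cast
      ring
    have : (20 * Real.sqrt C * m * arm half m ^ 2 * R ^ (-(c / 4))) ^ 2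
        = 400 * (Real.sqrt C ^ 2) * (m : ℝ) ^ 2 * arm half m ^ 4 * (R ^ (-(c / 4))) ^ 2 := by ring
    rw [this, Real.sq_sqrt hC0.le, h5]
    have h0 : 0 ≤ C * (m : ℝ) ^ 2 * arm half m ^ 4 * R ^ (-(c / 2)) := by positivity
    linarith
  exact le_of_sq_le_sq' hsq (by positivity)
where
  le_of_sq_le_sq' {a b : ℝ} (h : a ^ 2 ≤ b ^ 2) (hb : 0 ≤ b) : a ≤ b :=
    (abs_le_of_sq_le_sq' h hb).2

end Pool.Agent.H85.Strict
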