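import Pool.Agent.H85.Strict.GammaSum

/-!
# Improved stability of the one-arm probability near the critical point
-/

open MeasureTheory ProbabilityTheory unitInterval Filter Topology

namespace Pool.Agent.H85.Strict

open Pool.Agent.H89.Perc Pool.Agent.H85.Gamma

/-- `m^{1-ε} π(m) ≤ C n^{1-ε} π(n)` for `m ≤ n`, with the powers truncated at `N`. -/
theorem mul_arm_mono2 : ∃ C : ℝ, 1 ≤ C ∧ ∀ ε : ℝ, 0 < ε → ε ≤ 1 / 8 → ∀ m n N : ℕ, 1 ≤ m →
    m ≤ n → 1 ≤ N → m * arm half m * ((min m N : ℕ) : ℝ) ^ (-ε) ≤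
      C * (n * arm half n * ((min n N : ℕ) : ℝ) ^ (-ε)) := by
  obtain ⟨C, hC, hreg⟩ := arm_reg
  refine ⟨C, hC, ?_⟩
  intro ε hε hε8 m n N hm hmn hN
  have hmp : (0 : ℝ) < m := by exact_mod_cast hm
  have hm1 : (1 : ℝ) ≤ m := by exact_mod_cast hm
  have hnp : (0 : ℝ) < n := by exact_mod_cast (hm.trans hmn)
  have hmn' : (m : ℝ) ≤ n := by exact_mod_cast hmn
  have h1 := hreg m n (hm.trans hmn) hmn
  set a : ℝ := ((min m N : ℕ) : ℝ) with ha
  set b : ℝ := ((min n N : ℕ) : ℝ) with hb
  have ha1 : 1 ≤ a := by rw [ha]; exact_mod_cast le_min hm hN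
  have hb1 : 1 ≤ b := by rw [hb]; exact_mod_cast le_min (hm.trans hmn) hN
  have hN0 : (1 : ℝ) ≤ N := by exact_mod_cast hN
  -- `b / a ≤ n / m`
  have hba : b / a ≤ n / m := by
    rw [div_le_div_iff₀ (by linarith) hmp]
    rw [ha, hb, Nat.cast_min, Nat.cast_min]
    rcases le_total (m : ℝ) N with h | h
    · rw [min_eq_left h]
      exact mul_le_mul_of_nonneg_right (min_le_left _ _) hmp.le
    · rw [min_eq_right h, min_eq_right (h.trans hmn')]
      nlinarith
  have h2 : a ^ (-ε) ≤ Real.sqrt (n / m) * b ^ (-ε) := by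
    have h3 : (b / a) ^ ε ≤ (n / m) ^ ε := Real.rpow_le_rpow (by positivity) hba hε.le
    have h4 : ((n : ℝ) / m) ^ ε ≤ (n / m) ^ (1 / 2 : ℝ) := by
      apply Real.rpow_le_rpow_of_exponent_le
      · rw [le_div_iff₀ hmp]; linarith
      · linarith
    have h5 : a ^ (-ε) = (b / a) ^ ε * b ^ (-ε) := by
      rw [Real.div_rpow (by linarith) (by linarith), Real.rpow_neg (by linarith : (0:ℝ) ≤ a),
        Real.rpow_neg (by linarith : (0:ℝ) ≤ b)]
      have : 0 < b ^ ε := by positivity
      field_simp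
    rw [h5, Real.sqrt_eq_rpow]
    exact mul_le_mul_of_nonneg_right (h3.trans h4) (by positivity)
  have h3 : (m : ℝ) * Real.sqrt (n / (m + 1)) * Real.sqrt (n / m) ≤ n := by
    have h4 : Real.sqrt ((n : ℝ) / (m + 1)) ≤ Real.sqrt (n / m) := by
      apply Real.sqrt_le_sqrt
      apply div_le_div_of_nonneg_left hnp.le hmp (by linarith)
    have h5 : Real.sqrt ((n : ℝ) / m) * Real.sqrt (n / m) = n / m :=
      Real.mul_self_sqrt (by positivity)
    calc (m : ℝ) * Real.sqrt (n / (m + 1)) * Real.sqrt (n / m)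
        ≤ m * Real.sqrt (n / m) * Real.sqrt (n / m) := by gcongr
      _ = m * (Real.sqrt (n / m) * Real.sqrt (n / m)) := by ring
      _ = n := by rw [h5]; field_simp
      _ ≤ n := le_rfl
  calc (m : ℝ) * arm half m * a ^ (-ε)
      ≤ m * (C * Real.sqrt (n / (m + 1)) * arm half n) * (Real.sqrt (n / m) * b ^ (-ε)) := by
        have := arm_nonneg (p := half) (r := n)
        gcongr
    _ = C * ((m * Real.sqrt (n / (m + 1)) * Real.sqrt (n / m)) * arm half n * b ^ (-ε)) := by ring
    _ ≤ C * (n * arm half n * b ^ (-ε)) := by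
        have := arm_nonneg (p := half) (r := n)
        gcongr

/-- Stability above and below the critical point. -/
theorem window2 : ∃ c : ℝ, 0 < c ∧ ∃ ε > (0 : ℝ), ε ≤ 1 / 8 ∧ ∀ n N : ℕ, 1 ≤ n → 1 ≤ N →
    ∀ δ : ℝ, 0 < δ → δ * (N : ℝ) ^ 2 ≤ 1 →
    δ * (n * arm half n * ((min n N : ℕ) : ℝ) ^ (-ε)) ≤ c → ∀ q : I, (q : ℝ) ≤ 1 / 2 →
    1 / 2 - (q : ℝ) ≤ δ → arm half n / 2 ≤ arm q n := by
  obtain ⟨Cd, hCd, ε, hε, hε8, hder⟩ := deriv_bound2
  obtain ⟨C', hC', hmono⟩ := mul_arm_mono2
  have ha1 := arm_half_pos 1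
  set c : ℝ := min (1 / (2 * Cd * C')) (arm half 1 / (4 * C')) with hc
  have hcp : 0 < c := lt_min (by positivity) (by positivity)
  have hc1 : c * (Cd * C') ≤ 1 / 2 := by
    have : c ≤ 1 / (2 * Cd * C') := min_le_left _ _
    calc c * (Cd * C') ≤ 1 / (2 * Cd * C') * (Cd * C') := by gcongr
      _ = 1 / 2 := by field_simp
  have hc2 : c * C' ≤ arm half 1 / 4 := by
    have : c ≤ arm half 1 / (4 * C') := min_le_right _ _
    calc c * C' ≤ arm half 1 / (4 * C') * C' := by gcongr
      _ = arm half 1 / 4 := by field_simp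
  refine ⟨c, hcp, ε, hε, hε8, ?_⟩
  intro n N hn hN δ hδp hδN hδc q hq hqc
  have hnp : (0 : ℝ) < n := by exact_mod_cast hn
  have hapos : ∀ k, 0 < arm half k := arm_half_pos
  set B : ℝ := n * arm half n * ((min n N : ℕ) : ℝ) ^ (-ε) with hB
  have hminpos : ∀ k : ℕ, 1 ≤ k → (0 : ℝ) < ((min k N : ℕ) : ℝ) := by
    intro k hk
    have : 1 ≤ min k N := le_min hk hN
    exact_mod_cast this
  have hBp : 0 < B := by
    have h1 := hminpos n hn
    have h2 := hapos n
    positivity
  have hδle : δ ≤ 1 / 4 := by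
    have h1 := hmono ε hε hε8 1 n N le_rfl hn hN
    have h2 : ((min 1 N : ℕ) : ℝ) = 1 := by
      have : min 1 N = 1 := min_eq_left hN
      rw [this]; simp
    rw [h2, Real.one_rpow, mul_one, Nat.cast_one, one_mul, ← hB] at h1
    -- `δ a₁ ≤ C' δ B ≤ C' c ≤ a₁ / 4`
    have h3 : δ * arm half 1 ≤ arm half 1 / 4 := by
      calc δ * arm half 1 ≤ δ * (C' * B) := by gcongr
        _ = C' * (δ * B) := by ring
        _ ≤ C' * c := by gcongr
        _ ≤ arm half 1 / 4 := by linarith
    have h4 : δ * arm half 1 ≤ (1 / 4) * arm half 1 := by linarith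
    exact le_of_mul_le_mul_right h4 ha1
  -- the crucial smallness
  have hsmall : ∀ k : ℕ, 1 ≤ k → k ≤ n →
      Cd * k * arm half k ^ 2 * ((min k N : ℕ) : ℝ) ^ (-ε) * δ ≤ arm half k / 2 := by
    intro k hk hkn
    have h1 := hmono ε hε hε8 k n N hk hkn hN
    rw [← hB] at h1
    have h3 := hapos k
    have h4 : (k : ℝ) * arm half k * ((min k N : ℕ) : ℝ) ^ (-ε) * δ ≤ C' * c := by
      calc (k : ℝ) * arm half k * ((min k N : ℕ) : ℝ) ^ (-ε) * δ ≤ (C' * B) * δ := by gcongr
        _ = C' * (δ * B) := by ring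
        _ ≤ C' * c := by gcongr
    calc Cd * k * arm half k ^ 2 * ((min k N : ℕ) : ℝ) ^ (-ε) * δ
        = (Cd * (k * arm half k * ((min k N : ℕ) : ℝ) ^ (-ε) * δ)) * arm half k := by ring
      _ ≤ (Cd * (C' * c)) * arm half k := by gcongr
      _ = (c * (Cd * C')) * arm half k := by ring
      _ ≤ (1 / 2) * arm half k := by gcongr
      _ = _ := by ring
  -- mean value bound
  have mvt : ∀ k : ℕ, 1 ≤ k → k ≤ n → ∀ x y : ℝ, 1 / 4 ≤ x → x ≤ y → y ≤ 3 / 4 → y - x ≤ δ →
      1 / 2 - δ ≤ x → y ≤ 1 / 2 + δ →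
      (∀ z : I, x ≤ z → (z : ℝ) ≤ y → (∀ j ≤ k, arm z j ≤ 2 * arm half j) ∧
        (∀ j ≤ k, arm (σ z) j ≤ 2 * arm half j)) → G k y - G k x ≤ arm half k / 2 := by
    intro k hk hkn x y hx hxy hy hyx hxδ hyδ hz
    have hI : ∀ w ∈ Set.Icc x y, w ∈ I := fun w hw => ⟨by linarith [hw.1], by linarith [hw.2]⟩
    have hbound := Convex.image_sub_le_mul_sub_of_deriv_le (convex_Icc x y)
      (continuous_G k).continuousOn
      (fun w hw => by
        rw [interior_Icc] at hw
        exact (hasDerivAt_G k ⟨w, hI w ⟨hw.1.le, hw.2.le⟩⟩).differentiableAt.differentiableWithinAt)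
      (C := Cd * k * arm half k ^ 2 * ((min k N : ℕ) : ℝ) ^ (-ε))
      (fun w hw => by
        rw [interior_Icc] at hw
        have hw' : w ∈ I := hI w ⟨hw.1.le, hw.2.le⟩
        rw [(hasDerivAt_G k ⟨w, hw'⟩).deriv]
        obtain ⟨h1, h2⟩ := hz ⟨w, hw'⟩ hw.1.le hw.2.le
        have hwN : |(w : ℝ) - 1 / 2| * (N : ℝ) ^ 2 ≤ 1 := by
          refine le_trans ?_ hδN
          refine mul_le_mul_of_nonneg_right ?_ (by positivity)
          rw [abs_le]
          constructor
          · linarith [hw.1]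
          · linarith [hw.2]
        exact hder k N hk hN ⟨w, hw'⟩ (by simp only; linarith [hw.1])
          (by simp only; linarith [hw.2]) hwN h1 h2)
      x ⟨le_rfl, hxy⟩ y ⟨hxy, le_rfl⟩ hxy
    have h3 := hapos k
    have h4 : (0 : ℝ) ≤ ((min k N : ℕ) : ℝ) ^ (-ε) := by positivity
    calc G k y - G k x ≤ Cd * k * arm half k ^ 2 * ((min k N : ℕ) : ℝ) ^ (-ε) * (y - x) := hbound
      _ ≤ Cd * k * arm half k ^ 2 * ((min k N : ℕ) : ℝ) ^ (-ε) * δ := by gcongr
      _ ≤ _ := hsmall k hk hkn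
  -- upper window by continuous induction
  have upper : ∀ x ∈ Set.Icc (1 / 2 : ℝ) (1 / 2 + δ), ∀ k ≤ n, G k x ≤ 3 / 2 * arm half k := by
    have hclosed : IsClosed ({x : ℝ | ∀ k ≤ n, G k x ≤ 3 / 2 * arm half k}
        ∩ Set.Icc (1 / 2 : ℝ) (1 / 2 + δ)) := by
      refine IsClosed.inter ?_ isClosed_Icc
      have : {x : ℝ | ∀ k ≤ n, G k x ≤ 3 / 2 * arm half k}
          = ⋂ k, ⋂ (_ : k ≤ n), {x : ℝ | G k x ≤ 3 / 2 * arm half k} := by
        ext x; simp
      rw [this]
      exact isClosed_iInter fun k => isClosed_iInter fun _ =>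
        isClosed_le (continuous_G k) continuous_const
    have hstart : (1 / 2 : ℝ) ∈ {x : ℝ | ∀ k ≤ n, G k x ≤ 3 / 2 * arm half k} := by
      intro k _
      have h1 := arm_eq_G half k
      rw [half_coe] at h1
      rw [← h1]
      have := hapos k
      linarith
    have hsub := hclosed.Icc_subset_of_forall_mem_nhdsWithin hstart ?_
    · exact fun x hx => hsub hx
    rintro x ⟨hxs, hx1, hx2⟩
    -- nearby points satisfy the weaker bound
    have hev : ∀ᶠ y in 𝓝 x, ∀ k ∈ Finset.range (n + 1), G k y < 2 * arm half k := by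
      rw [Filter.eventually_all_finset]
      intro k hk
      have hk' : k ≤ n := by rw [Finset.mem_range] at hk; omega
      refine (continuous_G k).continuousAt.eventually_lt continuousAt_const ?_
      have h1 := hxs k hk'
      have h2 := hapos k
      linarith
    have hev2 : ∀ᶠ y in 𝓝[>] x, (∀ k ∈ Finset.range (n + 1), G k y < 2 * arm half k) ∧
        x < y ∧ y < 1 / 2 + δ := by
      refine (hev.filter_mono nhdsWithin_le_nhds).and ?_
      refine Filter.Eventually.and (eventually_mem_nhdsWithin) ?_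
      exact (eventually_lt_nhds hx2).filter_mono nhdsWithin_le_nhds
    filter_upwards [hev2] with y hy
    obtain ⟨hy1, hy2, hy3⟩ := hy
    intro k hk
    have hyI : y ∈ I := ⟨by linarith, by linarith⟩
    rcases Nat.eq_zero_or_pos k with h0 | hkp
    · subst h0
      have h1 := arm_eq_G ⟨y, hyI⟩ 0
      simp only at h1
      rw [← h1, arm_zero, arm_zero]
      norm_num
    have hG := mvt k hkp hk (1 / 2) y (by norm_num) (by linarith) (by linarith) (by linarith)
      (by linarith) (by linarith) ?_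
    · have h1 := arm_eq_G half k
      rw [half_coe] at h1
      rw [← h1] at hG
      linarith
    · intro z hz1 hz2
      constructor
      · intro j hj
        have h1 : arm z j ≤ arm ⟨y, hyI⟩ j := arm_mono_param j hz2
        have h2 := arm_eq_G ⟨y, hyI⟩ j
        have h3 := hy1 j (by rw [Finset.mem_range]; omega)
        simp only at h2
        linarith
      · intro j hj
        have h1 : arm (σ z) j ≤ arm half j := by
          refine arm_mono_param j ?_
          show ((σ z : I) : ℝ) ≤ ((half : I) : ℝ)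
          rw [half_coe, unitInterval.coe_symm_eq]
          linarith
        have := hapos j
        linarith
  -- lower window
  have hG := mvt n hn le_rfl (q : ℝ) (1 / 2) (by linarith) hq (by norm_num) (by linarith)
    (by linarith) (by linarith) ?_
  · have h1 := arm_eq_G half n
    rw [half_coe] at h1
    rw [← h1, ← arm_eq_G q n] at hG
    linarith
  · intro z hz1 hz2
    constructor
    · intro j _
      have h1 : arm z j ≤ arm half j := by
        refine arm_mono_param j ?_
        show ((z : I) : ℝ) ≤ ((half : I) : ℝ)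
        rw [half_coe]
        exact hz2
      have := hapos j
      linarith
    · intro j hj
      have h1 := upper ((σ z : I) : ℝ) ⟨by rw [unitInterval.coe_symm_eq]; linarith,
        by rw [unitInterval.coe_symm_eq]; linarith⟩ j hj
      rw [← arm_eq_G] at h1
      have := hapos j
      linarith

end Pool.Agent.H85.Strict
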