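import Pool.Agent.H85.Strict.Corr
import Pool.Agent.H89.Perc.Decay

/-!
# The deterministic part of the decoupling argument
-/

open MeasureTheory ProbabilityTheory unitInterval

namespace Pool.Agent.H85.Strict

open Pool.Agent.H89.Perc

/-- Conditions on the position and the size of the block `[X, X + w] × [Y, Y + h]`. -/
structure Par (n W : ℕ) (X w Y h : ℤ) : Prop where
  hn : 8 ≤ n
  hW : 4 * n ≤ W
  X1 : 10 * (n : ℤ) ≤ X
  X2 : X ≤ 14 * (n : ℤ)
  Y1 : 10 * (n : ℤ) ≤ Y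
  Y2 : Y ≤ 14 * (n : ℤ)
  w1 : 2 * (W : ℤ) - 2 * n ≤ w
  w2 : w ≤ 4 * (W : ℤ) + 2 * n
  h1 : 2 * (W : ℤ) - 2 * n ≤ h
  h2 : h ≤ 4 * (W : ℤ) + 2 * n

variable {n W N : ℕ} {X w Y h : ℤ} {ω : Config}

theorem block_of {s r : ℕ} (hs : s + 1 < r) (h : ω ∈ AllCr
    [⟨false, s + 1, r - 1, -r, r⟩, ⟨false, -r + 1, -s - 1, -r, r⟩, ⟨true, -r, r, s + 1, r - 1⟩,
      ⟨true, -r, r, -r + 1, -s - 1⟩]) : dual ω ∉ DArm s r := by
  simp only [AllCr, List.mem_cons, List.not_mem_nil, or_false, Set.mem_ofPred_eq,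
    forall_eq_or_imp, forall_eq] at h
  obtain ⟨h1, h2, h3, h4⟩ := h
  exact block hs h1 h2 h3 h4

/-- The open crossings which connect the inner arm, through a crossing of the block, with the
outer arm. -/
def openL (n W : ℕ) (X w Y h : ℤ) : List Spec :=
  [⟨false, (2 * n + 1 : ℕ) + 1, (6 * n : ℕ) - 1, -(6 * n : ℕ), (6 * n : ℕ)⟩,
    ⟨false, -(6 * n : ℕ) + 1, -(2 * n + 1 : ℕ) - 1, -(6 * n : ℕ), (6 * n : ℕ)⟩,
    ⟨true, -(6 * n : ℕ), (6 * n : ℕ), (2 * n + 1 : ℕ) + 1, (6 * n : ℕ) - 1⟩,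
    ⟨true, -(6 * n : ℕ), (6 * n : ℕ), -(6 * n : ℕ) + 1, -(2 * n + 1 : ℕ) - 1⟩,
    ⟨false, 0, 2 * n, 2 * n + 1, Y + h⟩,
    ⟨true, 0, X - 1, Y, Y + h⟩,
    ⟨false, X - 2 * n, X - 1, Y, Y + h⟩,
    ⟨false, X + w + 1, X + w + 2 * n, Y, Y + h⟩,
    ⟨true, X + w + 1, 4 * W + 32 * n, Y, Y + h⟩,
    ⟨false, (4 * W + 24 * n + 2 : ℕ) + 1, (4 * W + 32 * n : ℕ) - 1, -(4 * W + 32 * n : ℕ),
      (4 * W + 32 * n : ℕ)⟩,
    ⟨false, -(4 * W + 32 * n : ℕ) + 1, -(4 * W + 24 * n + 2 : ℕ) - 1, -(4 * W + 32 * n : ℕ),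
      (4 * W + 32 * n : ℕ)⟩,
    ⟨true, -(4 * W + 32 * n : ℕ), (4 * W + 32 * n : ℕ), (4 * W + 24 * n + 2 : ℕ) + 1,
      (4 * W + 32 * n : ℕ) - 1⟩,
    ⟨true, -(4 * W + 32 * n : ℕ), (4 * W + 32 * n : ℕ), -(4 * W + 32 * n : ℕ) + 1,
      -(4 * W + 24 * n + 2 : ℕ) - 1⟩]

/-- The dual crossings which block all open paths that do not cross the block. -/
def closedL (n W : ℕ) (X w Y h : ℤ) : List Spec :=
  [⟨true, X, X + w - 1, Y + h + 2 * n, Y + h + 4 * n⟩,
    ⟨true, X, X + w - 1, Y - 4 * n - 1, Y - 2 * n - 1⟩,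
    ⟨false, X, X + w - 1, Y + h + 2 * n, 4 * W + 24 * n⟩,
    ⟨false, X, X + w - 1, -(4 * W + 24 * n), Y - 2 * n - 1⟩,
    ⟨true, -(4 * W + 24 * n), 4 * W + 24 * n, 4 * W + 22 * n, 4 * W + 24 * n - 1⟩,
    ⟨false, -(4 * W + 24 * n) + 1, -(8 * n) - 1, -(4 * W + 24 * n), 4 * W + 24 * n⟩,
    ⟨true, -(4 * W + 24 * n), 4 * W + 24 * n, -(4 * W + 24 * n) + 1, -(8 * n) - 1⟩]

theorem openL_good (P : Par n W X w Y h) {K : ℕ} (hK : 8 * W + 64 * n ≤ K * n) :
    ∀ r ∈ openL n W X w Y h, r.Good n K := by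
  obtain ⟨p1, p2, p3, p4, p5, p6, p7, p8, p9, p10⟩ := P
  have hK' : 8 * (W : ℤ) + 64 * n ≤ K * n := by exact_mod_cast hK
  simp only [openL, List.mem_cons, List.not_mem_nil, or_false, forall_eq_or_imp, forall_eq,
    Spec.Good, Nat.cast_add, Nat.cast_mul, Nat.cast_ofNat, Nat.cast_one, true_and, false_and,
    Bool.false_eq_true, Bool.true_eq_false, or_false, false_or]
  refine ⟨?_, ?_, ?_, ?_, ?_, ?_, ?_, ?_, ?_, ?_, ?_, ?_, ?_⟩ <;> omega

theorem closedL_good (P : Par n W X w Y h) {K : ℕ} (hK : 8 * W + 64 * n ≤ K * n) :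
    ∀ r ∈ closedL n W X w Y h, r.Good n K := by
  obtain ⟨p1, p2, p3, p4, p5, p6, p7, p8, p9, p10⟩ := P
  have hK' : 8 * (W : ℤ) + 64 * n ≤ K * n := by exact_mod_cast hK
  simp only [closedL, List.mem_cons, List.not_mem_nil, or_false, forall_eq_or_imp, forall_eq,
    Spec.Good, true_and, false_and, Bool.false_eq_true, Bool.true_eq_false, or_false, false_or]
  refine ⟨?_, ?_, ?_, ?_, ?_, ?_, ?_⟩ <;> omega

/-- The open arm exists when the block is crossed. -/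
theorem F1 (P : Par n W X w Y h) (hN : 4 * W + 32 * n ≤ N) (h0 : ω ∈ Arm 0 (6 * n))
    (hL : ω ∈ AllCr (openL n W X w Y h)) (hA : ω ∈ ArmBox 0 (4 * W + 24 * n + 2) N)
    (hR2 : HCross ω (X - 4 * n) (X + w + 4 * n) Y (Y + h)) : ω ∈ Arm 0 N := by
  obtain ⟨p1, p2, p3, p4, p5, p6, p7, p8, p9, p10⟩ := P
  have hc1 : dual ω ∉ DArm (2 * n + 1) (6 * n) := by
    refine block_of (by omega) ?_
    intro r hr
    refine hL r ?_
    simp only [openL, List.mem_cons, List.not_mem_nil, or_false] at hr ⊢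
    tauto
  have hc2 : dual ω ∉ DArm (4 * W + 24 * n + 2) (4 * W + 32 * n) := by
    refine block_of (by omega) ?_
    intro r hr
    refine hL r ?_
    simp only [openL, List.mem_cons, List.not_mem_nil, or_false] at hr ⊢
    tauto
  have gV : VCross ω 0 (2 * n) (2 * n + 1) (Y + h) :=
    hL ⟨false, 0, 2 * n, 2 * n + 1, Y + h⟩ (by simp [openL])
  have gL : HCross ω 0 (X - 1) Y (Y + h) := hL ⟨true, 0, X - 1, Y, Y + h⟩ (by simp [openL])
  have gl : VCross ω (X - 2 * n) (X - 1) Y (Y + h) :=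
    hL ⟨false, X - 2 * n, X - 1, Y, Y + h⟩ (by simp [openL])
  have gr : VCross ω (X + w + 1) (X + w + 2 * n) Y (Y + h) :=
    hL ⟨false, X + w + 1, X + w + 2 * n, Y, Y + h⟩ (by simp [openL])
  have gR : HCross ω (X + w + 1) (4 * W + 32 * n) Y (Y + h) :=
    hL ⟨true, X + w + 1, 4 * W + 32 * n, Y, Y + h⟩ (by simp [openL])
  obtain ⟨u0, v0, hu0, hv0, g0⟩ := gV
  obtain ⟨u1, v1, hu1, hv1, g1⟩ := gL
  obtain ⟨u2, v2, hu2, hv2, g2⟩ := gl
  obtain ⟨u3, v3, hu3, hv3, g3⟩ := hR2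
  obtain ⟨u4, v4, hu4, hv4, g4⟩ := gr
  obtain ⟨u5, v5, hu5, hv5, g5⟩ := gR
  obtain ⟨z1, a1, b1⟩ := hv_meet g1 (by omega) (by omega) g0 (by omega) (by omega) (by omega)
    (by omega)
  obtain ⟨z2, a2, b2⟩ := hv_meet g1 (by omega) (by omega) g2 (by omega) (by omega) (by omega)
    (by omega)
  obtain ⟨z3, a3, b3⟩ := hv_meet g3 (by omega) (by omega) g2 (by omega) (by omega) (by omega)
    (by omega)
  obtain ⟨z4, a4, b4⟩ := hv_meet g3 (by omega) (by omega) g4 (by omega) (by omega) (by omega)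
    (by omega)
  obtain ⟨z5, a5, b5⟩ := hv_meet g5 (by omega) (by omega) g4 (by omega) (by omega) (by omega)
    (by omega)
  have sub : ∀ a b c d : ℤ, -(4 * (W : ℤ) + 32 * n) ≤ a → b ≤ 4 * (W : ℤ) + 32 * n →
      -(4 * (W : ℤ) + 32 * n) ≤ c → d ≤ 4 * (W : ℤ) + 32 * n →
      rect a b c d ⊆ ball 0 (4 * W + 32 * n) := by
    intro a b c d e1 e2 e3 e4 z hz
    simp only [rect, Set.mem_ofPred_eq, mem_ball, Prod.fst_zero, Prod.snd_zero] at hz ⊢
    push_cast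
    omega
  have S0 := sub 0 (2 * n) (2 * n + 1) (Y + h) (by omega) (by omega) (by omega) (by omega)
  have S1 := sub 0 (X - 1) Y (Y + h) (by omega) (by omega) (by omega) (by omega)
  have S2 := sub (X - 2 * n) (X - 1) Y (Y + h) (by omega) (by omega) (by omega) (by omega)
  have S3 := sub (X - 4 * n) (X + w + 4 * n) Y (Y + h) (by omega) (by omega) (by omega) (by omega)
  have S4 := sub (X + w + 1) (X + w + 2 * n) Y (Y + h) (by omega) (by omega) (by omega) (by omega)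
  have S5 := sub (X + w + 1) (4 * W + 32 * n) Y (Y + h) (by omega) (by omega) (by omega) (by omega)
  have c1 := ((b1.mono_set S0).trans (a1.mono_set S1).symm)
  have c2 := c1.trans ((a2.mono_set S1).trans (b2.mono_set S2).symm)
  have c3 := c2.trans ((b3.mono_set S2).trans (a3.mono_set S3).symm)
  have c4 := c3.trans ((a4.mono_set S3).trans (b4.mono_set S4).symm)
  have c5 := c4.trans ((b5.mono_set S4).trans (a5.mono_set S5).symm)
  have c6 := c5.trans (g5.mono_set S5)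
  have hbox : ω ∈ ArmBox 0 (2 * n + 1) (4 * W + 32 * n) := by
    refine ⟨u0, ?_, v5, ⟨c6.mem_right, ?_⟩, c6⟩
    · have := g0.mem_left
      simp only [rect, Set.mem_ofPred_eq, mem_ball, Prod.fst_zero, Prod.snd_zero] at this ⊢
      push_cast
      omega
    · simp only [Prod.fst_zero]
      push_cast
      omega
  have hin := glue (s := 2 * n + 1) (r := 6 * n) (R := 4 * W + 32 * n) (by omega) (by omega) h0
    hbox hc1
  exact glue (by omega) hN hin hA hc2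

/-- If the blocking dual crossings occur, an open arm forces a crossing of the block. -/
theorem F2 (P : Par n W X w Y h) (hN : 4 * W + 24 * n + 2 ≤ N) (hA : ω ∈ Arm 0 N)
    (hL : dual ω ∈ AllCr (closedL n W X w Y h)) :
    HCross ω X (X + w) (Y - 4 * n) (Y + h + 4 * n) := by
  obtain ⟨p1, p2, p3, p4, p5, p6, p7, p8, p9, p10⟩ := P
  by_contra hno
  have hP := (hcross_or_dual_vcross (ω := ω) (a := X) (b := X + w) (c := Y - 4 * n)
    (d := Y + h + 4 * n) (by omega) (by omega)).resolve_left hno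
  have gt : HCross (dual ω) X (X + w - 1) (Y + h + 2 * n) (Y + h + 4 * n) :=
    hL ⟨true, X, X + w - 1, Y + h + 2 * n, Y + h + 4 * n⟩ (by simp [closedL])
  have gb : HCross (dual ω) X (X + w - 1) (Y - 4 * n - 1) (Y - 2 * n - 1) :=
    hL ⟨true, X, X + w - 1, Y - 4 * n - 1, Y - 2 * n - 1⟩ (by simp [closedL])
  have gN : VCross (dual ω) X (X + w - 1) (Y + h + 2 * n) (4 * W + 24 * n) :=
    hL ⟨false, X, X + w - 1, Y + h + 2 * n, 4 * W + 24 * n⟩ (by simp [closedL])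
  have gS : VCross (dual ω) X (X + w - 1) (-(4 * W + 24 * n)) (Y - 2 * n - 1) :=
    hL ⟨false, X, X + w - 1, -(4 * W + 24 * n), Y - 2 * n - 1⟩ (by simp [closedL])
  have k3 : HCross (dual ω) (-(4 * W + 24 * n)) (4 * W + 24 * n) (4 * W + 22 * n)
      (4 * W + 24 * n - 1) :=
    hL ⟨true, -(4 * W + 24 * n), 4 * W + 24 * n, 4 * W + 22 * n, 4 * W + 24 * n - 1⟩
      (by simp [closedL])
  have k2 : VCross (dual ω) (-(4 * W + 24 * n) + 1) (-(8 * n) - 1) (-(4 * W + 24 * n))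
      (4 * W + 24 * n) :=
    hL ⟨false, -(4 * W + 24 * n) + 1, -(8 * n) - 1, -(4 * W + 24 * n), 4 * W + 24 * n⟩
      (by simp [closedL])
  have k4 : HCross (dual ω) (-(4 * W + 24 * n)) (4 * W + 24 * n) (-(4 * W + 24 * n) + 1)
      (-(8 * n) - 1) :=
    hL ⟨true, -(4 * W + 24 * n), 4 * W + 24 * n, -(4 * W + 24 * n) + 1, -(8 * n) - 1⟩
      (by simp [closedL])
  obtain ⟨u, v, hu, hv, g⟩ := hP
  obtain ⟨u1, v1, hu1, hv1, g1⟩ := gt
  obtain ⟨u2, v2, hu2, hv2, g2⟩ := gb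
  obtain ⟨u3, v3, hu3, hv3, g3⟩ := gN
  obtain ⟨u4, v4, hu4, hv4, g4⟩ := gS
  obtain ⟨z1, a1, b1⟩ := hv_meet g1 (by omega) (by omega) g (by omega) (by omega) (by omega)
    (by omega)
  obtain ⟨z2, a2, b2⟩ := hv_meet g1 (by omega) (by omega) g3 (by omega) (by omega) (by omega)
    (by omega)
  obtain ⟨z3, a3, b3⟩ := hv_meet g2 (by omega) (by omega) g (by omega) (by omega) (by omega)
    (by omega)
  obtain ⟨z4, a4, b4⟩ := hv_meet g2 (by omega) (by omega) g4 (by omega) (by omega) (by omega)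
    (by omega)
  have sub : ∀ c d : ℤ, -(4 * (W : ℤ) + 24 * n) ≤ c → d ≤ 4 * (W : ℤ) + 24 * n →
      rect X (X + w - 1) c d ⊆ rect X (X + w - 1) (-(4 * W + 24 * n)) (4 * W + 24 * n) := by
    intro c d e3 e4 z hz
    simp only [rect, Set.mem_ofPred_eq] at hz ⊢
    omega
  have S0 := sub (Y - 4 * n - 1) (Y + h + 4 * n) (by omega) (by omega)
  have S1 := sub (Y + h + 2 * n) (Y + h + 4 * n) (by omega) (by omega)
  have S2 := sub (Y - 4 * n - 1) (Y - 2 * n - 1) (by omega) (by omega)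
  have S3 := sub (Y + h + 2 * n) (4 * W + 24 * n) (by omega) (by omega)
  have S4 := sub (-(4 * W + 24 * n)) (Y - 2 * n - 1) (by omega) (by omega)
  have c1 := (b4.mono_set S4).trans (a4.mono_set S2).symm
  have c2 := c1.trans ((a3.mono_set S2).trans (b3.mono_set S0).symm)
  have c3 := c2.trans ((b1.mono_set S0).trans (a1.mono_set S1).symm)
  have c4 := c3.trans ((a2.mono_set S1).trans (b2.mono_set S3).symm)
  have c5 := c4.trans (g3.mono_set S3)
  have hV : VCross (dual ω) X (X + w - 1) (-(4 * W + 24 * n)) (4 * W + 24 * n) :=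
    ⟨u4, v3, hu4, hv3, c5⟩
  have k1 : VCross (dual ω) (8 * n + 1) (4 * W + 24 * n - 1) (-(4 * W + 24 * n))
      (4 * W + 24 * n) := hV.mono (by omega) (by omega) le_rfl (by omega) le_rfl
  have k3' : HCross (dual ω) (-(4 * W + 24 * n)) (4 * W + 24 * n) (8 * n + 1)
      (4 * W + 24 * n - 1) := k3.mono le_rfl (by omega) le_rfl (by omega) le_rfl
  have hb := block (ω := dual ω) (s := 8 * n) (r := 4 * W + 24 * n) (by omega)
    (by push_cast; exact k1) (by push_cast; exact k2) (by push_cast; exact k3')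
    (by push_cast; exact k4)
  apply hb
  apply armBox_subset_DArm (by omega)
  have hdd : dual (dual ω) = fun e => ω (shiftE (1, 1) e) := by
    funext e
    obtain ⟨x, y, b⟩ := e
    cases b <;> simp [dual, crossed, shiftE]
  rw [hdd]
  have hsh := armBox_shift (1, 1) (8 * n) (4 * W + 24 * n)
  have : ω ∈ ArmBox (1, 1) (8 * n) (4 * W + 24 * n) := by
    obtain ⟨x, hx, hc⟩ := hA
    obtain ⟨y, hy, hcy⟩ := hc.to_sphere (v := (1, 1)) (r := 4 * W + 24 * n) (by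
      simp only [mem_ball, Prod.fst_zero, Prod.snd_zero]
      push_cast
      omega) (by
      left
      have h1 := hx.1
      have h2 := hx.2
      simp only [mem_ball, Prod.fst_zero, Prod.snd_zero] at h1 h2 ⊢
      push_cast
      omega)
    refine ⟨0, ?_, y, hy, hcy.mono_set Set.inter_subset_right⟩
    simp only [mem_ball, Prod.fst_zero, Prod.snd_zero]
    push_cast
    omega
  rw [← hsh] at this
  exact this

end Pool.Agent.H85.Strict
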