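import Pool.Agent.H85.Strict.Patch

/-!
# The one-scale decoupling inequality
-/

open MeasureTheory ProbabilityTheory unitInterval

namespace Pool.Agent.H85.Strict

open Pool.Agent.H89.Perc
open Pool.Agent.Perc (Ex ind ind_of ind_of_not ind_congr ind_mul ind_le_ind MonoOnF AntiOnF)

variable {p : I} {s t U S : Finset Edge} {A B : Set Config}

/-- Probabilities split along a local event. -/
theorem Pr_split (_hA : LocalOn s A) (hB : LocalOn t B) :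
    Pr p A = Pr p (A ∩ B) + Pr p (A ∩ Bᶜ) := by
  classical
  have h := measureReal_inter_add_sdiff (μ := μ p) (s := A) hB.measurableSet
  unfold Pr
  rw [← h]
  rfl

/-- The three-events bound: `R` and `D` are independent of `O` (increasing), and `R`, `D` are
negatively correlated. -/
theorem Pr_three_le {R O D : Set Config} {r o d : Finset Edge} (hR : LocalOn r R)
    (hO : LocalOn o O) (hD : LocalOn d D) (hro : Disjoint o r) (hdo : Disjoint o d)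
    (hmix : Pr p (R ∩ D) ≤ Pr p R * Pr p D) :
    Pr p (R ∩ (O ∩ D)) ≤ Pr p O * Pr p D * Pr p R := by
  classical
  have e : R ∩ (O ∩ D) = O ∩ (R ∩ D) := by
    ext ω; simp only [Set.mem_inter_iff]; tauto
  rw [e, Pr_inter_of_disjoint hO (hR.inter' hD) (Finset.disjoint_union_right.2 ⟨hro, hdo⟩)]
  have : 0 ≤ Pr p O := Pr_nonneg
  nlinarith

theorem Pr_three_ge {R O D : Set Config} {r o d : Finset Edge} (hR : LocalOn r R)
    (hO : LocalOn o O) (hD : LocalOn d D) (hrd : Disjoint d r) (hdo : Disjoint d o)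
    (hpos : Pr p R * Pr p O ≤ Pr p (R ∩ O)) :
    Pr p O * Pr p D * Pr p R ≤ Pr p (R ∩ (O ∩ D)) := by
  classical
  have e : R ∩ (O ∩ D) = D ∩ (R ∩ O) := by
    ext ω; simp only [Set.mem_inter_iff]; tauto
  rw [e, Pr_inter_of_disjoint hD (hR.inter' hO) (Finset.disjoint_union_right.2 ⟨hrd, hdo⟩)]
  have : 0 ≤ Pr p D := Pr_nonneg
  nlinarith

theorem oneScale {Go Gc Ho Hc R0 R1 R2 : Set Config} {sGo sGc sHo sHc t1 t2 t1' t2' : Finset Edge}
    (hA : LocalOn s A) (hB : LocalOn t B) (iA : Incr A) (iB : Incr Bᶜ)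
    (lGo : LocalOn sGo Go) (iGo : Incr Go) (lGc : LocalOn sGc Gc) (iGc : Incr Gcᶜ)
    (lHo : LocalOn sHo Ho) (iHo : Incr Ho) (lHc : LocalOn sHc Hc) (iHc : Incr Hcᶜ)
    (l0 : LocalOn U R0) (l1 : LocalOn t1 R1) (l2 : LocalOn t2 R2) (i1 : Incr R1) (i2 : Incr R2)
    (l1' : LocalOn t1' R1) (l2' : LocalOn t2' R2)
    (h20 : R2 ⊆ R0) (h01 : R0 ⊆ R1)
    (hA1 : R2 ∩ Go ⊆ A) (hA2 : A ∩ Gc ⊆ R1)
    (hB1 : R1ᶜ ∩ Hc ⊆ B) (hB2 : B ∩ Ho ⊆ R2ᶜ)
    (dGoGc : Disjoint sGo sGc) (dGo1 : Disjoint sGo t1) (dGc2 : Disjoint sGc t2)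
    (dGoU : Disjoint sGo U) (dGcU : Disjoint sGc U)
    (dHoHc : Disjoint sHo sHc) (dHo1 : Disjoint sHo t1') (dHc2 : Disjoint sHc t2')
    (dHoU : Disjoint sHo U) (dHcU : Disjoint sHc U) :
    Q p U A B ≤ Pr p A * Pr p B - (Pr p Go * Pr p Gc) * (Pr p Hc * Pr p Ho) *
      (Pr p R2 * (1 - Pr p R1) - (Pr p R1 - Pr p R2)) := by
  classical
  set G := Go ∩ Gc with hG
  set H := Hc ∩ Ho with hH
  have lG : LocalOn (sGo ∪ sGc) G := lGo.inter' lGc
  have lH : LocalOn (sHc ∪ sHo) H := lHc.inter' lHo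
  have dGU : Disjoint (sGo ∪ sGc) U := Finset.disjoint_union_left.2 ⟨dGoU, dGcU⟩
  have dHU : Disjoint (sHc ∪ sHo) U := Finset.disjoint_union_left.2 ⟨dHcU, dHoU⟩
  have pG : ∀ S, pe U S G = G := fun S => pe_eq_self lG dGU
  have pH : ∀ S, pe U S H = H := fun S => pe_eq_self lH dHU
  have pGo : ∀ S, pe U S Go = Go := fun S => pe_eq_self lGo dGoU
  have pGc : ∀ S, pe U S Gc = Gc := fun S => pe_eq_self lGc dGcU
  have pHo : ∀ S, pe U S Ho = Ho := fun S => pe_eq_self lHo dHoU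
  have pHc : ∀ S, pe U S Hc = Hc := fun S => pe_eq_self lHc dHcU
  have lAG := hA.inter' lG
  have lAG' := hA.inter' lG.compl
  have lBH := hB.inter' lH
  have lBH' := hB.inter' lH.compl
  -- conditional probabilities
  set f1 : Finset Edge → ℝ := fun S => Pr p (pe U S (A ∩ G)) with hf1
  set f2 : Finset Edge → ℝ := fun S => Pr p (pe U S (A ∩ Gᶜ)) with hf2
  set g1 : Finset Edge → ℝ := fun S => Pr p (pe U S (B ∩ H)) with hg1
  set g2 : Finset Edge → ℝ := fun S => Pr p (pe U S (B ∩ Hᶜ)) with hg2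
  have mono_aux : ∀ W : Set Config, (∀ S, pe U S W = W) → ∀ S S' : Finset Edge, S ⊆ S' →
      Pr p (pe U S (A ∩ W)) ≤ Pr p (pe U S' (A ∩ W)) := by
    intro W hW S S' h
    refine Pr_mono ?_
    rw [pe_inter, pe_inter, hW, hW]
    exact Set.inter_subset_inter_left _ (pe_mono_right iA h)
  have anti_aux : ∀ W : Set Config, (∀ S, pe U S W = W) → ∀ S S' : Finset Edge, S ⊆ S' →
      Pr p (pe U S' (B ∩ W)) ≤ Pr p (pe U S (B ∩ W)) := by
    intro W hW S S' h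
    refine Pr_mono ?_
    rw [pe_inter, pe_inter, hW, hW]
    refine Set.inter_subset_inter_left _ fun ω hω => ?_
    by_contra hc
    exact (pe_mono_right (T := U) iB h : pe U S Bᶜ ⊆ pe U S' Bᶜ) hc hω
  have mf1 : MonoOnF U f1 := fun S S' h _ => mono_aux G pG S S' h
  have mf2 : MonoOnF U f2 := fun S S' h _ => mono_aux Gᶜ (fun S => by rw [pe_compl, pG]) S S' h
  have mg1 : AntiOnF U g1 := fun S S' h _ => anti_aux H pH S S' h
  have mg2 : AntiOnF U g2 := fun S S' h _ => anti_aux Hᶜ (fun S => by rw [pe_compl, pH]) S S' h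
  have eA : ∀ S, Pr p (pe U S A) = f1 S + f2 S := fun S => by
    simp only [hf1, hf2, pe_inter, pe_compl]
    exact Pr_split (pe_local' hA) (pe_local' lG)
  have eB : ∀ S, Pr p (pe U S B) = g1 S + g2 S := fun S => by
    simp only [hg1, hg2, pe_inter, pe_compl]
    exact Pr_split (pe_local' hB) (pe_local' lH)
  have E1 : Ex (p : ℝ) U f1 = Pr p (A ∩ G) := (Pr_eq_pe lAG U).symm
  have E2 : Ex (p : ℝ) U f2 = Pr p (A ∩ Gᶜ) := (Pr_eq_pe lAG' U).symm
  have E3 : Ex (p : ℝ) U g1 = Pr p (B ∩ H) := (Pr_eq_pe lBH U).symm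
  have E4 : Ex (p : ℝ) U g2 = Pr p (B ∩ Hᶜ) := (Pr_eq_pe lBH' U).symm
  have hsum : Q p U A B = Ex (p : ℝ) U (fun S => f1 S * g1 S) + Ex (p : ℝ) U (fun S => f1 S * g2 S)
      + (Ex (p : ℝ) U (fun S => f2 S * g1 S) + Ex (p : ℝ) U (fun S => f2 S * g2 S)) := by
    rw [← Pool.Agent.Perc.Ex_add, ← Pool.Agent.Perc.Ex_add, ← Pool.Agent.Perc.Ex_add, Q]
    refine Pool.Agent.Perc.Ex_congr fun S _ => ?_
    rw [eA, eB]; ring
  have h12 := Pool.Agent.Perc.harris_mono_anti p.2.1 p.2.2 mf1 mg2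
  have h21 := Pool.Agent.Perc.harris_mono_anti p.2.1 p.2.2 mf2 mg1
  have h22 := Pool.Agent.Perc.harris_mono_anti p.2.1 p.2.2 mf2 mg2
  rw [E1, E4] at h12
  rw [E2, E3] at h21
  rw [E2, E4] at h22
  have sA := Pr_split (p := p) hA lG
  have sB := Pr_split (p := p) hB lH
  -- lower bound for the product of the means
  have low1 : Pr p Go * Pr p Gc * Pr p R2 ≤ Pr p (A ∩ G) := by
    refine (Pr_three_ge l2 lGo lGc dGc2 dGoGc.symm (fkg l2 lGo i2 iGo)).trans (Pr_mono ?_)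
    rintro ω ⟨h1, h2, h3⟩
    exact ⟨hA1 ⟨h1, h2⟩, h2, h3⟩
  have low2 : Pr p Hc * Pr p Ho * Pr p R1ᶜ ≤ Pr p (B ∩ H) := by
    refine (Pr_three_ge l1'.compl lHc lHo dHo1 dHoHc
      (fkg_decr l1.compl lHc (by rwa [compl_compl]) iHc)).trans (Pr_mono ?_)
    rintro ω ⟨h1, h2, h3⟩
    exact ⟨hB1 ⟨h1, h2⟩, h2, h3⟩
  -- upper bound for the joint term
  have up1 : ∀ S, f1 S ≤ Pr p Go * Pr p Gc * Pr p (pe U S R1) := by
    intro S
    have h1 : f1 S ≤ Pr p (pe U S R1 ∩ (Go ∩ Gc)) := by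
      refine Pr_mono ?_
      have : pe U S (A ∩ G) = pe U S A ∩ G := by rw [pe_inter, pG]
      rw [this]
      rintro ω ⟨h1, h2⟩
      refine ⟨?_, h2⟩
      have h3 : ω ∈ pe U S (A ∩ Gc) := by
        rw [pe_inter, pGc]
        exact ⟨h1, h2.2⟩
      exact pe_mono hA2 h3
    refine h1.trans (Pr_three_le (pe_local' l1) lGo lGc dGo1 dGoGc
      (fkg_mixed (pe_local' l1) lGc (pe_incr i1) iGc))
  have up2 : ∀ S, g1 S ≤ Pr p Hc * Pr p Ho * Pr p (pe U S R2ᶜ) := by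
    intro S
    have h1 : g1 S ≤ Pr p (pe U S R2ᶜ ∩ (Hc ∩ Ho)) := by
      refine Pr_mono ?_
      have : pe U S (B ∩ H) = pe U S B ∩ H := by rw [pe_inter, pH]
      rw [this]
      rintro ω ⟨h1, h2⟩
      refine ⟨?_, h2⟩
      have h3 : ω ∈ pe U S (B ∩ Ho) := by
        rw [pe_inter, pHo]
        exact ⟨h1, h2.2⟩
      exact pe_mono hB2 h3
    refine h1.trans (Pr_three_le (pe_local' l2'.compl) lHc lHo dHc2 dHoHc.symm ?_)
    have h2 := fkg_mixed (p := p) lHo (pe_local' (T := U) (S := S) l2.compl) iHo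
      (by rw [← pe_compl, compl_compl]; exact pe_incr i2)
    rw [Set.inter_comm, mul_comm]
    exact h2
  set ΓA := Pr p Go * Pr p Gc with hΓA
  set ΓB := Pr p Hc * Pr p Ho with hΓB
  have ΓA0 : 0 ≤ ΓA := mul_nonneg Pr_nonneg Pr_nonneg
  have ΓB0 : 0 ≤ ΓB := mul_nonneg Pr_nonneg Pr_nonneg
  have hR : Ex (p : ℝ) U (fun S => Pr p (pe U S R1) * Pr p (pe U S R2ᶜ)) ≤ Pr p R1 - Pr p R2 := by
    rw [Pr_eq_pe l1 U, Pr_eq_pe l2 U, ← Pool.Agent.Perc.Ex_sub]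
    refine Pool.Agent.Perc.Ex_mono p.2.1 p.2.2 fun S _ => ?_
    have hc : Pr p (pe U S R2ᶜ) = 1 - Pr p (pe U S R2) := by
      rw [pe_compl, Pr_compl (pe_local' l2)]
    have h0 := pe_full (p := p) (S := S) l0
    have hm1 : Pr p (pe U S R0) ≤ Pr p (pe U S R1) := Pr_mono (pe_mono h01)
    have hm2 : Pr p (pe U S R2) ≤ Pr p (pe U S R0) := Pr_mono (pe_mono h20)
    have hr1 : Pr p (pe U S R1) ≤ 1 := Pr_le_one
    have hr2 : 0 ≤ Pr p (pe U S R2) := Pr_nonneg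
    rw [hc]
    by_cases hS : ofS S ∈ R0
    · rw [ind_of (A := fun S => ofS S ∈ R0) hS] at h0
      have : Pr p (pe U S R1) = 1 := by linarith
      rw [this]; linarith
    · rw [ind_of_not (A := fun S => ofS S ∈ R0) hS] at h0
      have : Pr p (pe U S R2) = 0 := by linarith
      rw [this]; linarith
  have joint : Ex (p : ℝ) U (fun S => f1 S * g1 S) ≤ ΓA * ΓB * (Pr p R1 - Pr p R2) := by
    calc Ex (p : ℝ) U (fun S => f1 S * g1 S)
        ≤ Ex (p : ℝ) U (fun S => (ΓA * ΓB) * (Pr p (pe U S R1) * Pr p (pe U S R2ᶜ))) := by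
          refine Pool.Agent.Perc.Ex_mono p.2.1 p.2.2 fun S _ => ?_
          calc f1 S * g1 S ≤ (ΓA * Pr p (pe U S R1)) * (ΓB * Pr p (pe U S R2ᶜ)) :=
                mul_le_mul (up1 S) (up2 S) Pr_nonneg (mul_nonneg ΓA0 Pr_nonneg)
            _ = _ := by ring
      _ = ΓA * ΓB * Ex (p : ℝ) U (fun S => Pr p (pe U S R1) * Pr p (pe U S R2ᶜ)) := by
          rw [Pool.Agent.Perc.Ex_const_mul]
      _ ≤ _ := mul_le_mul_of_nonneg_left hR (mul_nonneg ΓA0 ΓB0)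
  have prod : (ΓA * Pr p R2) * (ΓB * (1 - Pr p R1)) ≤ Pr p (A ∩ G) * Pr p (B ∩ H) := by
    rw [← Pr_compl l1]
    exact mul_le_mul low1 low2 (mul_nonneg ΓB0 Pr_nonneg) Pr_nonneg
  rw [hsum, sA, sB]
  nlinarith [joint, prod, h12, h21, h22]

end Pool.Agent.H85.Strict
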