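import Pool.Agent.H89.Perc.FKG

/-!
# Conditioning on the states of finitely many edges, and a coupling functional
-/

open MeasureTheory ProbabilityTheory unitInterval

namespace Pool.Agent.H85.Strict

open Pool.Agent.H89.Perc
open Pool.Agent.Perc (Ex ind ind_of ind_of_not ind_congr ind_mul ind_le_ind MonoOnF AntiOnF)

/-- Replace the states of the edges in `T` by the indicator of `S`. -/
def patch (T S : Finset Edge) (ω : Config) : Config :=
  fun e => if e ∈ T then decide (e ∈ S) else ω e

theorem patch_mem {T S : Finset Edge} {ω : Config} {e : Edge} (h : e ∈ T) :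
    patch T S ω e = decide (e ∈ S) := by simp [patch, h]

theorem patch_notMem {T S : Finset Edge} {ω : Config} {e : Edge} (h : e ∉ T) :
    patch T S ω e = ω e := by simp [patch, h]

/-- The event that the patched configuration is in `A`. -/
def pe (T S : Finset Edge) (A : Set Config) : Set Config := {ω | patch T S ω ∈ A}

variable {p : I} {s t T T' U S S' : Finset Edge} {A B : Set Config}

theorem mem_pe {ω : Config} : ω ∈ pe T S A ↔ patch T S ω ∈ A := Iff.rfl

theorem pe_compl : pe T S Aᶜ = (pe T S A)ᶜ := rfl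

theorem pe_inter : pe T S (A ∩ B) = pe T S A ∩ pe T S B := rfl

theorem pe_mono (h : A ⊆ B) : pe T S A ⊆ pe T S B := fun _ hω => h hω

theorem pe_local (h : LocalOn s A) : LocalOn (s \ T) (pe T S A) := by
  intro ω ω' hω hA
  refine h _ _ (fun e he => ?_) hA
  by_cases heT : e ∈ T
  · rw [patch_mem heT, patch_mem heT]
  · rw [patch_notMem heT, patch_notMem heT]
    exact hω e (Finset.mem_sdiff.2 ⟨he, heT⟩)

theorem pe_local' (h : LocalOn s A) : LocalOn s (pe T S A) :=
  (pe_local h).mono Finset.sdiff_subset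

theorem pe_incr (h : Incr A) : Incr (pe T S A) := by
  intro ω ω' hω hA
  refine h _ _ (fun e he => ?_) hA
  by_cases heT : e ∈ T
  · rwa [patch_mem heT] at he ⊢
  · rw [patch_notMem heT] at he ⊢
    exact hω e he

theorem pe_eq_self (h : LocalOn s A) (hd : Disjoint s T) : pe T S A = A := by
  ext ω
  have : ∀ e ∈ s, patch T S ω e = ω e := fun e he =>
    patch_notMem (Finset.disjoint_left.1 hd he)
  exact ⟨h _ _ this, h _ _ fun e he => (this e he).symm⟩

theorem pe_mono_right (iA : Incr A) (h : S ⊆ S') : pe T S A ⊆ pe T S' A := by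
  intro ω hA
  refine iA _ _ (fun e he => ?_) hA
  by_cases heT : e ∈ T
  · rw [patch_mem heT] at he ⊢
    simp only [decide_eq_true_eq] at he ⊢
    exact h he
  · rwa [patch_notMem heT] at he ⊢

theorem pe_union (hTU : Disjoint T U) (hS : S ⊆ T) (hS' : S' ⊆ U) :
    pe (T ∪ U) (S ∪ S') A = pe U S' (pe T S A) := by
  ext ω
  simp only [mem_pe]
  have : patch (T ∪ U) (S ∪ S') ω = patch T S (patch U S' ω) := by
    funext e
    by_cases heT : e ∈ T
    · rw [patch_mem (Finset.mem_union_left _ heT), patch_mem heT, decide_eq_decide,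
        Finset.mem_union]
      have : e ∉ S' := fun h => Finset.disjoint_left.1 hTU heT (hS' h)
      tauto
    · rw [patch_notMem heT]
      by_cases heU : e ∈ U
      · rw [patch_mem (Finset.mem_union_right _ heU), patch_mem heU, decide_eq_decide,
          Finset.mem_union]
        have : e ∉ S := fun h => heT (hS h)
        tauto
      · rw [patch_notMem heU, patch_notMem (by simp [heT, heU])]
  rw [this]

/-- Total probability. -/
theorem Pr_eq_pe (hA : LocalOn s A) (T : Finset Edge) :
    Pr p A = Ex (p : ℝ) T (fun S => Pr p (pe T S A)) := by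
  have hd : Disjoint T (s \ T) := Finset.disjoint_sdiff
  have hl : LocalOn (T ∪ (s \ T)) A := hA.mono (by
    intro e he
    rw [Finset.union_sdiff_self_eq_union]
    exact Finset.mem_union_right _ he)
  rw [Pr_eq_Ex hl, Pool.Agent.Perc.Ex_union hd]
  refine Pool.Agent.Perc.Ex_congr fun S hS => ?_
  rw [Pr_eq_Ex (pe_local hA)]
  refine Pool.Agent.Perc.Ex_congr fun S' hS' => ?_
  refine ind_congr ?_
  rw [mem_pe]
  have : ofS (S ∪ S') = patch T S (ofS S') := by
    funext e
    by_cases heT : e ∈ T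
    · rw [patch_mem heT, ofS_apply, decide_eq_decide, Finset.mem_union]
      have : e ∉ S' := fun h => (Finset.mem_sdiff.1 (hS' h)).2 heT
      tauto
    · rw [patch_notMem heT, ofS_apply, ofS_apply, decide_eq_decide, Finset.mem_union]
      have : e ∉ S := fun h => heT (hS h)
      tauto
  rw [this]

/-- The coupling functional: the probability of `A` and `B` for two configurations which agree on
`T` and are independent off `T`. -/
noncomputable def Q (p : I) (T : Finset Edge) (A B : Set Config) : ℝ :=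
  Ex (p : ℝ) T (fun S => Pr p (pe T S A) * Pr p (pe T S B))

theorem Q_empty : Q p ∅ A B = Pr p A * Pr p B := by
  have : ∀ A : Set Config, pe ∅ ∅ A = A := by
    intro A
    ext ω
    have : patch ∅ ∅ ω = ω := by funext e; simp [patch]
    rw [mem_pe, this]
  rw [Q, Pool.Agent.Perc.Ex_empty, this, this]

theorem Q_union (hTU : Disjoint T U) :
    Q p (T ∪ U) A B = Ex (p : ℝ) T (fun S => Q p U (pe T S A) (pe T S B)) := by
  rw [Q, Pool.Agent.Perc.Ex_union hTU]
  refine Pool.Agent.Perc.Ex_congr fun S hS => ?_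
  rw [Q]
  refine Pool.Agent.Perc.Ex_congr fun S' hS' => ?_
  rw [pe_union hTU hS hS', pe_union hTU hS hS']

theorem mono_pe (iA : Incr A) (U : Finset Edge) : MonoOnF U (fun S => Pr p (pe U S A)) :=
  fun _ _ h _ => Pr_mono (pe_mono_right iA h)

theorem anti_pe (iB : Incr Bᶜ) (U : Finset Edge) : AntiOnF U (fun S => Pr p (pe U S B)) := by
  intro S S' h _
  refine Pr_mono fun ω hω => ?_
  by_contra hc
  exact (pe_mono_right (T := U) iB h : pe U S Bᶜ ⊆ pe U S' Bᶜ) hc hω

theorem Q_le (hA : LocalOn s A) (hB : LocalOn t B) (iA : Incr A) (iB : Incr Bᶜ)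
    (U : Finset Edge) : Q p U A B ≤ Pr p A * Pr p B := by
  rw [Q, Pr_eq_pe hA U, Pr_eq_pe hB U]
  exact Pool.Agent.Perc.harris_mono_anti p.2.1 p.2.2 (mono_pe iA U) (anti_pe iB U)

theorem Q_anti (hA : LocalOn s A) (hB : LocalOn t B) (iA : Incr A) (iB : Incr Bᶜ)
    (h : T ⊆ T') : Q p T' A B ≤ Q p T A B := by
  have hd : Disjoint T (T' \ T) := Finset.disjoint_sdiff
  have hu : T ∪ (T' \ T) = T' := Finset.union_sdiff_of_subset h
  rw [← hu, Q_union hd]
  conv_rhs => rw [Q]
  refine Pool.Agent.Perc.Ex_mono p.2.1 p.2.2 fun S _ => ?_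
  exact Q_le (pe_local' hA) (pe_local' hB) (pe_incr iA) (pe_incr iB) _

theorem pe_full (hA : LocalOn T A) : Pr p (pe T S A) = ind (fun S => ofS S ∈ A) S := by
  have h1 : ∀ ω : Config, ω ∈ pe T S A ↔ ofS S ∈ A := by
    intro ω
    rw [mem_pe]
    have : ∀ e ∈ T, patch T S ω e = ofS S e := fun e he => by
      rw [patch_mem he, ofS_apply]
    exact ⟨hA _ _ this, hA _ _ fun e he => (this e he).symm⟩
  by_cases h : ofS S ∈ A
  · rw [ind_of (A := fun S => ofS S ∈ A) h]
    have : pe T S A = Set.univ := Set.eq_univ_of_forall fun ω => (h1 ω).2 h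
    rw [this, Pr_univ]
  · rw [ind_of_not (A := fun S => ofS S ∈ A) h]
    have : pe T S A = ∅ := Set.eq_empty_of_forall_notMem fun ω hω => h ((h1 ω).1 hω)
    rw [this]
    simp [Pr]

theorem Q_full (hA : LocalOn T A) (hB : LocalOn T B) : Q p T A B = Pr p (A ∩ B) := by
  rw [Q, Pr_eq_Ex (hA.inter hB)]
  refine Pool.Agent.Perc.Ex_congr fun S _ => ?_
  rw [pe_full hA, pe_full hB, ind_mul]
  rfl

theorem Q_nonneg : 0 ≤ Q p T A B :=
  Pool.Agent.Perc.Ex_nonneg p.2.1 p.2.2 fun _ _ => mul_nonneg Pr_nonneg Pr_nonneg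

/-- Iteration step: a contraction for the patched events gives a contraction for `Q`. -/
theorem Q_step (hA : LocalOn s A) (hB : LocalOn t B) (iA : Incr A) (iB : Incr Bᶜ)
    (hTU : Disjoint T U) (hT : T ⊆ T') (hU : U ⊆ T') {c : ℝ}
    (h : ∀ S, S ⊆ T → Q p U (pe T S A) (pe T S B) ≤ c * (Pr p (pe T S A) * Pr p (pe T S B))) :
    Q p T' A B ≤ c * Q p T A B := by
  refine (Q_anti hA hB iA iB (Finset.union_subset hT hU)).trans ?_
  rw [Q_union hTU, Q, ← Pool.Agent.Perc.Ex_const_mul]
  exact Pool.Agent.Perc.Ex_mono p.2.1 p.2.2 fun S hS => h S hS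

end Pool.Agent.H85.Strict
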