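import Pool.Agent.H57.LF.Rule

/-!
# Revealment of the exploration of a rectangle in terms of two-arm events
-/

open MeasureTheory ProbabilityTheory unitInterval

namespace Pool.Agent.H85.Strict

open Pool.Agent.H89.Perc Pool.Agent.H57.LF

private lemma expl_succ' (R : Rule) (ω : Config) (n : ℕ) :
    expl R ω (n + 1) = explStep R ω (expl R ω n) := by
  simp only [expl, Function.iterate_succ_apply']

private lemma expl_inv (R : Rule) (ω : Config) (n : ℕ) :
    (∀ e ∈ (expl R ω n).1, ω e = true) ∧ (∀ e ∈ (expl R ω n).2, ω e = false) := by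
  induction n with
  | zero => simp [expl]
  | succ n ih =>
    rw [expl_succ']
    unfold explStep
    cases h : R (expl R ω n).1 (expl R ω n).2 with
    | none => simpa using ih
    | some e =>
      by_cases hω : ω e = true
      · simp only [hω, if_true, Finset.mem_insert]
        exact ⟨fun e' he' => he'.elim (fun h => h ▸ hω) (ih.1 e'), ih.2⟩
      · simp only [if_neg hω, Finset.mem_insert]
        exact ⟨ih.1, fun e' he' => he'.elim (fun h => h ▸ by simpa using hω) (ih.2 e')⟩

private lemma exists_step_of_queried (R : Rule) (ω : Config) (n : ℕ) {e : Edge}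
    (he : e ∈ queried R ω n) :
    ∃ m, R (expl R ω m).1 (expl R ω m).2 = some e := by
  induction n with
  | zero => simp [queried, expl] at he
  | succ n ih =>
    by_cases h : e ∈ queried R ω n
    · exact ih h
    refine ⟨n, ?_⟩
    rw [queried, expl_succ'] at he
    unfold explStep at he
    rw [queried] at h
    cases h' : R (expl R ω n).1 (expl R ω n).2 with
    | none => simp only [h'] at he; exact absurd he h
    | some e' =>
      simp only [h'] at he
      by_cases hω : ω e' = true
      · simp only [hω, if_true, Finset.mem_union, Finset.mem_insert] at he h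
        have : e = e' := by tauto
        rw [this]
      · simp only [if_neg hω, Finset.mem_union, Finset.mem_insert] at he h
        have : e = e' := by tauto
        rw [this]

/-- Queried edges have an open arm to the left side and a dual arm to the bottom side. -/
theorem reveal {a b c d : ℤ} (q : I) (n : ℕ) {e : Edge} (he : e ∈ eRect a b c d) {B : ℝ}
    (hev : ∀ u φ : Vert, |φ.1 - u.1| ≤ 1 → |φ.2 - u.2| ≤ 1 →
      Pr q (Arm u (e.1 - a).toNat ∩ {ω | dual ω ∈ Arm φ (e.2.1 - c).toNat}) ≤ B) :
    Pr q {ω | e ∈ queried (rectRule a b c d) ω n} ≤ 4 * B := by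
  set k := (e.1 - a).toNat with hk
  set l := (e.2.1 - c).toNat with hl
  have her : a ≤ e.1 ∧ e.1 ≤ b ∧ c ≤ e.2.1 ∧ e.2.1 ≤ d := mem_eRect.1 he
  have hk' : (k : ℤ) = e.1 - a := by rw [hk]; omega
  have hl' : (l : ℤ) = e.2.1 - c := by rw [hl]; omega
  set φ' : Vert := if e.2.2 then (e.1 - 1, e.2.1) else (e.1, e.2.1 - 1) with hφ'
  have hsub : {ω | e ∈ queried (rectRule a b c d) ω n} ⊆
      ((Arm (src e) k ∩ {ω | dual ω ∈ Arm (src e) l}) ∪
        (Arm (src e) k ∩ {ω | dual ω ∈ Arm φ' l})) ∪
      ((Arm (tgt e) k ∩ {ω | dual ω ∈ Arm (src e) l}) ∪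
        (Arm (tgt e) k ∩ {ω | dual ω ∈ Arm φ' l})) := by
    intro ω hω
    obtain ⟨m, hm⟩ := exists_step_of_queried _ _ _ hω
    obtain ⟨_, _, _, _, hV, φ, hφ, hφr⟩ := rectRule_spec hm
    obtain ⟨hO, hC⟩ := expl_inv (rectRule a b c d) ω m
    have hArm : ∀ u : Vert, u ∈ reachL a b c d (expl (rectRule a b c d) ω m).1 →
        a + k ≤ u.1 → ω ∈ Arm u k := by
      rintro u ⟨w, hw, hc⟩ h1
      have hc' : Conn ω (rect a b c d) u w :=
        (hc.mono le_rfl fun e' he' => hO e' (by simpa using he')).symm
      refine hc'.mem_arm (Or.inl ?_)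
      rw [hw]
      rcases abs_cases (a - u.1) with h5 | h5 <;> omega
    have hDual : ∀ φ : Vert, φ ∈ reachB a b c d (expl (rectRule a b c d) ω m).2 →
        c - 1 + l ≤ φ.2 → dual ω ∈ Arm φ l := by
      rintro u ⟨w, hw, hc⟩ h1
      have hc' : Conn (dual ω) (rect a (b - 1) (c - 1) d) u w :=
        (hc.mono le_rfl fun e' he' => by
          simp only [decide_eq_true_eq] at he'
          simp [dual, hC _ he']).symm
      refine hc'.mem_arm (Or.inr ?_)
      rw [hw]
      rcases abs_cases (c - 1 - u.2) with h5 | h5 <;> omega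
    have hsrcA : src e ∈ reachL a b c d (expl (rectRule a b c d) ω m).1 → ω ∈ Arm (src e) k :=
      fun h => hArm _ h (by simp only [src]; omega)
    have htgtA : tgt e ∈ reachL a b c d (expl (rectRule a b c d) ω m).1 → ω ∈ Arm (tgt e) k :=
      fun h => by
        apply hArm _ h; unfold tgt; split_ifs <;> simp only <;> omega
    have hD1 : src e ∈ reachB a b c d (expl (rectRule a b c d) ω m).2 →
        dual ω ∈ Arm (src e) l := fun h => hDual _ h (by simp only [src]; omega)
    have hD2 : φ' ∈ reachB a b c d (expl (rectRule a b c d) ω m).2 → dual ω ∈ Arm φ' l :=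
      fun h => by
        apply hDual _ h; rw [hφ']; split_ifs <;> simp only <;> omega
    rcases hφ with hφ | hφ
    · subst hφ
      rcases hV with hV | hV
      · exact Or.inl (Or.inl ⟨hsrcA hV, hD1 hφr⟩)
      · exact Or.inr (Or.inl ⟨htgtA hV, hD1 hφr⟩)
    · rw [← hφ'] at hφ
      subst hφ
      rcases hV with hV | hV
      · exact Or.inl (Or.inr ⟨hsrcA hV, hD2 hφr⟩)
      · exact Or.inr (Or.inr ⟨htgtA hV, hD2 hφr⟩)
  refine (Pr_mono hsub).trans ?_
  refine (Pr_union_le).trans ?_
  have ha := hev (src e) (src e) (by simp) (by simp)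
  have hb := hev (src e) φ' (by rw [hφ']; simp only [src]; split_ifs <;> simp)
    (by rw [hφ']; simp only [src]; split_ifs <;> simp)
  have hc := hev (tgt e) (src e) (by unfold tgt; simp only [src]; split_ifs <;> simp)
    (by unfold tgt; simp only [src]; split_ifs <;> simp)
  have hd := hev (tgt e) φ'
    (by rw [hφ']; unfold tgt; split_ifs <;> simp)
    (by rw [hφ']; unfold tgt; split_ifs <;> simp)
  have hl1 := Pr_union_le (p := q) (A := Arm (src e) k ∩ {ω | dual ω ∈ Arm (src e) l})
    (B := Arm (src e) k ∩ {ω | dual ω ∈ Arm φ' l})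
  have hl2 := Pr_union_le (p := q) (A := Arm (tgt e) k ∩ {ω | dual ω ∈ Arm (src e) l})
    (B := Arm (tgt e) k ∩ {ω | dual ω ∈ Arm φ' l})
  linarith

end Pool.Agent.H85.Strict
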