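import Pool.Agent.H85.Strict.Supp

/-!
# The events on one side of the decoupling argument and their probabilities
-/

open MeasureTheory ProbabilityTheory unitInterval

namespace Pool.Agent.H85.Strict

open Pool.Agent.H89.Perc

/-- The configuration seen through a relabelling of the edges, with open and closed edges exchanged
if `b` is true. -/
def Fl (b : Bool) (ψ : Edge → Edge) (ω : Config) : Config := fun e => xor b (ω (ψ e))

/-- The density of `Fl b ψ ω`. -/
noncomputable def den (b : Bool) (p : I) : I := if b = true then σ p else p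

variable {b : Bool} {ψ : Edge → Edge} {s t T S : Finset Edge} {E F : Set Config} {p : I}

theorem local_fl (h : LocalOn s E) : LocalOn (s.image ψ) {ω | Fl b ψ ω ∈ E} := by
  intro ω ω' hω hE
  refine h _ _ (fun e he => ?_) hE
  simp only [Fl]
  rw [hω _ (Finset.mem_image_of_mem ψ he)]

theorem pr_fl (h : LocalOn s E) (hψ : Function.Injective ψ) :
    Pr p {ω | Fl b ψ ω ∈ E} = Pr (den b p) E := by
  cases b
  · have := Pr_comp (p := p) h (φ := ψ) hψ.injOn
    have e : ∀ ω : Config, Fl false ψ ω = fun e => ω (ψ e) := fun ω => by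
      funext e; simp [Fl]
    simp only [e, den, Bool.false_eq_true, if_false]
    exact this
  · have := Pr_comp_not (p := p) h (φ := ψ) hψ.injOn
    have e : ∀ ω : Config, Fl true ψ ω = fun e => !ω (ψ e) := fun ω => by
      funext e; simp [Fl]
    simp only [e, den, if_true]
    exact this

theorem incr_fl_false (h : Incr E) : Incr {ω | Fl false ψ ω ∈ E} := by
  intro ω ω' hω hE
  refine h _ _ (fun e he => ?_) hE
  simp only [Fl, Bool.false_xor] at he ⊢
  exact hω _ he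

theorem decr_fl_true (h : Incr E) : Incr {ω | Fl true ψ ω ∈ E}ᶜ := by
  intro ω ω' hω hE hE'
  refine hE (h _ _ (fun e he => ?_) hE')
  simp only [Fl, Bool.true_xor, Bool.not_eq_true'] at he ⊢
  by_contra hc
  rw [Bool.not_eq_false] at hc
  rw [hω _ hc] at he
  exact absurd he (by decide)

theorem decr_fl_false (h : Incr Eᶜ) : Incr {ω | Fl false ψ ω ∈ E}ᶜ := by
  intro ω ω' hω hE
  exact incr_fl_false (ψ := ψ) h ω ω' hω hE

theorem incr_fl_true (h : Incr Eᶜ) : Incr {ω | Fl true ψ ω ∈ E} := by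
  have := decr_fl_true (ψ := ψ) h
  have e : {ω | Fl true ψ ω ∈ Eᶜ}ᶜ = {ω | Fl true ψ ω ∈ E} := by
    ext ω; simp
  rwa [e] at this

theorem fkg_fl (hE : LocalOn s E) (hF : LocalOn t F) (iE : Incr E) (iF : Incr F) :
    Pr p (pe T S {ω | Fl b ψ ω ∈ E}) * Pr p (pe T S {ω | Fl b ψ ω ∈ F}) ≤
      Pr p (pe T S {ω | Fl b ψ ω ∈ E ∩ F}) := by
  cases b
  · exact fkg (pe_local' (local_fl hE)) (pe_local' (local_fl hF)) (pe_incr (incr_fl_false iE))
      (pe_incr (incr_fl_false iF))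
  · exact fkg_decr (pe_local' (local_fl hE)) (pe_local' (local_fl hF))
      (by rw [← pe_compl]; exact pe_incr (decr_fl_true iE))
      (by rw [← pe_compl]; exact pe_incr (decr_fl_true iF))

theorem arm_subset_arm {r r' : ℕ} (h : r ≤ r') : Arm 0 r' ⊆ Arm 0 r := by
  rintro ω ⟨u, hu, hc⟩
  refine hc.mem_arm ?_
  have h0 : ((0 : Vert).1) = 0 := rfl
  have h1 : ((0 : Vert).2) = 0 := rfl
  obtain ⟨hb, hs⟩ := hu
  simp only [mem_ball, h0, h1] at hb hs
  rw [h0, h1]
  rcases abs_cases (u.1 - 0) with h3 | h3 <;> rcases abs_cases (u.2 - 0) with h4 | h4 <;> omega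

variable {n W N : ℕ} {X w Y h : ℤ}

/-- The open event. -/
def goE (n W N : ℕ) (X w Y h : ℤ) : Set Config :=
  Arm 0 (6 * n) ∩ (AllCr (openL n W X w Y h) ∩ Ann (4 * W + 24 * n + 1) N)

/-- The closed event. -/
def gcE (n W : ℕ) (X w Y h : ℤ) : Set Config := {ω | dual ω ∈ AllCr (closedL n W X w Y h)}

theorem incr_ann (s r : ℕ) : Incr (Ann s r) := by
  rintro ω ω' h ⟨w, hw, u, hu, hc⟩
  exact ⟨w, hw, u, hu, hc.mono le_rfl h⟩

theorem localOn_arm0 (r : ℕ) : LocalOn (eBall r) (Arm 0 r) := by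
  have := localOn_arm 0 r
  simpa [eBall] using this

theorem local_goE (P : Par n W X w Y h) (hN : 4 * W + 32 * n ≤ N) :
    LocalOn (sO n W N X w Y h) (goE n W N X w Y h) := by
  refine LocalOn.inter ?_ (LocalOn.inter ?_ ?_)
  · exact (localOn_arm0 (6 * n)).mono Finset.subset_union_left
  · exact localOn_allCr (openL_sub P hN)
  · refine (localOn_ann _ _).mono ?_
    intro e he
    rw [mem_sO]
    rw [Finset.mem_sdiff, mem_eBall', mem_eBall'] at he
    push_cast at he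
    tauto

theorem incr_goE : Incr (goE n W N X w Y h) :=
  (incr_arm 0 _).inter ((incr_allCr _).inter (incr_ann _ _))

theorem local_gcE (P : Par n W X w Y h) : LocalOn (sC n W X w Y h) (gcE n W X w Y h) := by
  intro ω ω' hω hE r hr
  have h1 := ((localOn_ev r).dual'.mono (crossed_image.trans (closedL_sub P r hr)))
  exact h1 ω ω' hω (hE r hr)

theorem decr_gcE : Incr (gcE n W X w Y h)ᶜ := (incr_allCr _).dual_compl

theorem goE_sub (P : Par n W X w Y h) (hN : 4 * W + 32 * n ≤ N) :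
    {ω | HCross ω (X - 4 * n) (X + w + 4 * n) Y (Y + h)} ∩ goE n W N X w Y h ⊆ Arm 0 N := by
  rintro ω ⟨h1, h2, h3, h4⟩
  exact F1 P hN h2 h3 (ann_subset_armBox _ _ h4) h1

theorem gcE_sub (P : Par n W X w Y h) (hN : 4 * W + 32 * n ≤ N) :
    Arm 0 N ∩ gcE n W X w Y h ⊆ {ω | HCross ω X (X + w) (Y - 4 * n) (Y + h + 4 * n)} := by
  rintro ω ⟨h1, h2⟩
  exact F2 P (by have := P.hn; omega) h1 h2

theorem image_disj (hψ : Function.Injective ψ) (h : Disjoint s t) :
    Disjoint (s.image ψ) (t.image ψ) :=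
  (Finset.disjoint_image hψ).2 h

theorem off_T (hT : ∀ e, ψ e ∈ T → e ∈ eBall (2 * n)) {r : Finset Edge}
    (hr : ∀ e ∈ r, e ∉ eBall (2 * n)) : Disjoint (r.image ψ) T := by
  rw [Finset.disjoint_left]
  intro e he heT
  obtain ⟨f, hf, rfl⟩ := Finset.mem_image.1 he
  exact hr f hf (hT f heT)

/-- Lower bound for the probability of the open event. -/
theorem go_lower (P : Par n W X w Y h) (hN : 4 * W + 32 * n ≤ N) (hψ : Function.Injective ψ)
    (hT : ∀ e, ψ e ∈ T → e ∈ eBall (2 * n)) {K : ℕ} (hK : 8 * W + 64 * n ≤ K * n) {x : ℝ}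
    (hx : 0 ≤ x) (hcr : x ≤ Pr (den b p) {ω | HCross ω 0 (K * n) 0 n}) :
    x ^ 13 * Pr p (pe T S {ω | Fl b ψ ω ∈ Arm 0 N}) ≤
      Pr p (pe T S {ω | Fl b ψ ω ∈ goE n W N X w Y h}) := by
  have hn := P.hn
  have l1 : LocalOn (eBall (6 * n)) (Arm 0 (6 * n)) := localOn_arm0 _
  have l2 : LocalOn (eBall (4 * W + 32 * n) \ eBall (2 * n)) (AllCr (openL n W X w Y h)) :=
    localOn_allCr (openL_off P)
  have l3 : LocalOn (eBall N \ eBall (4 * W + 24 * n + 1)) (Ann (4 * W + 24 * n + 1) N) :=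
    localOn_ann _ _
  have f1 := fkg_fl (p := p) (b := b) (ψ := ψ) (T := T) (S := S) l1 (l2.inter' l3) (incr_arm 0 _)
    ((incr_allCr _).inter (incr_ann _ _))
  have f2 := fkg_fl (p := p) (b := b) (ψ := ψ) (T := T) (S := S) l2 l3 (incr_allCr _)
    (incr_ann _ _)
  have e2 : Pr p (pe T S {ω | Fl b ψ ω ∈ AllCr (openL n W X w Y h)}) =
      Pr (den b p) (AllCr (openL n W X w Y h)) := by
    rw [pe_eq_self (local_fl l2) (off_T hT fun e he => (Finset.mem_sdiff.1 he).2), pr_fl l2 hψ]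
  have e3 : x ^ 13 ≤ Pr (den b p) (AllCr (openL n W X w Y h)) :=
    allCr_lower hx (fun r hr => good_lower hcr (openL_good P hK r hr))
  have f3 : Pr p (pe T S {ω | Fl b ψ ω ∈ Arm 0 N}) ≤
      Pr p (pe T S {ω | Fl b ψ ω ∈ Arm 0 (6 * n)}) *
        Pr p (pe T S {ω | Fl b ψ ω ∈ Ann (4 * W + 24 * n + 1) N}) := by
    rw [← Pr_inter_of_disjoint (pe_local' (local_fl l1)) (pe_local' (local_fl l3))
      (image_disj hψ ?_)]
    · refine Pr_mono ?_
      intro ω hω
      exact ⟨arm_subset_arm (by omega) hω, arm_subset_ann (by omega) le_rfl hω⟩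
    · rw [Finset.disjoint_left]
      intro e h1 h2
      rw [Finset.mem_sdiff] at h2
      exact h2.2 (eBall_subset (by omega) h1)
  set a1 := Pr p (pe T S {ω | Fl b ψ ω ∈ Arm 0 (6 * n)})
  set a2 := Pr p (pe T S {ω | Fl b ψ ω ∈ AllCr (openL n W X w Y h)})
  set a3 := Pr p (pe T S {ω | Fl b ψ ω ∈ Ann (4 * W + 24 * n + 1) N})
  have h1 : 0 ≤ a1 := Pr_nonneg
  have h3 : 0 ≤ a3 := Pr_nonneg
  calc x ^ 13 * Pr p (pe T S {ω | Fl b ψ ω ∈ Arm 0 N}) ≤ x ^ 13 * (a1 * a3) :=
        mul_le_mul_of_nonneg_left f3 (by positivity)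
    _ ≤ a2 * (a1 * a3) := mul_le_mul_of_nonneg_right (e3.trans e2.ge) (by positivity)
    _ = a1 * (a2 * a3) := by ring
    _ ≤ a1 * Pr p (pe T S {ω | Fl b ψ ω ∈ AllCr (openL n W X w Y h) ∩
          Ann (4 * W + 24 * n + 1) N}) := mul_le_mul_of_nonneg_left f2 h1
    _ ≤ _ := f1

/-- Lower bound for the probability of the closed event. -/
theorem gc_lower (P : Par n W X w Y h) (hψ : Function.Injective ψ)
    (hT : ∀ e, ψ e ∈ T → e ∈ eBall (2 * n)) {K : ℕ} (hK : 8 * W + 64 * n ≤ K * n) {x : ℝ}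
    (hx : 0 ≤ x) (hcr : x ≤ Pr (den (!b) p) {ω | HCross ω 0 (K * n) 0 n}) :
    x ^ 7 ≤ Pr p (pe T S {ω | Fl b ψ ω ∈ gcE n W X w Y h}) := by
  have l1 : LocalOn (sC n W X w Y h) (gcE n W X w Y h) := local_gcE P
  rw [pe_eq_self (local_fl l1)
    (off_T hT fun e he => (Finset.mem_sdiff.1 (sC_off P he)).2)]
  have e1 : {ω | Fl b ψ ω ∈ gcE n W X w Y h} =
      {ω | Fl (!b) (ψ ∘ crossed) ω ∈ AllCr (closedL n W X w Y h)} := by
    ext ω
    have : dual (Fl b ψ ω) = Fl (!b) (ψ ∘ crossed) ω := by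
      funext e
      simp only [dual, Fl, Function.comp_apply, Bool.not_xor]
    simp only [gcE, Set.mem_ofPred_eq, this]
  obtain ⟨u, hu⟩ := exists_local_allCr (closedL n W X w Y h)
  rw [e1, pr_fl hu (hψ.comp crossed_injective)]
  exact allCr_lower hx (fun r hr => good_lower hcr (closedL_good P hK r hr))

end Pool.Agent.H85.Strict
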