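import Pool.Agent.H85.Strict.Side

/-!
# One step of the decoupling argument
-/

open MeasureTheory ProbabilityTheory unitInterval

namespace Pool.Agent.H85.Strict

open Pool.Agent.H89.Perc

/-- Relabelling of the edges for the dual side. -/
def psB (φ : Vert) (e : Edge) : Edge := crossed (shiftE φ (swapE e))

theorem psB_injective (φ : Vert) : Function.Injective (psB φ) :=
  crossed_injective.comp ((shiftE_injective φ).comp swapE_injective)

theorem fl_psB (φ : Vert) (ω : Config) :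
    Fl true (psB φ) ω = fun e => (fun e => dual ω (shiftE φ e)) (swapE e) := by
  funext e
  simp [Fl, psB, dual]

theorem arm_swap {ω : Config} {r : ℕ} : (fun e => ω (swapE e)) ∈ Arm 0 r ↔ ω ∈ Arm 0 r := by
  have hb : {w : Vert | (w.2, w.1) ∈ ball 0 r} = ball 0 r := by
    ext w
    simp only [Set.mem_ofPred_eq, mem_ball, Prod.fst_zero, Prod.snd_zero]
    omega
  have hs : ∀ u : Vert, u ∈ sphere 0 r → (u.2, u.1) ∈ sphere 0 r := by
    intro u hu
    obtain ⟨h1, h2⟩ := hu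
    simp only [mem_ball, Prod.fst_zero, Prod.snd_zero] at h1 h2
    refine ⟨?_, ?_⟩
    · simp only [mem_ball, Prod.fst_zero, Prod.snd_zero]; omega
    · simp only [Prod.fst_zero, Prod.snd_zero]; omega
  constructor
  · rintro ⟨u, hu, hc⟩
    rw [conn_swap, hb] at hc
    exact ⟨(u.2, u.1), hs u hu, hc⟩
  · rintro ⟨u, hu, hc⟩
    refine ⟨(u.2, u.1), hs u hu, ?_⟩
    rw [conn_swap, hb]
    exact hc

theorem fl_arm (φ : Vert) (r : ℕ) :
    {ω | Fl true (psB φ) ω ∈ Arm 0 r} = {ω | dual ω ∈ Arm φ r} := by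
  ext ω
  have h1 : Fl true (psB φ) ω ∈ Arm 0 r ↔ (fun e => dual ω (shiftE φ e)) ∈ Arm 0 r := by
    rw [fl_psB]
    exact arm_swap (ω := fun e => dual ω (shiftE φ e))
  rw [Set.mem_ofPred_eq, h1, Set.mem_ofPred_eq, ← arm_shift φ r]
  rfl

theorem hcross_swap {ω : Config} {a b c d : ℤ} :
    HCross (fun e => ω (swapE e)) a b c d ↔ VCross ω c d a b := by
  have := vcross_swap (ω := fun e => ω (swapE e)) (a := a) (b := b) (c := c) (d := d)
  rw [← this]
  simp only [swapE_swapE]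

theorem fl_hcross (φ : Vert) (ω : Config) (a b c d : ℤ) :
    HCross (Fl true (psB φ) ω) a b c d ↔
      VCross (dual ω) (c + φ.1) (d + φ.1) (a + φ.2) (b + φ.2) := by
  rw [fl_psB]
  exact (hcross_swap (ω := fun e => dual ω (shiftE φ e))).trans
    (vcross_shift (ω := dual ω) φ.1 φ.2)

theorem psB_mem_ball {φ : Vert} (h1 : |φ.1| ≤ 1) (h2 : |φ.2| ≤ 1) {n : ℕ} (hn : 8 ≤ n) (e : Edge)
    (h : psB φ e ∈ eBall n) : e ∈ eBall (2 * n) := by
  rw [abs_le] at h1 h2
  rw [mem_eBall'] at h ⊢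
  obtain ⟨x, y, b⟩ := e
  push_cast
  cases b <;> simp [psB, swapE, shiftE, crossed] at h ⊢ <;> omega

theorem psB_mem_rect {φ : Vert} {X w Y h : ℤ} (e : Edge)
    (he : psB φ e ∈ eRect X (X + w) Y (Y + h)) :
    e ∈ eRect (Y - 1 - φ.2) (Y - 1 - φ.2 + (h + 1)) (X - φ.1 - 1) (X - φ.1 + (w - 1) + 1) := by
  rw [mem_eRect'] at he ⊢
  obtain ⟨x, y, b⟩ := e
  cases b <;> simp [psB, swapE, shiftE, crossed] at he ⊢ <;> omega

theorem disj_psB {φ : Vert} {X w Y h : ℤ} {s : Finset Edge}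
    (hs : Disjoint s (eRect (Y - 1 - φ.2) (Y - 1 - φ.2 + (h + 1)) (X - φ.1 - 1)
      (X - φ.1 + (w - 1) + 1))) :
    Disjoint (s.image (psB φ)) (eRect X (X + w) Y (Y + h)) := by
  rw [Finset.disjoint_left]
  intro e he he'
  obtain ⟨f, hf, rfl⟩ := Finset.mem_image.1 he
  exact Finset.disjoint_left.1 hs hf (psB_mem_rect f he')

theorem step {p : I} {n W K N₁ N₂ : ℕ} {X w Y h : ℤ} {φ : Vert} (hφ1 : |φ.1| ≤ 1)
    (hφ2 : |φ.2| ≤ 1) (P : Par n W X w Y h)
    (P' : Par n W (Y - 1 - φ.2) (h + 1) (X - φ.1) (w - 1)) (hK : 8 * W + 64 * n ≤ K * n)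
    {x δ : ℝ} (hx : 0 ≤ x) (h1 : x ≤ Pr p {ω | HCross ω 0 (K * n) 0 n})
    (h2 : x ≤ Pr (σ p) {ω | HCross ω 0 (K * n) 0 n}) (hN₁ : 4 * W + 32 * n ≤ N₁)
    (hN₂ : 4 * W + 32 * n ≤ N₂) (hδ0 : 0 ≤ δ)
    (hδ : δ ≤ Pr p {ω | HCross ω (X - 4 * n) (X + w + 4 * n) Y (Y + h)} *
        (1 - Pr p {ω | HCross ω X (X + w) (Y - 4 * n) (Y + h + 4 * n)}) -
      (Pr p {ω | HCross ω X (X + w) (Y - 4 * n) (Y + h + 4 * n)} -
        Pr p {ω | HCross ω (X - 4 * n) (X + w + 4 * n) Y (Y + h)}))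
    {T' : Finset Edge} (hT' : eBall n ⊆ T') (hU : eRect X (X + w) Y (Y + h) ⊆ T') :
    Q p T' (Arm 0 N₁) {ω | dual ω ∈ Arm φ N₂} ≤
      (1 - x ^ 40 * δ) * Q p (eBall n) (Arm 0 N₁) {ω | dual ω ∈ Arm φ N₂} := by
  classical
  have hn := P.hn
  obtain ⟨p1, p2, p3, p4, p5, p6, p7, p8, p9, p10⟩ := id P
  have dT : ∀ a b c d : ℤ, (n : ℤ) < a ∨ (n : ℤ) < c → Disjoint (eRect a b c d) (eBall n) := by
    intro a b c d hac
    rw [Finset.disjoint_left]
    intro e he he'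
    rw [mem_eRect'] at he
    rw [mem_eBall'] at he'
    omega
  refine Q_step (localOn_arm 0 N₁) (localOn_arm φ N₂).dual' (incr_arm 0 N₁)
    (incr_arm φ N₂).dual_compl (dT _ _ _ _ (Or.inl (by omega))).symm hT' hU ?_
  intro S _
  set T := eBall n with hTdef
  set R0 : Set Config := {ω | HCross ω X (X + w) Y (Y + h)} with hR0
  set R1 : Set Config := {ω | HCross ω X (X + w) (Y - 4 * n) (Y + h + 4 * n)} with hR1
  set R2 : Set Config := {ω | HCross ω (X - 4 * n) (X + w + 4 * n) Y (Y + h)} with hR2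
  have l0 : LocalOn (eRect X (X + w) Y (Y + h)) R0 := localOn_hcross _ _ _ _
  have l1 : LocalOn (eRect X (X + w) (Y - 4 * n) (Y + h + 4 * n)) R1 := localOn_hcross _ _ _ _
  have l2 : LocalOn (eRect (X - 4 * n) (X + w + 4 * n) Y (Y + h)) R2 := localOn_hcross _ _ _ _
  have e1 : pe T S R1 = R1 := pe_eq_self l1 (dT _ _ _ _ (Or.inl (by omega)))
  have e2 : pe T S R2 = R2 := pe_eq_self l2 (dT _ _ _ _ (Or.inl (by omega)))
  -- the block events seen from the dual side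
  have q1 : R1ᶜ = {ω | Fl true (psB φ) ω ∈ {ω | HCross ω (Y - 1 - φ.2 - 4 * n)
      (Y - 1 - φ.2 + (h + 1) + 4 * n) (X - φ.1) (X - φ.1 + (w - 1))}} := by
    ext ω
    simp only [Set.mem_compl_iff, Set.mem_ofPred_eq, hR1, fl_hcross]
    have a1 : X - φ.1 + φ.1 = X := by ring
    have a2 : X - φ.1 + (w - 1) + φ.1 = X + w - 1 := by ring
    have a3 : Y - 1 - φ.2 - 4 * n + φ.2 = Y - 4 * n - 1 := by ring
    have a4 : Y - 1 - φ.2 + (h + 1) + 4 * n + φ.2 = Y + h + 4 * n := by ring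
    rw [a1, a2, a3, a4]
    constructor
    · intro hno
      exact (hcross_or_dual_vcross (ω := ω) (by omega) (by omega)).resolve_left hno
    · intro hv hh
      exact not_hcross_and_dual_vcross (by omega) hh hv
  have q2 : R2ᶜ = {ω | Fl true (psB φ) ω ∈ {ω | HCross ω (Y - 1 - φ.2) (Y - 1 - φ.2 + (h + 1))
      (X - φ.1 - 4 * n) (X - φ.1 + (w - 1) + 4 * n)}} := by
    ext ω
    simp only [Set.mem_compl_iff, Set.mem_ofPred_eq, hR2, fl_hcross]
    have a1 : X - φ.1 - 4 * n + φ.1 = X - 4 * n := by ring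
    have a2 : X - φ.1 + (w - 1) + 4 * n + φ.1 = X + w + 4 * n - 1 := by ring
    have a3 : Y - 1 - φ.2 + φ.2 = Y - 1 := by ring
    have a4 : Y - 1 - φ.2 + (h + 1) + φ.2 = Y + h := by ring
    rw [a1, a2, a3, a4]
    constructor
    · intro hno
      exact (hcross_or_dual_vcross (ω := ω) (by omega) (by omega)).resolve_left hno
    · intro hv hh
      exact not_hcross_and_dual_vcross (by omega) hh hv
  have l1' : LocalOn ((eRect (Y - 1 - φ.2 - 4 * n) (Y - 1 - φ.2 + (h + 1) + 4 * n) (X - φ.1)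
      (X - φ.1 + (w - 1))).image (psB φ)) R1 := by
    have := (local_fl (b := true) (ψ := psB φ) (localOn_hcross (Y - 1 - φ.2 - 4 * n)
      (Y - 1 - φ.2 + (h + 1) + 4 * n) (X - φ.1) (X - φ.1 + (w - 1)))).compl
    rwa [← q1, compl_compl] at this
  have l2' : LocalOn ((eRect (Y - 1 - φ.2) (Y - 1 - φ.2 + (h + 1)) (X - φ.1 - 4 * n)
      (X - φ.1 + (w - 1) + 4 * n)).image (psB φ)) R2 := by
    have := (local_fl (b := true) (ψ := psB φ) (localOn_hcross (Y - 1 - φ.2)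
      (Y - 1 - φ.2 + (h + 1)) (X - φ.1 - 4 * n) (X - φ.1 + (w - 1) + 4 * n))).compl
    rwa [← q2, compl_compl] at this
  set X' := Y - 1 - φ.2 with hX'
  set w' := h + 1 with hw'
  set Y' := X - φ.1 with hY'
  set h' := w - 1 with hh'
  set B : Set Config := {ω | dual ω ∈ Arm φ N₂} with hB
  have hBeq : {ω | Fl true (psB φ) ω ∈ Arm 0 N₂} = B := fl_arm φ N₂
  have inj := psB_injective φ
  have hTB : ∀ e, psB φ e ∈ T → e ∈ eBall (2 * n) := fun e he => psB_mem_ball hφ1 hφ2 hn e he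
  have hTA : ∀ e, (id : Edge → Edge) e ∈ T → e ∈ eBall (2 * n) := fun e he =>
    eBall_subset (by omega) he
  have fid : ∀ E : Set Config, {ω | Fl false id ω ∈ E} = E := by
    intro E
    ext ω
    have : Fl false id ω = ω := by funext e; simp [Fl]
    rw [Set.mem_ofPred_eq, this]
  -- probabilities
  have b1 := go_lower (b := false) (p := p) (S := S) P hN₁ Function.injective_id hTA hK hx
    (by simpa [den] using h1)
  have b2 := gc_lower (b := false) (p := p) (S := S) P Function.injective_id hTA hK hx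
    (by simpa [den] using h2)
  have b3 := go_lower (b := true) (p := p) (S := S) P' hN₂ inj hTB hK hx
    (by simpa [den] using h2)
  have b4 := gc_lower (b := true) (p := p) (S := S) P' inj hTB hK hx
    (by simpa [den] using h1)
  rw [fid, fid] at b1
  rw [fid] at b2
  rw [hBeq] at b3
  have key := oneScale (p := p) (U := eRect X (X + w) Y (Y + h)) (A := pe T S (Arm 0 N₁))
    (B := pe T S B) (Go := pe T S (goE n W N₁ X w Y h)) (Gc := pe T S (gcE n W X w Y h))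
    (Ho := pe T S {ω | Fl true (psB φ) ω ∈ gcE n W X' w' Y' h'})
    (Hc := pe T S {ω | Fl true (psB φ) ω ∈ goE n W N₂ X' w' Y' h'})
    (R0 := R0) (R1 := R1) (R2 := R2)
    (pe_local' (localOn_arm 0 N₁)) (pe_local' (localOn_arm φ N₂).dual')
    (pe_incr (incr_arm 0 N₁)) (by rw [← pe_compl]; exact pe_incr (incr_arm φ N₂).dual_compl)
    (pe_local' (local_goE P hN₁)) (pe_incr incr_goE)
    (pe_local' (local_gcE P)) (by rw [← pe_compl]; exact pe_incr decr_gcE)
    (pe_local' (local_fl (local_gcE P'))) (pe_incr (incr_fl_true decr_gcE))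
    (pe_local' (local_fl (local_goE P' hN₂)))
    (by rw [← pe_compl]; exact pe_incr (decr_fl_true incr_goE))
    l0 l1 l2 (incr_hcross _ _ _ _) (incr_hcross _ _ _ _) l1' l2'
    (fun ω hω => HCross.mono hω (by omega) (by omega) (by omega) le_rfl le_rfl)
    (fun ω hω => HCross.mono hω le_rfl (by omega) le_rfl (by omega) (by omega))
    (by
      conv_lhs => rw [← e2]
      rw [← pe_inter]
      exact pe_mono (goE_sub P hN₁))
    (by
      rw [← pe_inter]
      conv_rhs => rw [← e1]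
      exact pe_mono (gcE_sub P hN₁))
    (by
      have : R1ᶜ = pe T S R1ᶜ := by rw [pe_compl, e1]
      rw [this, ← pe_inter]
      refine pe_mono ?_
      rw [q1, ← hBeq]
      rintro ω ⟨g1, g2⟩
      exact goE_sub P' hN₂ ⟨g1, g2⟩)
    (by
      have : R2ᶜ = pe T S R2ᶜ := by rw [pe_compl, e2]
      rw [this, ← pe_inter]
      refine pe_mono ?_
      rw [q2, ← hBeq]
      rintro ω ⟨g1, g2⟩
      exact gcE_sub P' hN₂ ⟨g1, g2⟩)
    (disj_sO_sC P) (disj_sO_R P) (disj_sC_R P)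
    ((disj_sO_U P).mono_right (fun e he => by rw [mem_eRect'] at he ⊢; omega))
    ((disj_sC_U P).mono_right (fun e he => by rw [mem_eRect'] at he ⊢; omega))
    (image_disj inj (disj_sO_sC P').symm) (image_disj inj (disj_sC_R P'))
    (image_disj inj (disj_sO_R P')) (disj_psB (disj_sC_U P')) (disj_psB (disj_sO_U P'))
  set PA := Pr p (pe T S (Arm 0 N₁))
  set PB := Pr p (pe T S B)
  have PA0 : 0 ≤ PA := Pr_nonneg
  have PB0 : 0 ≤ PB := Pr_nonneg
  have c1 : x ^ 20 * PA ≤ Pr p (pe T S (goE n W N₁ X w Y h)) *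
      Pr p (pe T S (gcE n W X w Y h)) := by
    calc x ^ 20 * PA = (x ^ 13 * PA) * x ^ 7 := by ring
      _ ≤ _ := mul_le_mul b1 b2 (by positivity) Pr_nonneg
  have c2 : x ^ 20 * PB ≤ Pr p (pe T S {ω | Fl true (psB φ) ω ∈ goE n W N₂ X' w' Y' h'}) *
      Pr p (pe T S {ω | Fl true (psB φ) ω ∈ gcE n W X' w' Y' h'}) := by
    calc x ^ 20 * PB = (x ^ 13 * PB) * x ^ 7 := by ring
      _ ≤ _ := mul_le_mul b3 b4 (by positivity) Pr_nonneg
  have c3 := mul_le_mul c1 c2 (by positivity) (mul_nonneg Pr_nonneg Pr_nonneg)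
  have c4 := mul_le_mul c3 hδ hδ0 (mul_nonneg (mul_nonneg Pr_nonneg Pr_nonneg)
    (mul_nonneg Pr_nonneg Pr_nonneg))
  have c5 : x ^ 20 * PA * (x ^ 20 * PB) * δ = x ^ 40 * δ * (PA * PB) := by ring
  rw [c5] at c4
  calc Q p (eRect X (X + w) Y (Y + h)) (pe T S (Arm 0 N₁)) (pe T S B) ≤ _ := key
    _ ≤ PA * PB - x ^ 40 * δ * (PA * PB) := by linarith
    _ = (1 - x ^ 40 * δ) * (PA * PB) := by ring

end Pool.Agent.H85.Strict
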