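import Pool.Agent.H85.Strict.Geo
import Pool.Agent.H85.Strict.OneScale

/-!
# Supports of the events of the decoupling argument
-/

open MeasureTheory ProbabilityTheory unitInterval

namespace Pool.Agent.H85.Strict

open Pool.Agent.H89.Perc

variable {n W N : ℕ} {X w Y h : ℤ}

/-- Support of the open events. -/
noncomputable def sO (n W N : ℕ) (X w Y h : ℤ) : Finset Edge :=
  eBall (6 * n) ∪ (eRect 0 (2 * n) (2 * n + 1) (Y + h) ∪ (eRect 0 (X - 1) Y (Y + h) ∪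
    (eRect (X + w + 1) (4 * W + 32 * n) Y (Y + h) ∪ (eBall N \ eBall (4 * W + 24 * n + 1)))))

/-- Support of the closed events. -/
noncomputable def sC (n W : ℕ) (X w Y h : ℤ) : Finset Edge :=
  eRect X (X + w) (Y + h + 2 * n) (4 * W + 24 * n + 1) ∪
    (eRect X (X + w) (-(4 * W + 24 * n)) (Y - 2 * n) ∪
    (eRect (-(4 * W + 24 * n)) (4 * W + 24 * n + 1) (4 * W + 22 * n) (4 * W + 24 * n) ∪
    (eRect (-(4 * W + 24 * n) + 1) (-(8 * n)) (-(4 * W + 24 * n)) (4 * W + 24 * n + 1) ∪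
    eRect (-(4 * W + 24 * n)) (4 * W + 24 * n + 1) (-(4 * W + 24 * n) + 1) (-(8 * n)))))

theorem mem_eBall' {r : ℕ} {e : Edge} :
    e ∈ eBall r ↔ -(r : ℤ) ≤ e.1 ∧ e.1 ≤ r ∧ -(r : ℤ) ≤ e.2.1 ∧ e.2.1 ≤ r := by
  rw [eBall, mem_eRect]
  rfl

theorem mem_eRect' {a b c d : ℤ} {e : Edge} :
    e ∈ eRect a b c d ↔ a ≤ e.1 ∧ e.1 ≤ b ∧ c ≤ e.2.1 ∧ e.2.1 ≤ d := by
  rw [mem_eRect]
  rfl

theorem mem_sO {e : Edge} : e ∈ sO n W N X w Y h ↔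
    (-(6 * n : ℤ) ≤ e.1 ∧ e.1 ≤ 6 * n ∧ -(6 * n : ℤ) ≤ e.2.1 ∧ e.2.1 ≤ 6 * n) ∨
    (0 ≤ e.1 ∧ e.1 ≤ 2 * n ∧ 2 * n + 1 ≤ e.2.1 ∧ e.2.1 ≤ Y + h) ∨
    (0 ≤ e.1 ∧ e.1 ≤ X - 1 ∧ Y ≤ e.2.1 ∧ e.2.1 ≤ Y + h) ∨
    (X + w + 1 ≤ e.1 ∧ e.1 ≤ 4 * W + 32 * n ∧ Y ≤ e.2.1 ∧ e.2.1 ≤ Y + h) ∨
    ((-(N : ℤ) ≤ e.1 ∧ e.1 ≤ N ∧ -(N : ℤ) ≤ e.2.1 ∧ e.2.1 ≤ N) ∧
      ¬ (-(4 * W + 24 * n + 1 : ℤ) ≤ e.1 ∧ e.1 ≤ 4 * W + 24 * n + 1 ∧
        -(4 * W + 24 * n + 1 : ℤ) ≤ e.2.1 ∧ e.2.1 ≤ 4 * W + 24 * n + 1)) := by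
  unfold sO
  simp only [Finset.mem_union, Finset.mem_sdiff, mem_eBall', mem_eRect']
  push_cast
  rfl

theorem mem_sC {e : Edge} : e ∈ sC n W X w Y h ↔
    (X ≤ e.1 ∧ e.1 ≤ X + w ∧ Y + h + 2 * n ≤ e.2.1 ∧ e.2.1 ≤ 4 * W + 24 * n + 1) ∨
    (X ≤ e.1 ∧ e.1 ≤ X + w ∧ -(4 * W + 24 * n : ℤ) ≤ e.2.1 ∧ e.2.1 ≤ Y - 2 * n) ∨
    (-(4 * W + 24 * n : ℤ) ≤ e.1 ∧ e.1 ≤ 4 * W + 24 * n + 1 ∧ 4 * W + 22 * n ≤ e.2.1 ∧
      e.2.1 ≤ 4 * W + 24 * n) ∨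
    (-(4 * W + 24 * n : ℤ) + 1 ≤ e.1 ∧ e.1 ≤ -(8 * n) ∧ -(4 * W + 24 * n : ℤ) ≤ e.2.1 ∧
      e.2.1 ≤ 4 * W + 24 * n + 1) ∨
    (-(4 * W + 24 * n : ℤ) ≤ e.1 ∧ e.1 ≤ 4 * W + 24 * n + 1 ∧
      -(4 * W + 24 * n : ℤ) + 1 ≤ e.2.1 ∧ e.2.1 ≤ -(8 * n)) := by
  unfold sC
  simp only [Finset.mem_union, mem_eRect']

theorem disj_sO_sC (P : Par n W X w Y h) : Disjoint (sO n W N X w Y h) (sC n W X w Y h) := by
  obtain ⟨p1, p2, p3, p4, p5, p6, p7, p8, p9, p10⟩ := P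
  rw [Finset.disjoint_left]
  intro e h1 h2
  rw [mem_sO] at h1
  rw [mem_sC] at h2
  obtain ⟨x, y, b⟩ := e
  simp only at h1 h2
  rcases h1 with h1 | h1 | h1 | h1 | h1 <;> rcases h2 with h2 | h2 | h2 | h2 | h2 <;> omega

theorem disj_sO_R (P : Par n W X w Y h) :
    Disjoint (sO n W N X w Y h) (eRect X (X + w) (Y - 4 * n) (Y + h + 4 * n)) := by
  obtain ⟨p1, p2, p3, p4, p5, p6, p7, p8, p9, p10⟩ := P
  rw [Finset.disjoint_left]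
  intro e h1 h2
  rw [mem_sO] at h1
  rw [mem_eRect'] at h2
  obtain ⟨x, y, b⟩ := e
  simp only at h1 h2
  rcases h1 with h1 | h1 | h1 | h1 | h1 <;> omega

theorem disj_sC_R (P : Par n W X w Y h) :
    Disjoint (sC n W X w Y h) (eRect (X - 4 * n) (X + w + 4 * n) Y (Y + h)) := by
  obtain ⟨p1, p2, p3, p4, p5, p6, p7, p8, p9, p10⟩ := P
  rw [Finset.disjoint_left]
  intro e h1 h2
  rw [mem_sC] at h1
  rw [mem_eRect'] at h2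
  obtain ⟨x, y, b⟩ := e
  simp only at h1 h2
  rcases h1 with h1 | h1 | h1 | h1 | h1 <;> omega

theorem disj_sO_U (P : Par n W X w Y h) :
    Disjoint (sO n W N X w Y h) (eRect X (X + w) (Y - 1) (Y + h + 1)) := by
  refine (disj_sO_R P).mono_right ?_
  have := P.hn
  intro e he
  rw [mem_eRect'] at he ⊢
  omega

theorem disj_sC_U (P : Par n W X w Y h) :
    Disjoint (sC n W X w Y h) (eRect X (X + w) (Y - 1) (Y + h + 1)) := by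
  obtain ⟨p1, p2, p3, p4, p5, p6, p7, p8, p9, p10⟩ := P
  rw [Finset.disjoint_left]
  intro e h1 h2
  rw [mem_sC] at h1
  rw [mem_eRect'] at h2
  obtain ⟨x, y, b⟩ := e
  simp only at h1 h2
  rcases h1 with h1 | h1 | h1 | h1 | h1 <;> omega

theorem crossed_image {a b c d : ℤ} :
    (eRect a b c d).image crossed ⊆ eRect a (b + 1) c (d + 1) := by
  intro e he
  obtain ⟨f, hf, rfl⟩ := Finset.mem_image.1 he
  rw [mem_eRect'] at hf ⊢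
  obtain ⟨x, y, b⟩ := f
  cases b <;> simp [crossed] at hf ⊢ <;> omega

theorem openL_sub (P : Par n W X w Y h) (hN : 4 * W + 32 * n ≤ N) :
    ∀ r ∈ openL n W X w Y h, eRect r.a r.b r.c r.d ⊆ sO n W N X w Y h := by
  obtain ⟨p1, p2, p3, p4, p5, p6, p7, p8, p9, p10⟩ := P
  simp only [openL, List.mem_cons, List.not_mem_nil, or_false, forall_eq_or_imp, forall_eq]
  refine ⟨?_, ?_, ?_, ?_, ?_, ?_, ?_, ?_, ?_, ?_, ?_, ?_, ?_⟩ <;>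
  · intro e he
    rw [mem_eRect'] at he
    rw [mem_sO]
    push_cast at he
    obtain ⟨x, y, b⟩ := e
    simp only at he ⊢
    omega

theorem openL_off (P : Par n W X w Y h) :
    ∀ r ∈ openL n W X w Y h, eRect r.a r.b r.c r.d ⊆ eBall (4 * W + 32 * n) \ eBall (2 * n) := by
  obtain ⟨p1, p2, p3, p4, p5, p6, p7, p8, p9, p10⟩ := P
  simp only [openL, List.mem_cons, List.not_mem_nil, or_false, forall_eq_or_imp, forall_eq]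
  refine ⟨?_, ?_, ?_, ?_, ?_, ?_, ?_, ?_, ?_, ?_, ?_, ?_, ?_⟩ <;>
  · intro e he
    rw [mem_eRect'] at he
    rw [Finset.mem_sdiff, mem_eBall', mem_eBall']
    push_cast at he ⊢
    obtain ⟨x, y, b⟩ := e
    simp only at he ⊢
    omega

theorem closedL_sub (P : Par n W X w Y h) :
    ∀ r ∈ closedL n W X w Y h, eRect r.a (r.b + 1) r.c (r.d + 1) ⊆ sC n W X w Y h := by
  obtain ⟨p1, p2, p3, p4, p5, p6, p7, p8, p9, p10⟩ := P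
  simp only [closedL, List.mem_cons, List.not_mem_nil, or_false, forall_eq_or_imp, forall_eq]
  refine ⟨?_, ?_, ?_, ?_, ?_, ?_, ?_⟩ <;>
  · intro e he
    rw [mem_eRect'] at he
    rw [mem_sC]
    obtain ⟨x, y, b⟩ := e
    simp only at he ⊢
    omega

theorem sC_off (P : Par n W X w Y h) : sC n W X w Y h ⊆ eBall (4 * W + 24 * n + 1) \ eBall (2 * n) := by
  obtain ⟨p1, p2, p3, p4, p5, p6, p7, p8, p9, p10⟩ := P
  intro e he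
  rw [mem_sC] at he
  rw [Finset.mem_sdiff, mem_eBall', mem_eBall']
  push_cast
  obtain ⟨x, y, b⟩ := e
  simp only at he ⊢
  rcases he with h1 | h1 | h1 | h1 | h1 <;> omega

end Pool.Agent.H85.Strict
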