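import Pool.Agent.H85.Strict.Step

/-!
# A strict inequality for the polychromatic two-arm probability
-/

open MeasureTheory ProbabilityTheory unitInterval

namespace Pool.Agent.H85.Strict

open Pool.Agent.H89.Perc

variable {p : I}

theorem pigeon (v : ℕ → ℝ) (m : ℕ) (h : v 0 - v (m + 1) ≤ 1) :
    ∃ i ≤ m, v i - v (i + 1) ≤ 1 / ((m : ℝ) + 1) := by
  by_contra hc
  push Not at hc
  have h1 : ∑ i ∈ Finset.range (m + 1), (v i - v (i + 1)) = v 0 - v (m + 1) :=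
    Finset.sum_range_sub' v (m + 1)
  have h2 : ∑ i ∈ Finset.range (m + 1), (1 / ((m : ℝ) + 1)) <
      ∑ i ∈ Finset.range (m + 1), (v i - v (i + 1)) :=
    Finset.sum_lt_sum_of_nonempty (by simp) fun i hi => hc i (by
      have := Finset.mem_range.1 hi; omega)
  rw [Finset.sum_const, Finset.card_range, nsmul_eq_mul, h1] at h2
  have h3 : (((m + 1 : ℕ) : ℝ)) * (1 / ((m : ℝ) + 1)) = 1 := by
    push_cast
    field_simp
  linarith

theorem hcross_shape {a b c d w h : ℤ} (h1 : b = a + w) (h2 : d = c + h) :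
    Pr p {ω | HCross ω a b c d} = Pr p {ω | HCross ω 0 w 0 h} := by
  subst h1 h2
  have := Pr_hcross_translate (p := p) (a := 0) (b := w) (c := 0) (d := h) a c
  rw [← this]
  congr 1
  ext ω
  simp only [Set.mem_ofPred_eq, zero_add]
  rw [add_comm w a, add_comm h c]

/-- One scale. -/
theorem scale {c₀ : ℝ} (hc0 : 0 < c₀) {m : ℕ} (hm : 2 / c₀ ^ 2 ≤ (m : ℝ) + 1)
    {n N₁ N₂ L : ℕ} {φ : Vert} (hφ1 : |φ.1| ≤ 1) (hφ2 : |φ.2| ≤ 1) (hn : 8 ≤ n)
    (hL : 8 * (m + 1) * n ≤ L) (hN₁ : (16 * (m + 1) + 32) * n ≤ N₁)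
    (hN₂ : (16 * (m + 1) + 32) * n ≤ N₂)
    (hR : ∀ k : ℕ, 1 ≤ k → k ≤ L → c₀ ≤ Pr p {ω | HCross ω 0 (4 * k) 0 k} ∧
      c₀ ≤ Pr (σ p) {ω | HCross ω 0 (4 * k) 0 k}) :
    Q p (eBall ((16 * (m + 1) + 24) * n)) (Arm 0 N₁) {ω | dual ω ∈ Arm φ N₂} ≤
      (1 - (c₀ ^ (2 * (32 * (m + 1) + 64) + 1)) ^ 40 * (c₀ ^ 2 / 2)) *
        Q p (eBall n) (Arm 0 N₁) {ω | dual ω ∈ Arm φ N₂} := by
  set M := 4 * (m + 1) with hM
  set W := M * n with hW
  have hWn : W = 4 * (m + 1) * n := by rw [hW, hM]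
  have hW4 : 4 * n ≤ W := by rw [hW, hM]; nlinarith
  have hWZ : (W : ℤ) = 4 * (m + 1) * n := by rw [hWn]; push_cast; ring
  set v : ℕ → ℝ := fun i => Pr p {ω | HCross ω 0 (2 * (W : ℤ) + 8 * i * n) 0
    (4 * (W : ℤ) - 8 * i * n)} with hv
  -- the two ends of the chain
  have hmono : ∀ i j : ℕ, i ≤ j → v j ≤ v i := by
    intro i j hij
    refine Pr_mono fun ω hω => ?_
    have h1 : (i : ℤ) * n ≤ j * n := by
      have : (i : ℤ) ≤ j := by exact_mod_cast hij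
      have hn0 : (0 : ℤ) ≤ n := by positivity
      nlinarith
    have h0 : (0 : ℤ) ≤ (i : ℤ) * n := by positivity
    have h0' : (0 : ℤ) ≤ W := by positivity
    exact HCross.mono hω le_rfl (by nlinarith) (by nlinarith) le_rfl (by nlinarith)
  have hvend : c₀ ≤ v (m + 1) := by
    refine (hR (2 * W) (by omega) (by rw [hWn]; nlinarith)).1.trans (Pr_mono fun ω hω => ?_)
    have e1 : 2 * (W : ℤ) + 8 * ((m + 1 : ℕ) : ℤ) * n = 4 * W := by rw [hWZ]; push_cast; ring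
    have e2 : 4 * (W : ℤ) - 8 * ((m + 1 : ℕ) : ℤ) * n = 2 * W := by rw [hWZ]; push_cast; ring
    show HCross ω 0 (2 * (W : ℤ) + 8 * ((m + 1 : ℕ) : ℤ) * n) 0
      (4 * (W : ℤ) - 8 * ((m + 1 : ℕ) : ℤ) * n)
    rw [e1, e2]
    exact HCross.mono hω le_rfl (by omega) (by push_cast; omega) le_rfl (by push_cast; omega)
  have hv0 : v 0 ≤ 1 - c₀ := by
    have h1 : c₀ ≤ Pr p {ω | dual ω ∈ {ω | VCross ω 0 (2 * (W : ℤ) - 1) (-1) (4 * W)}} := by
      rw [Pr_dual (localOn_vcross _ _ _ _), Pr_vcross_eq_hcross,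
        hcross_shape (w := 4 * (W : ℤ) + 1) (h := 2 * (W : ℤ) - 1) (by ring) (by ring)]
      refine (hR (2 * W - 1) (by omega) ?_).2.trans (Pr_mono fun ω hω => ?_)
      · have : 2 * W ≤ L := by rw [hWn]; nlinarith
        omega
      · have e : (((2 * W - 1 : ℕ)) : ℤ) = 2 * W - 1 := by omega
        have hω' : HCross ω 0 (4 * ((2 * W - 1 : ℕ) : ℤ)) 0 ((2 * W - 1 : ℕ) : ℤ) := hω
        rw [e] at hω'
        exact HCross.mono hω' le_rfl (by omega) (by omega) le_rfl le_rfl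
    have h2 : Pr p {ω | dual ω ∈ {ω | VCross ω 0 (2 * (W : ℤ) - 1) (-1) (4 * W)}} ≤
        1 - v 0 := by
      have e0 : v 0 = Pr p {ω | HCross ω 0 (2 * (W : ℤ)) 0 (4 * W)} := by
        simp only [hv, Nat.cast_zero, mul_zero, zero_mul, add_zero, sub_zero]
      rw [e0, ← Pr_compl (localOn_hcross 0 (2 * (W : ℤ)) 0 (4 * (W : ℤ)))]
      refine Pr_mono fun ω hω hh => ?_
      have := not_hcross_and_dual_vcross (ω := ω) (a := 0) (b := 2 * (W : ℤ)) (c := 0)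
        (d := 4 * (W : ℤ)) (by omega) hh
      rw [zero_sub] at this
      exact this hω
    linarith
  obtain ⟨i, hi, hgap⟩ := pigeon v m (by
    have h1 : v 0 ≤ 1 := Pr_le_one
    have h2 : 0 ≤ v (m + 1) := Pr_nonneg
    linarith)
  have hgap' : v i - v (i + 1) ≤ c₀ ^ 2 / 2 := by
    refine hgap.trans ?_
    have : 0 < c₀ ^ 2 := by positivity
    rw [div_le_iff₀ this] at hm
    rw [div_le_iff₀ (by positivity)]
    linarith
  have hi1 : c₀ ≤ v (i + 1) := hvend.trans (hmono _ _ (by omega))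
  have hi2 : v i ≤ 1 - c₀ := (hmono 0 i (by omega)).trans hv0
  have hin : (i : ℤ) * n ≤ m * n := by
    have : (i : ℤ) ≤ m := by exact_mod_cast hi
    have hn0 : (0 : ℤ) ≤ n := by positivity
    nlinarith
  have hin0 : (0 : ℤ) ≤ (i : ℤ) * n := by positivity
  have hWm : (W : ℤ) = 4 * (m * n) + 4 * n := by rw [hWZ]; ring
  set w : ℤ := 2 * (W : ℤ) + 8 * i * n with hw
  set h : ℤ := 4 * (W : ℤ) - 8 * n - 8 * i * n with hh
  have hw' : w = 2 * (W : ℤ) + 8 * (i * n) := by rw [hw]; ring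
  have hh' : h = 4 * (W : ℤ) - 8 * n - 8 * (i * n) := by rw [hh]; ring
  have P : Par n W (12 * n) w (12 * n) h := by
    refine ⟨hn, hW4, ?_, ?_, ?_, ?_, ?_, ?_, ?_, ?_⟩ <;> omega
  rw [abs_le] at hφ1 hφ2
  have P' : Par n W (12 * n - 1 - φ.2) (h + 1) (12 * n - φ.1) (w - 1) := by
    refine ⟨hn, hW4, ?_, ?_, ?_, ?_, ?_, ?_, ?_, ?_⟩ <;> omega
  have er1 : Pr p {ω | HCross ω (12 * (n : ℤ)) (12 * n + w) (12 * n - 4 * n)
      (12 * n + h + 4 * n)} = v i := by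
    rw [hcross_shape (w := w) (h := 4 * (W : ℤ) - 8 * i * n) (by ring) (by rw [hh]; ring)]
  have er2 : Pr p {ω | HCross ω (12 * (n : ℤ) - 4 * n) (12 * n + w + 4 * n) (12 * n)
      (12 * n + h)} = v (i + 1) := by
    rw [hcross_shape (w := 2 * (W : ℤ) + 8 * ((i + 1 : ℕ) : ℤ) * n)
      (h := 4 * (W : ℤ) - 8 * ((i + 1 : ℕ) : ℤ) * n) (by rw [hw]; push_cast; ring)
      (by rw [hh]; push_cast; ring)]
  have hKn : 8 * W + 64 * n ≤ (32 * (m + 1) + 64) * n := by rw [hWn]; nlinarith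
  have hlong : ∀ q : I, c₀ ≤ Pr q {ω | HCross ω 0 (4 * n) 0 n} →
      c₀ ^ (2 * (32 * (m + 1) + 64) + 1) ≤
        Pr q {ω | HCross ω 0 (((32 * (m + 1) + 64 : ℕ) : ℤ) * n) 0 n} := by
    intro q hq
    refine (long_rsw hc0.le hq (32 * (m + 1) + 64)).trans (Pr_mono fun ω hω => ?_)
    have hn0 : (0 : ℤ) ≤ n := by positivity
    exact HCross.mono hω le_rfl (by positivity) (by nlinarith) le_rfl le_rfl
  have hnL : n ≤ L := by nlinarith
  obtain ⟨r1, r2⟩ := hR n (by omega) hnL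
  refine step (K := 32 * (m + 1) + 64) (abs_le.2 hφ1) (abs_le.2 hφ2) P P' hKn (by positivity)
    (hlong p r1) (hlong (σ p) r2) (by rw [hWn]; nlinarith) (by rw [hWn]; nlinarith)
    (by positivity) ?_ (eBall_subset (by nlinarith)) ?_
  · rw [er1, er2]
    have : c₀ * c₀ ≤ v (i + 1) * (1 - v i) :=
      mul_le_mul hi1 (by linarith) hc0.le Pr_nonneg
    nlinarith
  · intro e he
    rw [mem_eRect'] at he
    rw [mem_eBall']
    have e1 : (((16 * (m + 1) + 24) * n : ℕ) : ℤ) = 4 * W + 24 * n := by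
      rw [hWZ]; push_cast; ring
    rw [e1]
    omega

/-- The two-arm probability is smaller than the product of the one-arm probabilities by a power of
the radius. -/
theorem two_arm_aux {c₀ : ℝ} (hc0 : 0 < c₀) : ∃ C > (0 : ℝ), ∃ c > (0 : ℝ), ∀ (p : I) (L : ℕ),
    (∀ k : ℕ, 1 ≤ k → k ≤ L → c₀ ≤ Pr p {ω | HCross ω 0 (4 * k) 0 k} ∧
      c₀ ≤ Pr (σ p) {ω | HCross ω 0 (4 * k) 0 k}) →
    ∀ φ : Vert, |φ.1| ≤ 1 → |φ.2| ≤ 1 → ∀ N₁ N₂ : ℕ,
      Pr p (Arm 0 N₁ ∩ {ω | dual ω ∈ Arm φ N₂}) ≤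
        C * (((min (min N₁ N₂) L : ℕ) : ℝ) + 1) ^ (-c) * (arm p N₁ * arm (σ p) N₂) := by
  classical
  -- reduction to `c₀ ≤ 1`
  wlog hc1 : c₀ ≤ 1 generalizing c₀
  · obtain ⟨C, hC, c, hc, H⟩ := this (c₀ := 1) one_pos le_rfl
    push Not at hc1
    exact ⟨C, hC, c, hc, fun p L h => H p L fun k h1 h2 =>
      ⟨hc1.le.trans (h k h1 h2).1, hc1.le.trans (h k h1 h2).2⟩⟩
  obtain ⟨m, hm⟩ := exists_nat_ge (2 / c₀ ^ 2)
  have hm' : 2 / c₀ ^ 2 ≤ (m : ℝ) + 1 := by linarith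
  set x : ℝ := c₀ ^ (2 * (32 * (m + 1) + 64) + 1) with hx
  have hx0 : 0 < x := by positivity
  have hx1 : x ≤ 1 := pow_le_one₀ hc0.le hc1
  set γ : ℝ := x ^ 40 * (c₀ ^ 2 / 2) with hγ
  have hγ0 : 0 < γ := by positivity
  have hγ1 : γ < 1 := by
    have h1 : x ^ 40 ≤ 1 := pow_le_one₀ hx0.le hx1
    have h2 : c₀ ^ 2 ≤ 1 := pow_le_one₀ hc0.le hc1
    have h3 : γ ≤ 1 * (1 / 2) := mul_le_mul h1 (by linarith) (by positivity) (by norm_num)
    linarith
  set κ : ℕ := 16 * (m + 1) + 24 with hκ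
  set D : ℕ := (16 * (m + 1) + 32) * 8 with hD
  have hκ1 : (1 : ℝ) < κ := by
    have : 1 < κ := by omega
    exact_mod_cast this
  have hlogκ : 0 < Real.log κ := Real.log_pos hκ1
  set c : ℝ := -Real.log (1 - γ) / Real.log κ with hc
  have hc' : 0 < c := by
    refine div_pos ?_ hlogκ
    rw [neg_pos]
    exact Real.log_neg (by linarith) (by linarith)
  have hpow : ∀ j : ℕ, (1 - γ) ^ j = ((κ : ℝ) ^ j) ^ (-c) := by
    intro j
    have h1 : (κ : ℝ) ^ (-c) = 1 - γ := by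
      rw [Real.rpow_def_of_pos (by linarith), hc]
      rw [show Real.log κ * -(-Real.log (1 - γ) / Real.log κ) = Real.log (1 - γ) by
        field_simp]
      exact Real.exp_log (by linarith)
    rw [← h1, ← Real.rpow_natCast, ← Real.rpow_natCast, ← Real.rpow_mul (by linarith),
      ← Real.rpow_mul (by linarith)]
    ring_nf
  have hDp : (0 : ℝ) < D := by
    have : 0 < D := by omega
    exact_mod_cast this
  refine ⟨(D : ℝ) ^ c, by positivity, c, hc', ?_⟩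
  intro p L hR φ hφ1 hφ2 N₁ N₂
  set r : ℕ := min (min N₁ N₂) L with hr
  set A : Set Config := Arm 0 N₁ with hA
  set B : Set Config := {ω | dual ω ∈ Arm φ N₂} with hB
  have lA := localOn_arm 0 N₁
  have lB := (localOn_arm φ N₂).dual'
  have iA : Incr A := incr_arm 0 N₁
  have iB : Incr Bᶜ := (incr_arm φ N₂).dual_compl
  -- iteration
  have iter : ∀ j : ℕ, (∀ i < j, D * κ ^ i ≤ r) →
      Q p (eBall (8 * κ ^ j)) A B ≤ (1 - γ) ^ j * (Pr p A * Pr p B) := by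
    intro j
    induction j with
    | zero =>
      intro _
      have h0 : Q p (eBall (8 * κ ^ 0)) A B ≤ Pr p A * Pr p B := Q_le lA lB iA iB _
      linarith
    | succ j ih =>
      intro h
      have h1 := ih fun i hi => h i (by omega)
      have h2 := h j (by omega)
      have h3 : (16 * (m + 1) + 32) * (8 * κ ^ j) ≤ r := by
        rw [hD] at h2; linarith
      have hκj : 1 ≤ κ ^ j := Nat.one_le_pow _ _ (by omega)
      have h4 := scale hc0 hm' (n := 8 * κ ^ j) (N₁ := N₁) (N₂ := N₂) (L := L) hφ1 hφ2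
        (by omega) (by
          have : r ≤ L := min_le_right _ _
          nlinarith) (h3.trans ((min_le_left _ _).trans (min_le_left _ _)))
        (h3.trans ((min_le_left _ _).trans (min_le_right _ _))) hR
      have e1 : (16 * (m + 1) + 24) * (8 * κ ^ j) = 8 * κ ^ (j + 1) := by
        rw [← hκ]; ring
      rw [e1] at h4
      calc Q p (eBall (8 * κ ^ (j + 1))) A B ≤ (1 - γ) * Q p (eBall (8 * κ ^ j)) A B := h4
        _ ≤ (1 - γ) * ((1 - γ) ^ j * (Pr p A * Pr p B)) :=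
            mul_le_mul_of_nonneg_left h1 (by linarith)
        _ = _ := by ring
  -- choice of the number of scales
  have hex : ∃ j : ℕ, r < D * κ ^ j := by
    refine ⟨r, ?_⟩
    have h1 : r < κ ^ r := Nat.lt_pow_self (by omega)
    have h2 : 1 * κ ^ r ≤ D * κ ^ r := Nat.mul_le_mul_right _ (by omega)
    omega
  set j := Nat.find hex with hj
  have hj1 : r < D * κ ^ j := Nat.find_spec hex
  have hj2 : ∀ i < j, D * κ ^ i ≤ r := fun i hi => not_lt.1 (Nat.find_min hex hi)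
  have h1 := iter j hj2
  -- the full coupling
  set s : Finset Edge := (eRect ((0 : Vert).1 - N₁) ((0 : Vert).1 + N₁) ((0 : Vert).2 - N₁)
    ((0 : Vert).2 + N₁) ∪ (eRect (φ.1 - N₂) (φ.1 + N₂) (φ.2 - N₂) (φ.2 + N₂)).image crossed) ∪
      eBall (8 * κ ^ j) with hs
  have h2 : Pr p (A ∩ B) = Q p s A B := by
    rw [Q_full (lA.mono ?_) (lB.mono ?_)]
    · exact Finset.subset_union_left.trans Finset.subset_union_left
    · exact Finset.subset_union_right.trans Finset.subset_union_left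
  have h3 : Q p s A B ≤ Q p (eBall (8 * κ ^ j)) A B :=
    Q_anti lA lB iA iB Finset.subset_union_right
  have hPA : Pr p A = arm p N₁ := rfl
  have hPB : Pr p B = arm (σ p) N₂ := Pr_dual_arm φ N₂
  rw [hPA, hPB] at h1
  rw [h2]
  refine (h3.trans h1).trans ?_
  refine mul_le_mul_of_nonneg_right ?_ (mul_nonneg arm_nonneg arm_nonneg)
  rw [hpow j]
  have hκj : (0 : ℝ) < (κ : ℝ) ^ j := by positivity
  have h5 : ((r : ℝ) + 1) / D ≤ (κ : ℝ) ^ j := by
    rw [div_le_iff₀ hDp]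
    have : r + 1 ≤ D * κ ^ j := hj1
    have h' : ((r : ℝ) + 1) ≤ (D : ℝ) * (κ : ℝ) ^ j := by exact_mod_cast this
    linarith
  calc ((κ : ℝ) ^ j) ^ (-c) ≤ (((r : ℝ) + 1) / D) ^ (-c) :=
        Real.rpow_le_rpow_of_nonpos (by positivity) h5 (by linarith)
    _ = (D : ℝ) ^ c * ((r : ℝ) + 1) ^ (-c) := by
        rw [Real.div_rpow (by positivity) hDp.le, Real.rpow_neg hDp.le, div_inv_eq_mul, mul_comm]

end Pool.Agent.H85.Strict
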